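import Pool.Agent.P.MP_05ee19_an.Stm

/-!
Small shared lemmas for MP_05ee19_an.
-/

open MeasureTheory Set Metric Filter Topology

namespace Pool.Agent.P.MP_05ee19_an

lemma PM.nonneg {Z : Type} {δ : Z → Z → ℝ} (h : PM δ) (x y : Z) : 0 ≤ δ x y := by
  have h1 := h.tri x y x
  rw [h.refl, h.symm y x] at h1
  linarith

lemma pm_dist (Z : Type) [PseudoMetricSpace Z] : PM (fun x y : Z => dist x y) :=
  ⟨dist_self, dist_comm, dist_triangle⟩

lemma rtg_mono {Z : Type} {R R' : Z → Z → Prop} (h : ∀ a b, R a b → R' a b) {x y : Z}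
    (hxy : Relation.ReflTransGen R x y) : Relation.ReflTransGen R' x y := by
  induction hxy with
  | refl => exact .refl
  | tail _ hbc ih => exact ih.tail (h _ _ hbc)

lemma Step.mono {Z ι : Type} {δ : Z → Z → ℝ} {X X' : Set Z} {χ : Z → ι} {σ σ' : Z → ℝ}
    (hX : X ⊆ X') (hσ : ∀ x ∈ X, σ x ≤ σ' x) {a b : Z} (h : Step δ X χ σ a b) :
    Step δ X' χ σ' a b :=
  ⟨hX h.1, hX h.2.1, h.2.2.1, h.2.2.2.trans (hσ a h.1)⟩

lemma Good.mono {Z ι : Type} {δ : Z → Z → ℝ} {X X' : Set Z} {χ : Z → ι} {σ σ' D D' : Z → ℝ}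
    (h : Good δ X' χ σ' D') (hX : X ⊆ X') (hσ : ∀ x ∈ X, σ x ≤ σ' x)
    (hD : ∀ x ∈ X, D' x ≤ D x) : Good δ X χ σ D := fun x hx y hxy =>
  (h x (hX hx) y (rtg_mono (fun _ _ hab => Step.mono hX hσ hab) hxy)).trans (hD x hx)

lemma Col.mono {Z : Type} {δ : Z → Z → ℝ} {X X' : Set Z} {d : ℕ} (h : Col δ X' d)
    (hX : X ⊆ X') : Col δ X d := by
  obtain ⟨c, hc, h⟩ := h
  refine ⟨c, hc, fun s hs => ?_⟩
  obtain ⟨χ, hχ⟩ := h s hs
  exact ⟨χ, hχ.mono hX (fun _ _ => le_rfl) (fun _ _ => le_rfl)⟩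

lemma col_empty {Z : Type} (δ : Z → Z → ℝ) (d : ℕ) : Col δ ∅ d :=
  ⟨1, one_pos, fun _ _ => ⟨fun _ => 0, fun _ hx => hx.elim⟩⟩

/-- the end point of a chain that starts in `X` lies in `X` and has the same colour -/
lemma chain_mem {Z ι : Type} {δ : Z → Z → ℝ} {X : Set Z} {χ : Z → ι} {σ : Z → ℝ} {x y : Z}
    (hx : x ∈ X) (h : Relation.ReflTransGen (Step δ X χ σ) x y) : y ∈ X ∧ χ x = χ y := by
  induction h with
  | refl => exact ⟨hx, rfl⟩
  | tail _ hbc ih => exact ⟨hbc.2.1, ih.2.trans hbc.2.2.1⟩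

/-- a bounded set is good at every scale -/
lemma good_of_bdd {Z ι : Type} {δ : Z → Z → ℝ} {X : Set Z} (χ : Z → ι) (σ : Z → ℝ) {D : Z → ℝ}
    (h : ∀ x ∈ X, ∀ y ∈ X, δ x y ≤ D x) : Good δ X χ σ D := fun x hx y hxy =>
  h x hx y (chain_mem hx hxy).1

/-- steps of `R` between points outside `p` -/
def Run {Z : Type} (R : Z → Z → Prop) (p : Z → Prop) (a b : Z) : Prop := R a b ∧ ¬ p a ∧ ¬ p b

/-- jumps between consecutive points of `p` along an `R`-chain -/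
def Jump {Z : Type} (R : Z → Z → Prop) (p : Z → Prop) (a b : Z) : Prop :=
  p a ∧ p b ∧ (R a b ∨ ∃ u v, ¬ p u ∧ ¬ p v ∧ R a u ∧ Relation.ReflTransGen (Run R p) u v ∧ R v b)

/-- splitting a chain at the points satisfying `p` -/
lemma chain_split {Z : Type} {R : Z → Z → Prop} (p : Z → Prop) {x y : Z}
    (h : Relation.ReflTransGen R x y) :
    (¬ p x ∧ ¬ p y ∧ Relation.ReflTransGen (Run R p) x y) ∨
    ∃ a b, p a ∧ p b ∧
      (a = x ∨ ∃ v, ¬ p x ∧ ¬ p v ∧ Relation.ReflTransGen (Run R p) x v ∧ R v a) ∧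
      Relation.ReflTransGen (Jump R p) a b ∧
      (b = y ∨ ∃ u, ¬ p u ∧ ¬ p y ∧ R b u ∧ Relation.ReflTransGen (Run R p) u y) := by
  induction h with
  | refl =>
    by_cases hx : p x
    · exact Or.inr ⟨x, x, hx, hx, Or.inl rfl, .refl, Or.inl rfl⟩
    · exact Or.inl ⟨hx, hx, .refl⟩
  | @tail y z _ hyz ih =>
    by_cases hz : p z
    · right
      rcases ih with ⟨hx, hy, hr⟩ | ⟨a, b, ha, hb, h1, h2, h3⟩
      · exact ⟨z, z, hz, hz, Or.inr ⟨y, hx, hy, hr, hyz⟩, .refl, Or.inl rfl⟩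
      · refine ⟨a, z, ha, hz, h1, h2.tail ⟨hb, hz, ?_⟩, Or.inl rfl⟩
        rcases h3 with rfl | ⟨u, hu, hy, hbu, hr⟩
        · exact Or.inl hyz
        · exact Or.inr ⟨u, y, hu, hy, hbu, hr, hyz⟩
    · rcases ih with ⟨hx, hy, hr⟩ | ⟨a, b, ha, hb, h1, h2, h3⟩
      · exact Or.inl ⟨hx, hz, hr.tail ⟨hyz, hy, hz⟩⟩
      · refine Or.inr ⟨a, b, ha, hb, h1, h2, Or.inr ?_⟩
        rcases h3 with rfl | ⟨u, hu, hy, hbu, hr⟩
        · exact ⟨z, hz, hz, hyz, .refl⟩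
        · exact ⟨u, hu, hz, hbu, hr.tail ⟨hyz, hy, hz⟩⟩

/-- pigeonhole: at most `N` values miss one of `N + 1` disjoint intervals -/
lemma exists_gap {Z : Type} {F : Set Z} {N : ℕ} (hF : F.encard ≤ N) (g : Z → ℝ) (t : ℕ → ℝ)
    (ht : Monotone t) : ∃ j ≤ N, ∀ z ∈ F, g z ≤ t j ∨ t (j + 1) < g z := by
  by_contra hne
  push Not at hne
  obtain ⟨z₀, -⟩ := hne 0 (Nat.zero_le _)
  have : Nonempty Z := ⟨z₀⟩
  choose! z hzF hz1 hz2 using hne
  have hinj : InjOn z (Iic N) := by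
    intro i hi j hj hij
    by_contra hne
    rcases lt_or_gt_of_ne hne with h | h
    · have := ht (Nat.succ_le_of_lt h)
      have h1 := hz2 i hi; have h2 := hz1 j hj; rw [hij] at h1; linarith
    · have := ht (Nat.succ_le_of_lt h)
      have h1 := hz2 j hj; have h2 := hz1 i hi; rw [hij] at h2; linarith
  have h1 : (z '' Iic N).encard = (N + 1 : ℕ) := by
    rw [hinj.encard_image, ← Finset.coe_Iic, encard_coe_eq_coe_finsetCard]; simp
  have h2 : (z '' Iic N).encard ≤ N :=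
    (encard_le_encard (by rintro _ ⟨i, hi, rfl⟩; exact hzF i hi)).trans hF
  rw [h1] at h2
  have : N + 1 ≤ N := by exact_mod_cast h2
  omega

lemma Thick.mono {n : ℕ} {S T : Set (E n)} {l l' : ℝ} (h : Thick S l) (hST : S ⊆ T)
    (hl : l' ≤ l) : Thick T l' := by
  obtain ⟨q, a, h⟩ := h
  refine ⟨q, a, fun t ht => ?_⟩
  obtain ⟨z, hz, e⟩ := h t ⟨ht.1, ht.2.trans (by linarith)⟩
  exact ⟨z, hST hz, e⟩

/-- a connected set that meets `closedBall q a` and leaves `ball q (a + l)` is thick -/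
lemma thick_of_preconnected {n : ℕ} {C : Set (E n)} (hC : IsPreconnected C) {q u v : E n}
    {a l : ℝ} (hu : u ∈ C) (hv : v ∈ C) (h1 : dist u q ≤ a) (h2 : a + l ≤ dist v q) :
    Thick (C ∩ closedBall q (a + l)) l := by
  refine ⟨q, a, fun t ht => ?_⟩
  have := hC.intermediate_value hu hv (f := fun z => dist z q)
    (continuous_id.dist continuous_const).continuousOn
  obtain ⟨z, hz, e⟩ := this ⟨h1.trans ht.1, ht.2.trans h2⟩
  exact ⟨z, ⟨hz, by rw [mem_closedBall]; exact (le_of_eq e).trans ht.2⟩, e⟩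

lemma exists_unit {n : ℕ} (hn : 1 ≤ n) : ∃ v : E n, ‖v‖ = 1 :=
  ⟨EuclideanSpace.single ⟨0, hn⟩ 1, by simp⟩

lemma thick_closedBall {n : ℕ} (hn : 1 ≤ n) (q : E n) (r : ℝ) : Thick (closedBall q r) r := by
  obtain ⟨v, hv⟩ := exists_unit hn
  refine ⟨q, 0, fun t ht => ?_⟩
  have : dist (q + t • v) q = t := by
    rw [dist_eq_norm, add_sub_cancel_left, norm_smul, hv, Real.norm_of_nonneg ht.1, mul_one]
  exact ⟨q + t • v, by rw [mem_closedBall, this]; simpa using ht.2, this⟩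

lemma QR.integrableOn_pow {n : ℕ} (hn : 1 ≤ n) {Ω f G K} (h : QR n Ω f G K) {S : Set (E n)}
    (hS : S ⊆ Ω) (hc : IsCompact S) : IntegrableOn (fun x => ‖G x‖ ^ n) S := by
  have := (h.memLp S hS hc).integrable_norm_pow (by omega)
  exact this

/-- integrability of `Φ (x, f x, G x)` on compact subsets -/
lemma QR.integrableOn {n : ℕ} (hn : 1 ≤ n) {Ω f G K} (h : QR n Ω f G K) {S : Set (E n)}
    (hS : S ⊆ Ω) (hc : IsCompact S) {Φ : E n × E n × (E n →L[ℝ] E n) → ℝ} (hΦ : Continuous Φ)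
    (hg : Growth S Φ) : IntegrableOn (fun x => Φ (x, f x, G x)) S := by
  obtain ⟨M, hM⟩ := hc.exists_bound_of_continuousOn (h.cont.mono hS)
  obtain ⟨C, hC⟩ := hg M
  have hf : AEStronglyMeasurable f (volume.restrict S) :=
    (h.cont.mono hS).aestronglyMeasurable hc.measurableSet
  have hG : AEStronglyMeasurable G (volume.restrict S) := (h.memLp S hS hc).1
  have hm : AEStronglyMeasurable (fun x => Φ (x, f x, G x)) (volume.restrict S) :=
    hΦ.comp_aestronglyMeasurable (aestronglyMeasurable_id.prodMk (hf.prodMk hG))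
  have h1 : IntegrableOn (fun x => C * (1 + ‖G x‖ ^ n)) S :=
    ((integrableOn_const hc.measure_lt_top.ne).add (h.integrableOn_pow hn hS hc)).const_mul C
  refine h1.mono' hm ?_
  filter_upwards [ae_restrict_mem hc.measurableSet] with x hx
  exact hC x hx _ (hM x hx) _

/-- `|det A| ≤ n! ‖A‖ ^ n` -/
lemma abs_det_le {n : ℕ} (A : E n →L[ℝ] E n) : |A.det| ≤ (n.factorial : ℝ) * ‖A‖ ^ n := by
  set b := (EuclideanSpace.basisFun (Fin n) ℝ).toBasis
  rw [ContinuousLinearMap.det, ← LinearMap.det_toMatrix b]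
  have := Matrix.det_le (abv := AbsoluteValue.abs) (x := ‖A‖)
    (A := LinearMap.toMatrix b b (A : E n →ₗ[ℝ] E n)) (fun i j => by
      rw [LinearMap.toMatrix_apply]
      have h1 : ‖A (b j)‖ ≤ ‖A‖ := by
        have := A.le_opNorm (b j)
        have hj : ‖b j‖ = 1 := by simp [b]
        rwa [hj, mul_one] at this
      have h2 : |(A (b j)) i| ≤ ‖A (b j)‖ := by
        simpa using PiLp.norm_apply_le (A (b j)) i
      simpa [b] using h2.trans h1)
  simpa using this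

lemma QR.det_nonneg {n : ℕ} {Ω f G K} (h : QR n Ω f G K) :
    ∀ᵐ x ∂(volume.restrict Ω), 0 ≤ (G x).det := by
  filter_upwards [h.dil] with x hx
  have h0 : 0 ≤ K * (G x).det := (pow_nonneg (norm_nonneg _) n).trans hx
  exact nonneg_of_mul_nonneg_right h0 (lt_of_lt_of_le one_pos h.K1)

/-- `a ^ (n - 1) * b ≤ lam * a ^ n + b ^ n / lam ^ (n - 1)` -/
lemma young_pow {n : ℕ} (hn : 1 ≤ n) {a b lam : ℝ} (ha : 0 ≤ a) (hb : 0 ≤ b) (hl : 0 < lam) :
    a ^ (n - 1) * b ≤ lam * a ^ n + b ^ n / lam ^ (n - 1) := by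
  obtain ⟨m, rfl⟩ : ∃ m, n = m + 1 := ⟨n - 1, by omega⟩
  simp only [Nat.add_sub_cancel]
  rcases le_total b (lam * a) with h | h
  · have h1 : a ^ m * b ≤ lam * a ^ (m + 1) := by
      calc a ^ m * b ≤ a ^ m * (lam * a) := mul_le_mul_of_nonneg_left h (pow_nonneg ha _)
        _ = lam * a ^ (m + 1) := by ring
    have : 0 ≤ b ^ (m + 1) / lam ^ m := by positivity
    linarith
  · have h1 : a ^ m * b ≤ b ^ (m + 1) / lam ^ m := by
      rw [le_div_iff₀ (pow_pos hl _)]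
      calc a ^ m * b * lam ^ m = (lam * a) ^ m * b := by ring
        _ ≤ b ^ m * b := mul_le_mul_of_nonneg_right (pow_le_pow_left₀ (by positivity) h _) hb
        _ = b ^ (m + 1) := by ring
    have : 0 ≤ lam * a ^ (m + 1) := by positivity
    linarith

end Pool.Agent.P.MP_05ee19_an
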