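import Pool.Agent.P.MP_05ee19_an.Basic

/-!
A finite measure with vanishing gradient is a multiple of Lebesgue measure; the logarithmic
capacity function.
-/

open MeasureTheory Set Metric Filter Topology
open scoped Convolution

namespace Pool.Agent.P.MP_05ee19_an

namespace ConstP

variable {n : ℕ}

/-- the hypothesis of `S_Const` -/
def Hyp (μ : Measure (E n)) (y : E n) (R : ℝ) : Prop :=
  ∀ φ : E n → ℝ, ContDiff ℝ 1 φ → HasCompactSupport φ → tsupport φ ⊆ ball y R →
    ∀ v : E n, ∫ z, fderiv ℝ φ z v ∂μ = 0

lemma shift_zero {μ : Measure (E n)} {y : E n} {R e : ℝ} (h : Hyp μ y R) {b : E n → ℝ}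
    (hb : ContDiff ℝ 1 b) (hs : ∀ z, e < ‖z‖ → b z = 0) {p : E n} (hp : p ∈ ball y (R - e))
    (v : E n) : ∫ z, fderiv ℝ b (z - p) v ∂μ = 0 := by
  have h1 : ∀ z, z ∉ closedBall p e → b (z - p) = 0 := by
    intro z hz
    rw [mem_closedBall, dist_eq_norm, not_le] at hz
    exact hs _ hz
  have h2 : tsupport (fun z => b (z - p)) ⊆ closedBall p e :=
    closure_minimal (fun z hz => by_contra fun hn => hz (h1 z hn)) isClosed_closedBall
  have h3 : closedBall p e ⊆ ball y R := by
    intro z hz
    rw [mem_closedBall] at hz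
    rw [mem_ball] at hp ⊢
    linarith [dist_triangle z p y]
  have := h (fun z => b (z - p)) (hb.comp (contDiff_id.sub contDiff_const))
    (HasCompactSupport.intro (isCompact_closedBall p e) h1) (h2.trans h3) v
  simpa only [fderiv_comp_sub] using this

lemma shift_const {μ : Measure (E n)} [IsFiniteMeasure μ] {y : E n} {R e : ℝ} (h : Hyp μ y R)
    {b : E n → ℝ} (hb : ContDiff ℝ 1 b) (hs : ∀ z, e < ‖z‖ → b z = 0) {p : E n}
    (hp : p ∈ ball y (R - e)) : ∫ z, b (z - p) ∂μ = ∫ z, b (z - y) ∂μ := by
  have hbc : HasCompactSupport b := HasCompactSupport.intro (isCompact_closedBall 0 e)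
    fun z hz => hs z (by simpa using hz)
  have hdc : Continuous (fderiv ℝ b) := hb.continuous_fderiv one_ne_zero
  obtain ⟨C, hC⟩ := hdc.bounded_above_of_compact_support (hbc.fderiv ℝ)
  obtain ⟨B, hB⟩ := hb.continuous.bounded_above_of_compact_support hbc
  set v : E n := p - y with hv
  have hy : y ∈ ball y (R - e) := mem_ball_self (lt_of_le_of_lt dist_nonneg hp)
  have hder : ∀ t : ℝ, HasDerivAt (fun t : ℝ => ∫ z, b (z - (y + t • v)) ∂μ)
      (∫ z, fderiv ℝ b (z - (y + t • v)) (-v) ∂μ) t := by
    intro t
    refine (hasDerivAt_integral_of_dominated_loc_of_deriv_le (μ := μ) (s := univ)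
      (F := fun (t : ℝ) z => b (z - (y + t • v)))
      (F' := fun (t : ℝ) z => fderiv ℝ b (z - (y + t • v)) (-v))
      (bound := fun _ => C * ‖v‖) univ_mem ?_ ?_ ?_ ?_ (integrable_const _) ?_).2
    · exact Eventually.of_forall fun s =>
        (hb.continuous.comp (continuous_id.sub continuous_const)).aestronglyMeasurable
    · exact Integrable.mono' (integrable_const B)
        (hb.continuous.comp (continuous_id.sub continuous_const)).aestronglyMeasurable
        (Eventually.of_forall fun z => hB _)
    · exact ((hdc.comp (continuous_id.sub continuous_const)).clm_apply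
        continuous_const).aestronglyMeasurable
    · refine Eventually.of_forall fun z s _ => ?_
      refine ((fderiv ℝ b _).le_opNorm _).trans ?_
      rw [norm_neg]
      exact mul_le_mul_of_nonneg_right (hC _) (norm_nonneg _)
    · refine Eventually.of_forall fun z s _ => ?_
      have h1 : HasDerivAt (fun t : ℝ => z - (y + t • v)) (-v) s := by
        simpa using (((hasDerivAt_id s).smul_const v).const_add y).const_sub z
      exact ((hb.differentiable one_ne_zero _).hasFDerivAt).comp_hasDerivAt s h1
  have hcst := constant_of_has_deriv_right_zero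
    (f := fun t : ℝ => ∫ z, b (z - (y + t • v)) ∂μ) (a := 0) (b := 1)
    (fun t _ => (hder t).continuousAt.continuousWithinAt) (fun t ht => by
      have hm : y + t • v ∈ ball y (R - e) :=
        (convex_ball y (R - e)).add_smul_sub_mem hy hp ⟨ht.1, ht.2.le⟩
      have := hder t
      rw [shift_zero h hb hs hm] at this
      exact this.hasDerivWithinAt) 1 ⟨zero_le_one, le_rfl⟩
  simpa [hv] using hcst

lemma fubini {μ : Measure (E n)} [IsFiniteMeasure μ] {y : E n} {R e : ℝ} (h : Hyp μ y R)
    {b : E n → ℝ} (hb : ContDiff ℝ 1 b) (hs : ∀ z, e < ‖z‖ → b z = 0) {φ : E n → ℝ}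
    (hφ : Continuous φ) (hc : HasCompactSupport φ) (hsub : tsupport φ ⊆ ball y (R - e)) :
    ∫ z, (∫ p, b (z - p) * φ p) ∂μ = (∫ z, b (z - y) ∂μ) * ∫ p, φ p := by
  have hbc : HasCompactSupport b := HasCompactSupport.intro (isCompact_closedBall 0 e)
    fun z hz => hs z (by simpa using hz)
  obtain ⟨B, hB⟩ := hb.continuous.bounded_above_of_compact_support hbc
  have hφi : Integrable φ := hφ.integrable_of_hasCompactSupport hc
  have hint : Integrable (Function.uncurry fun z p : E n => b (z - p) * φ p) (μ.prod volume) := by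
    refine Integrable.mono' ((integrable_const (μ := μ) B).mul_prod hφi.norm) ?_ ?_
    · exact ((hb.continuous.comp (continuous_fst.sub continuous_snd)).mul
        (hφ.comp continuous_snd)).aestronglyMeasurable
    · refine Eventually.of_forall fun q => ?_
      simp only [Function.uncurry, norm_mul]
      exact mul_le_mul_of_nonneg_right (hB _) (norm_nonneg _)
  rw [integral_integral_swap hint, ← integral_const_mul]
  refine integral_congr_ae (Eventually.of_forall fun p => ?_)
  simp only
  rw [integral_mul_const]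
  by_cases hp : φ p = 0
  · simp [hp]
  · rw [shift_const h hb hs (hsub (subset_tsupport φ hp))]

/-- bumps of outer radius `1 / (k + 1)` -/
noncomputable def bump (n k : ℕ) : ContDiffBump (0 : E n) :=
  ⟨1 / ((k : ℝ) + 1) / 2, 1 / ((k : ℝ) + 1), by positivity, half_lt_self (by positivity)⟩

lemma bump_tendsto : Tendsto (fun k => (bump n k).rOut) atTop (𝓝 0) :=
  tendsto_one_div_add_atTop_nhds_zero_nat

lemma limit {μ : Measure (E n)} [IsFiniteMeasure μ] {y : E n} {R : ℝ} (h : Hyp μ y R)
    {φ : E n → ℝ} (hφ : Continuous φ) (hc : HasCompactSupport φ) (hsub : tsupport φ ⊆ ball y R) :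
    Tendsto (fun k => (∫ z, (bump n k).normed volume (z - y) ∂μ) * ∫ p, φ p) atTop
      (𝓝 (∫ z, φ z ∂μ)) := by
  obtain ⟨r, hr, hsub'⟩ := exists_lt_subset_ball (isClosed_tsupport φ) hsub
  obtain ⟨B, hB⟩ := hφ.bounded_above_of_compact_support hc
  have h1 : Tendsto (fun k => ∫ z, (∫ p, (bump n k).normed volume (z - p) * φ p) ∂μ) atTop
      (𝓝 (∫ z, φ z ∂μ)) := by
    have hconv : ∀ k z, ∫ p, (bump n k).normed volume (z - p) * φ p
        = ((bump n k).normed volume ⋆[ContinuousLinearMap.lsmul ℝ ℝ, volume] φ) z := by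
      intro k z
      rw [convolution_lsmul_swap]
      rfl
    simp only [hconv]
    refine tendsto_integral_of_dominated_convergence (fun _ => B) (fun k => ?_)
      (integrable_const B) (fun k => Eventually.of_forall fun z => ?_)
      (Eventually.of_forall fun z =>
        ContDiffBump.convolution_tendsto_right_of_continuous bump_tendsto hφ z)
    · exact ((bump n k).hasCompactSupport_normed.continuous_convolution_left _
        (bump n k).continuous_normed hφ.locallyIntegrable).aestronglyMeasurable
    · rw [convolution_lsmul]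
      have hi : Integrable (fun t => (bump n k).normed volume t * B) :=
        (bump n k).integrable_normed.mul_const B
      refine (norm_integral_le_of_norm_le hi (Eventually.of_forall fun t => ?_)).trans ?_
      · rw [norm_smul, Real.norm_of_nonneg ((bump n k).nonneg_normed t)]
        exact mul_le_mul_of_nonneg_left (hB _) ((bump n k).nonneg_normed t)
      · rw [integral_mul_const, (bump n k).integral_normed, one_mul]
  refine h1.congr' ?_
  have hev : ∀ᶠ k in atTop, (bump n k).rOut < R - r :=
    bump_tendsto.eventually (gt_mem_nhds (by linarith))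
  filter_upwards [hev] with k hk
  refine fubini h (e := (bump n k).rOut) (bump n k).contDiff_normed (fun z hz => ?_) hφ hc
    (hsub'.trans (ball_subset_ball (by linarith)))
  have : z ∉ Function.support ((bump n k).normed volume) := by
    rw [(bump n k).support_normed_eq, mem_ball_zero_iff]
    exact not_lt.2 hz.le
  simpa using this

/-- the model function: `0` on the unit ball, `1` outside the ball of radius `2` -/
lemma exists_model (n : ℕ) : ∃ h : E n → ℝ, ContDiff ℝ 1 h ∧ (∀ y, ‖y‖ ≤ 1 → h y = 0) ∧
    (∀ y, 2 ≤ ‖y‖ → h y = 1) ∧ ∀ y, fderiv ℝ h y ≠ 0 → 1 < ‖y‖ ∧ ‖y‖ < 2 := by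
  let b : ContDiffBump (0 : E n) := ⟨1, 2, one_pos, one_lt_two⟩
  have h0 : ∀ y : E n, ‖y‖ ≤ 1 → 1 - b y = 0 := by
    intro y hy
    rw [b.one_of_mem_closedBall (by simpa [b] using hy), sub_self]
  have h1 : ∀ y : E n, 2 ≤ ‖y‖ → 1 - b y = 1 := by
    intro y hy
    rw [b.zero_of_le_dist (by simpa [b] using hy), sub_zero]
  refine ⟨fun y => 1 - b y, contDiff_const.sub b.contDiff, h0, h1, fun y hy => ?_⟩
  constructor
  · by_contra hn
    apply hy
    refine IsLocalMin.fderiv_eq_zero (Eventually.of_forall fun z => ?_)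
    simp only [h0 y (not_lt.1 hn)]
    linarith [b.le_one (x := z)]
  · by_contra hn
    apply hy
    refine IsLocalMax.fderiv_eq_zero (Eventually.of_forall fun z => ?_)
    simp only [h1 y (not_lt.1 hn)]
    linarith [b.nonneg (x := z)]

lemma norm_sum_pow_le {F : Type} [NormedAddCommGroup F] {m : ℕ} (hm : 1 ≤ m) (s : Finset ℕ)
    (u : ℕ → F) (hu : ∀ i j, u i ≠ 0 → u j ≠ 0 → i = j) :
    ‖∑ i ∈ s, u i‖ ^ m ≤ ∑ i ∈ s, ‖u i‖ ^ m := by
  by_cases h : ∃ i ∈ s, u i ≠ 0
  · obtain ⟨i, hi, hne⟩ := h
    rw [Finset.sum_eq_single_of_mem i hi fun j _ hj => by_contra fun hn => hj (hu j i hn hne)]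
    exact Finset.single_le_sum (f := fun i => ‖u i‖ ^ m) (fun j _ => by positivity) hi
  · push Not at h
    rw [Finset.sum_eq_zero h, norm_zero, zero_pow (by omega)]
    exact Finset.sum_nonneg fun j _ => by positivity

end ConstP

open ConstP

theorem const : S_Const := by
  intro n μ _ y R h
  by_cases hex : ∃ φ : E n → ℝ, Continuous φ ∧ HasCompactSupport φ ∧ tsupport φ ⊆ ball y R ∧
      ∫ z, φ z ≠ 0
  · obtain ⟨φ₀, h1, h2, h3, h4⟩ := hex
    have hD : Tendsto (fun k => ∫ z, (bump n k).normed volume (z - y) ∂μ) atTop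
        (𝓝 ((∫ z, φ₀ z ∂μ) / ∫ z, φ₀ z)) := by
      refine ((limit h h1 h2 h3).div_const (∫ z, φ₀ z)).congr fun k => ?_
      rw [mul_div_cancel_right₀ _ h4]
    refine ⟨_, ge_of_tendsto' hD fun k => integral_nonneg fun z => (bump n k).nonneg_normed _,
      fun φ hφ hc hsub => ?_⟩
    exact tendsto_nhds_unique (limit h hφ hc hsub) (hD.mul_const _)
  · push Not at hex
    refine ⟨0, le_rfl, fun φ hφ hc hsub => ?_⟩
    have := limit h hφ hc hsub
    rw [hex φ hφ hc hsub] at this
    simp only [mul_zero] at this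
    rw [zero_mul]
    exact tendsto_nhds_unique this tendsto_const_nhds

theorem cap : S_Cap := by
  intro n hn
  obtain ⟨h, hh, h0, h1, hd⟩ := exists_model n
  have hdc : Continuous (fderiv ℝ h) := hh.continuous_fderiv one_ne_zero
  have hH : Integrable fun y => ‖fderiv ℝ h y‖ ^ n := by
    refine (hdc.norm.pow n).integrable_of_hasCompactSupport
      (HasCompactSupport.intro (isCompact_closedBall 0 2) fun y hy => ?_)
    have : fderiv ℝ h y = 0 := by
      by_contra hne
      exact hy (by simpa using (hd y hne).2.le)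
    change ‖fderiv ℝ h y‖ ^ n = 0
    rw [this, norm_zero, zero_pow (by omega)]
  refine ⟨∫ y, ‖fderiv ℝ h y‖ ^ n, integral_nonneg fun y => by positivity, fun e a k ha => ?_⟩
  set c : ℕ → ℝ := fun i => (2 ^ i * a)⁻¹ with hc
  have hcp : ∀ i, 0 < c i := fun i => by simp only [hc]; positivity
  have hnorm : ∀ i (y : E n), ‖c i • (y - e)‖ = ‖y - e‖ / (2 ^ i * a) := by
    intro i y
    rw [norm_smul, Real.norm_of_nonneg (hcp i).le, div_eq_inv_mul]
  have hterm : ∀ i, ContDiff ℝ 1 fun y : E n => h (c i • (y - e)) := fun i =>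
    hh.comp ((contDiff_id.sub contDiff_const).const_smul (c i))
  have hfd : ∀ i (y : E n), fderiv ℝ (fun y : E n => h (c i • (y - e))) y
      = c i • fderiv ℝ h (c i • (y - e)) := by
    intro i y
    rw [fderiv_comp_sub (f := fun z : E n => h (c i • z)), fderiv_comp_smul]
  have hsum : ∀ y : E n, fderiv ℝ (fun y : E n => ∑ i ∈ Finset.range k, h (c i • (y - e))) y
      = ∑ i ∈ Finset.range k, c i • fderiv ℝ h (c i • (y - e)) := by
    intro y
    rw [fderiv_fun_sum fun i _ => (hterm i).differentiable one_ne_zero y]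
    exact Finset.sum_congr rfl fun i _ => hfd i y
  have hann : ∀ i (y : E n), c i • fderiv ℝ h (c i • (y - e)) ≠ 0 →
      2 ^ i * a < ‖y - e‖ ∧ ‖y - e‖ < 2 ^ (i + 1) * a := by
    intro i y hne
    have hpos : (0 : ℝ) < 2 ^ i * a := by positivity
    obtain ⟨a1, a2⟩ := hd _ (right_ne_zero_of_smul hne)
    rw [hnorm, one_lt_div hpos] at a1
    rw [hnorm, div_lt_iff₀ hpos] at a2
    exact ⟨a1, by rw [pow_succ]; linarith⟩
  have hmono : ∀ i j : ℕ, i ≤ j → (2 : ℝ) ^ i * a ≤ 2 ^ j * a := fun i j hij =>
    mul_le_mul_of_nonneg_right (pow_le_pow_right₀ one_le_two hij) ha.le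
  refine ⟨fun y => ∑ i ∈ Finset.range k, h (c i • (y - e)),
    ContDiff.sum fun i _ => hterm i, fun y hy => ?_, fun y hy => ?_, ?_, ?_⟩
  · refine (Finset.sum_eq_zero fun i _ => h0 _ ?_).le
    rw [hnorm, div_le_one (by positivity)]
    have := hmono 0 i (Nat.zero_le i)
    simp only [pow_zero, one_mul] at this
    linarith
  · have : ∀ i ∈ Finset.range k, h (c i • (y - e)) = 1 := by
      intro i hi
      apply h1
      rw [hnorm, le_div_iff₀ (by positivity)]
      have := hmono (i + 1) k (Finset.mem_range.1 hi)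
      rw [pow_succ] at this
      linarith
    simp only
    rw [Finset.sum_congr rfl this]
    simp
  · refine closure_minimal (fun y hy => ?_) isClosed_closedBall
    rw [Function.mem_support, hsum] at hy
    obtain ⟨i, hi, hne⟩ := Finset.exists_ne_zero_of_sum_ne_zero hy
    rw [mem_closedBall, dist_eq_norm]
    exact (hann i y hne).2.le.trans (hmono (i + 1) k (Finset.mem_range.1 hi))
  · have hint : ∀ i, Integrable fun y : E n => ‖c i • fderiv ℝ h (c i • (y - e))‖ ^ n := by
      intro i
      simp only [norm_smul, mul_pow]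
      exact (((hH.comp_smul (hcp i).ne').comp_sub_right e).const_mul _)
    have hval : ∀ i, ∫ y : E n, ‖c i • fderiv ℝ h (c i • (y - e))‖ ^ n
        = ∫ y, ‖fderiv ℝ h y‖ ^ n := by
      intro i
      simp only [norm_smul, mul_pow]
      rw [integral_const_mul,
        integral_sub_right_eq_self (fun y : E n => ‖fderiv ℝ h (c i • y)‖ ^ n) e,
        Measure.integral_comp_smul volume (fun y : E n => ‖fderiv ℝ h y‖ ^ n) (c i),
        finrank_euclideanSpace_fin, Real.norm_of_nonneg (hcp i).le,
        abs_of_nonneg (by have := hcp i; positivity), smul_eq_mul, ← mul_assoc,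
        mul_inv_cancel₀ (by have := hcp i; positivity), one_mul]
    calc ∫ y, ‖fderiv ℝ (fun y : E n => ∑ i ∈ Finset.range k, h (c i • (y - e))) y‖ ^ n
        ≤ ∫ y : E n, ∑ i ∈ Finset.range k, ‖c i • fderiv ℝ h (c i • (y - e))‖ ^ n := by
          refine integral_mono_of_nonneg (Eventually.of_forall fun y => by positivity)
            (integrable_finsetSum _ fun i _ => hint i) (Eventually.of_forall fun y => ?_)
          simp only [hsum]
          refine norm_sum_pow_le hn _ _ fun i j hi hj => ?_
          obtain ⟨a1, a2⟩ := hann i y hi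
          obtain ⟨b1, b2⟩ := hann j y hj
          rcases lt_trichotomy i j with hij | hij | hij
          · linarith [hmono (i + 1) j hij]
          · exact hij
          · linarith [hmono (j + 1) i hij]
      _ = _ := by
          rw [integral_finsetSum _ fun i _ => hint i]
          simp only [hval, Finset.sum_const, Finset.card_range, nsmul_eq_mul]
          ring

end Pool.Agent.P.MP_05ee19_an
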