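import Pool.Agent.P.MP_05ee19_an.Basic

/-!
The covering definition of the Nagata dimension is equivalent to the coloured form.
-/

open Set Metric

namespace Pool.Agent.P.MP_05ee19_an

namespace ConvP

/-- an increasing chain of `d + 2` nonempty sets inside a set with at most `d + 1` elements
has two equal consecutive members -/
lemma exists_stable {α : Type} (T : ℕ → Set α) (d : ℕ) (hm : ∀ j, T j ⊆ T (j + 1))
    (h0 : (T 0).Nonempty) (hd : (T (d + 1)).encard ≤ d + 1) : ∃ j ≤ d, T j = T (j + 1) := by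
  by_contra hne
  push Not at hne
  have hmono : Monotone T := monotone_nat_of_le_succ hm
  have hfin : ∀ j ≤ d + 1, (T j).Finite := fun j hj =>
    (finite_of_encard_le_coe (k := d + 1) (by exact_mod_cast hd)).subset (hmono hj)
  have key : ∀ j ≤ d + 1, ((j + 1 : ℕ) : ℕ∞) ≤ (T j).encard := by
    intro j
    induction j with
    | zero => intro _; simpa using one_le_encard_iff_nonempty.2 h0
    | succ j ih =>
      intro hj
      have h1 := ih (by omega)
      have h2 : (T j).encard < (T (j + 1)).encard :=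
        (hfin j (by omega)).encard_lt_encard ⟨hm j, fun h => hne j (by omega) (Subset.antisymm (hm j) h)⟩
      have h3 : (T j).encard + 1 ≤ (T (j + 1)).encard := Order.add_one_le_of_lt h2
      calc ((j + 1 + 1 : ℕ) : ℕ∞) = ((j + 1 : ℕ) : ℕ∞) + 1 := by push_cast; ring
        _ ≤ (T j).encard + 1 := by gcongr
        _ ≤ _ := h3
  have := (key (d + 1) le_rfl).trans hd
  have h4 : d + 1 + 1 ≤ d + 1 := by exact_mod_cast this
  omega

lemma col_of_nagata (Z : Type) [MetricSpace Z] (A : Set Z) (d : ℕ) (h : NagataLE A d) :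
    Col (fun x y : Z => dist x y) A d := by
  classical
  obtain ⟨c, hc, h⟩ := h
  refine ⟨(c + 1) * (2 * (d + 1)), by positivity, fun s hs => ?_⟩
  obtain ⟨𝒰, hcov, hdiam, hmult⟩ := h (2 * (d + 1) * s) (by positivity)
  let T : Z → ℕ → Set (Set A) := fun x j => {U ∈ 𝒰 | ∃ u ∈ U, dist x (u : Z) ≤ j * s}
  have hTm : ∀ x j, T x j ⊆ T x (j + 1) := by
    rintro x j U ⟨hU, u, hu, hd⟩
    exact ⟨hU, u, hu, hd.trans (by push_cast; linarith)⟩
  have hT0 : ∀ x ∈ A, (T x 0).Nonempty := by
    intro x hx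
    have : (⟨x, hx⟩ : A) ∈ ⋃₀ 𝒰 := hcov ▸ mem_univ _
    obtain ⟨U, hU, hxU⟩ := this
    exact ⟨U, hU, ⟨x, hx⟩, hxU, by simp⟩
  have hTd : ∀ x, (T x (d + 1)).encard ≤ d + 1 := by
    intro x
    have h1 := hmult {u : A | dist x (u : Z) ≤ ((d + 1 : ℕ) : ℝ) * s} (by
      refine ediam_le fun u hu v hv => ?_
      rw [edist_dist]
      refine ENNReal.ofReal_le_ofReal ?_
      have := dist_triangle_left (u : Z) (v : Z) x
      simp only [mem_ofPred_eq] at hu hv
      push_cast at hu hv
      rw [Subtype.dist_eq]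
      linarith)
    refine le_trans (encard_le_encard ?_) h1
    rintro U ⟨hU, u, hu, hd⟩
    exact ⟨hU, u, hu, hd⟩
  have hex : ∀ x, ∃ j : Fin (d + 1), x ∈ A → T x j = T x (j + 1) := by
    intro x
    by_cases hx : x ∈ A
    · obtain ⟨j, hj, e⟩ := exists_stable (T x) d (hTm x) (hT0 x hx) (hTd x)
      exact ⟨⟨j, by omega⟩, fun _ => e⟩
    · exact ⟨0, fun h => (hx h).elim⟩
  choose χ hχ using hex
  refine ⟨χ, fun x hx y hxy => ?_⟩
  have hshift : ∀ a b j, dist a b ≤ s → T a j ⊆ T b (j + 1) := by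
    rintro a b j hab U ⟨hU, u, hu, hd⟩
    refine ⟨hU, u, hu, ?_⟩
    have := dist_triangle b a (u : Z)
    rw [dist_comm b a] at this
    push_cast; linarith
  have hconst : T x (χ x) = T y (χ x) := by
    induction hxy with
    | refl => rfl
    | @tail a b hxa hab ih =>
      have hc1 : χ x = χ a := (chain_mem hx hxa).2
      have hc2 : χ a = χ b := hab.2.2.1
      have hd : dist a b ≤ s := hab.2.2.2
      rw [ih]
      apply Subset.antisymm
      · have := hshift a b (χ x) hd
        rwa [hc1, hc2, ← hχ b hab.2.1, ← hc2, ← hc1] at this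
      · have := hshift b a (χ x) (by rwa [dist_comm])
        rwa [hc1, ← hχ a hab.1, ← hc1] at this
  obtain ⟨U, hU⟩ := hT0 x hx
  have hU1 : U ∈ T x (χ x) := (monotone_nat_of_le_succ (hTm x) (Nat.zero_le _)) hU
  have hU2 : U ∈ T y (χ x) := hconst ▸ hU1
  obtain ⟨hU𝒰, u, hu, hxu⟩ := hU1
  obtain ⟨-, v, hv, hyv⟩ := hU2
  have huv : dist (u : Z) (v : Z) ≤ c * (2 * (d + 1) * s) := by
    have := (edist_le_ediam_of_mem hu hv).trans (hdiam U hU𝒰)
    rw [edist_dist] at this
    exact (ENNReal.ofReal_le_ofReal_iff (by positivity)).1 this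
  have hj : ((χ x : ℕ) : ℝ) * s ≤ (d + 1) * s := by
    have : ((χ x : ℕ) : ℝ) ≤ d + 1 := by exact_mod_cast (χ x).2.le
    exact mul_le_mul_of_nonneg_right this hs.le
  have := dist_triangle4 x (u : Z) (v : Z) y
  rw [dist_comm (v : Z) y] at this
  show dist x y ≤ _
  nlinarith

lemma nagata_of_col (Z : Type) [MetricSpace Z] (A : Set Z) (d : ℕ)
    (h : Col (fun x y : Z => dist x y) A d) : NagataLE A d := by
  classical
  obtain ⟨c, hc, h⟩ := h
  refine ⟨c, hc, fun s hs => ?_⟩
  obtain ⟨χ, hχ⟩ := h s hs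
  set R := Step (fun x y : Z => dist x y) A χ (fun _ => s) with hR
  have hsymm : ∀ a b, R a b → R b a := fun a b h =>
    ⟨h.2.1, h.1, h.2.2.1.symm, by have := h.2.2.2; simpa [dist_comm] using this⟩
  have hsymm' : ∀ a b, Relation.ReflTransGen R a b → Relation.ReflTransGen R b a := by
    intro a b h
    induction h with
    | refl => exact .refl
    | tail _ hbc ih => exact .head (hsymm _ _ hbc) ih
  let cl : A → Set A := fun x => {y | Relation.ReflTransGen R x y}
  have hcl : ∀ x y : A, Relation.ReflTransGen R x y → cl x = cl y := by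
    intro x y hxy
    ext z
    exact ⟨fun h => (hsymm' _ _ hxy).trans h, fun h => hxy.trans h⟩
  refine ⟨range cl, ?_, ?_, ?_⟩
  · refine eq_univ_of_forall fun x => ⟨cl x, mem_range_self x, Relation.ReflTransGen.refl⟩
  · rintro _ ⟨x, rfl⟩
    refine ediam_le fun u hu v hv => ?_
    rw [edist_dist]
    exact ENNReal.ofReal_le_ofReal (hχ u u.2 v ((hsymm' _ _ hu).trans hv))
  · intro S hS
    have hsel : ∀ U : Set A, ∃ j : Fin (d + 1), U ∈ {U ∈ range cl | (U ∩ S).Nonempty} →
        ∃ p ∈ S, U = cl p ∧ χ p = j := by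
      intro U
      by_cases hU : U ∈ {U ∈ range cl | (U ∩ S).Nonempty}
      · obtain ⟨⟨x, rfl⟩, p, hp, hpS⟩ := hU
        exact ⟨χ p, fun _ => ⟨p, hpS, hcl x p hp, rfl⟩⟩
      · exact ⟨0, fun h => (hU h).elim⟩
    choose g hg using hsel
    have hinj : InjOn g {U ∈ range cl | (U ∩ S).Nonempty} := by
      intro U hU V hV hUV
      obtain ⟨p, hp, rfl, e1⟩ := hg U hU
      obtain ⟨q, hq, rfl, e2⟩ := hg V hV
      refine hcl p q (.single ⟨p.2, q.2, by rw [e1, e2, hUV], ?_⟩)
      have := (edist_le_ediam_of_mem hp hq).trans hS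
      rw [edist_dist] at this
      exact (ENNReal.ofReal_le_ofReal_iff hs.le).1 this
    rw [← hinj.encard_image]
    refine (encard_le_encard (subset_univ _)).trans ?_
    rw [encard_univ, ENat.card_eq_coe_fintype_card]
    simp

end ConvP

theorem conv : S_Conv := fun Z _ A d => ⟨ConvP.col_of_nagata Z A d, ConvP.nagata_of_col Z A d⟩

end Pool.Agent.P.MP_05ee19_an
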