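import Pool.Agent.P.MP_05ee19_an.Basic

/-!
Branched-cover lemma for colourings (package 4 of MP_05ee19_an).
-/

open Set Metric

namespace Pool.Agent.P.MP_05ee19_an

namespace CoverP

/-- cube colouring of Euclidean space: nearby points of the same parity have the same centre -/
lemma cube (n : ℕ) : ∃ (ctr : ℝ → E n → E n) (par : ℝ → E n → (Fin n → ZMod 2)),
    ∀ T : ℝ, 0 < T → (∀ y, dist (ctr T y) y ≤ n * T) ∧
      ∀ y y', dist y y' < T → par T y = par T y' → ctr T y = ctr T y' := by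
  refine ⟨fun T y => WithLp.toLp 2 (fun i => T * (⌊y i / T⌋ : ℝ)),
    fun T y i => ((⌊y i / T⌋ : ℤ) : ZMod 2), fun T hT => ⟨fun y => ?_, fun y y' hd hp => ?_⟩⟩
  · have hi : ∀ i, dist (T * (⌊y i / T⌋ : ℝ)) (y i) ≤ T := by
      intro i
      have h1 := Int.floor_le (y i / T)
      have h2 := Int.lt_floor_add_one (y i / T)
      rw [le_div_iff₀ hT] at h1
      rw [div_lt_iff₀ hT] at h2
      rw [Real.dist_eq, abs_le]
      constructor <;> nlinarith
    rw [EuclideanSpace.dist_eq]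
    apply Real.sqrt_le_iff.mpr
    refine ⟨by positivity, ?_⟩
    calc ∑ i, dist ((WithLp.toLp 2 (fun i => T * (⌊y i / T⌋ : ℝ)) : E n) i) (y i) ^ 2
        ≤ ∑ _i : Fin n, T ^ 2 := Finset.sum_le_sum fun i _ =>
          pow_le_pow_left₀ dist_nonneg (hi i) 2
      _ = n * T ^ 2 := by simp
      _ ≤ (n * T) ^ 2 := by
          have : (n : ℝ) ≤ (n : ℝ) ^ 2 := by exact_mod_cast Nat.le_self_pow (by norm_num) n
          nlinarith [sq_nonneg T]
  · have hi : ∀ i, ⌊y i / T⌋ = ⌊y' i / T⌋ := by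
      intro i
      have hd' : |y i - y' i| < T := by
        rw [← Real.dist_eq]
        exact (PiLp.dist_apply_le y y' i).trans_lt hd
      rw [abs_lt] at hd'
      have h1 := Int.floor_le (y i / T)
      have h2 := Int.lt_floor_add_one (y i / T)
      have h3 := Int.floor_le (y' i / T)
      have h4 := Int.lt_floor_add_one (y' i / T)
      rw [le_div_iff₀ hT] at h1 h3
      rw [div_lt_iff₀ hT] at h2 h4
      have h5 : ((⌊y i / T⌋ : ℤ) : ℝ) < (⌊y' i / T⌋ : ℤ) + 2 := by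
        by_contra hc
        push Not at hc
        nlinarith
      have h6 : ((⌊y' i / T⌋ : ℤ) : ℝ) < (⌊y i / T⌋ : ℤ) + 2 := by
        by_contra hc
        push Not at hc
        nlinarith
      have h5' : ⌊y i / T⌋ < ⌊y' i / T⌋ + 2 := by exact_mod_cast h5
      have h6' : ⌊y' i / T⌋ < ⌊y i / T⌋ + 2 := by exact_mod_cast h6
      have h7 := congrFun hp i
      have h8 : (2 : ℤ) ∣ ⌊y' i / T⌋ - ⌊y i / T⌋ := by
        have := (ZMod.intCast_eq_intCast_iff_dvd_sub _ _ 2).mp h7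
        exact_mod_cast this
      omega
    simp only [hi]

/-- numbering of the sheets -/
lemma sheet {Z : Type} {n : ℕ} {π : Z → E n} {Z₀ : Set Z} {N : ℕ}
    (h : ∀ y : E n, (Z₀ ∩ π ⁻¹' {y}).encard ≤ N) :
    ∃ sh : Z → Fin (N + 1), ∀ z ∈ Z₀, ∀ z' ∈ Z₀, π z = π z' → sh z = sh z' → z = z' := by
  have h1 : ∀ y : E n, ∃ f : Z → Fin (N + 1), InjOn f (Z₀ ∩ π ⁻¹' {y}) := by
    intro y
    have hfin : (Z₀ ∩ π ⁻¹' {y}).Finite := finite_of_encard_le_coe (h y)
    have hle : (Z₀ ∩ π ⁻¹' {y}).encard ≤ (univ : Set (Fin (N + 1))).encard := by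
      refine (h y).trans ?_
      rw [encard_univ]
      simp
    obtain ⟨f, -, hf⟩ := hfin.exists_injOn_of_encard_le hle
    exact ⟨f, hf⟩
  choose f hf using h1
  refine ⟨fun z => f (π z) z, fun z hz z' hz' e hs => ?_⟩
  simp only at hs
  rw [← e] at hs
  exact hf (π z) ⟨hz, rfl⟩ ⟨hz', e.symm⟩ hs

lemma decode {Q j j' q q' : ℕ} (hq : q < Q) (hq' : q' < Q)
    (h : j * (Q + 1) + q = j' * (Q + 1) + q') : j = j' ∧ q = q' := by
  have h1 : (j * (Q + 1) + q) / (Q + 1) = j := by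
    rw [Nat.add_comm, Nat.add_mul_div_right _ _ (by omega), Nat.div_eq_of_lt (by omega)]; simp
  have h2 : (j' * (Q + 1) + q') / (Q + 1) = j' := by
    rw [Nat.add_comm, Nat.add_mul_div_right _ _ (by omega), Nat.div_eq_of_lt (by omega)]; simp
  have e : j = j' := by rw [← h1, ← h2, h]
  subst e
  exact ⟨rfl, by omega⟩

/-- a decomposition of `A` into boundedly many pieces on which `π` is injective at scale -/
lemma pieces {Z : Type} {n : ℕ} {δ : Z → Z → ℝ} (hδ : PM δ) {π : Z → E n} {A Z₀ : Set Z}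
    {t₀ D₀ : ℝ} {N : ℕ} (hB : Branch δ π A Z₀ t₀ D₀ N) :
    ∃ M : ℕ, ∀ μ : ℝ, 4 * (n : ℝ) + 8 ≤ μ → ∀ s : ℝ, 0 < s → (n + 2) * (μ ^ M * s) ≤ t₀ →
      ∃ piece : Z → ℕ, (∀ x ∈ A, piece x < M) ∧ ∀ x ∈ A, ∀ x' ∈ A, piece x = piece x' →
        dist (π x) (π x') ≤ μ ^ piece x * s → δ x x' ≤ 5 * (μ ^ piece x * s) := by
  classical
  obtain ⟨ctr, par, hcube⟩ := cube n
  obtain ⟨sh, hsh⟩ := sheet hB.mult
  set Q := Fintype.card ((Fin n → ZMod 2) × Fin (N + 1)) with hQ
  set code := Fintype.equivFin ((Fin n → ZMod 2) × Fin (N + 1)) with hcode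
  refine ⟨(N + 1) * (Q + 1), fun μ hμ s hs hst => ?_⟩
  have hn : (0 : ℝ) ≤ n := Nat.cast_nonneg n
  have hμ1 : 1 < μ := by linarith
  set u : ℕ → ℝ := fun p => μ ^ p * s with hu
  have hu0 : ∀ p, 0 < u p := fun p => by simp only [hu]; positivity
  have hum : StrictMono u := fun a b hab =>
    mul_lt_mul_of_pos_right (pow_lt_pow_right₀ hμ1 hab) hs
  have hτ : Monotone (fun j => u (j * (Q + 1))) := fun a b hab =>
    hum.monotone (Nat.mul_le_mul_right _ hab)
  choose J hJN hJ using fun x => exists_gap (hB.mult (π x)) (δ x) _ hτ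
  set T : Z → ℝ := fun x => u (J x * (Q + 1) + Q) with hT
  have hidx : ∀ x q, q ≤ Q → J x * (Q + 1) + q < (N + 1) * (Q + 1) := by
    intro x q hq
    have := Nat.mul_le_mul_right (Q + 1) (hJN x)
    nlinarith
  have huM : (n + 2) * u ((N + 1) * (Q + 1)) ≤ t₀ := hst
  have hlift : ∀ x ∈ A, ∃ z ∈ Z₀, π z = ctr (T x) (π x) ∧ δ x z ≤ 2 * ((n + 1) * T x) := by
    intro x hx
    have hT0 : 0 < T x := hu0 _
    refine hB.lift x hx _ _ ?_ ?_
    · have h1 : T x ≤ u ((N + 1) * (Q + 1)) := (hum (hidx x Q le_rfl)).le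
      nlinarith
    · have := (hcube (T x) hT0).1 (π x)
      nlinarith
  choose z hz0 hzπ hzδ using hlift
  refine ⟨fun x => if hx : x ∈ A then
      J x * (Q + 1) + (code (par (T x) (π x), sh (z x hx)) : ℕ) else 0, fun x hx => ?_,
    fun x hx x' hx' hp hd => ?_⟩
  · simp only [dif_pos hx]
    exact hidx x _ (code _).2.le
  · simp only [dif_pos hx, dif_pos hx'] at hp hd ⊢
    obtain ⟨hj, hq⟩ := decode (code _).2 (code _).2 hp
    have hq' := code.injective (Fin.ext hq)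
    have hTT : T x = T x' := by simp only [hT, hj]
    rw [← hTT] at hq'
    obtain ⟨hpar, hsheet⟩ := Prod.mk.inj hq'
    set q : ℕ := (code (par (T x) (π x), sh (z x hx)) : ℕ) with hqdef
    have hqQ : q < Q := (code _).2
    change dist (π x) (π x') ≤ u (J x * (Q + 1) + q) at hd
    change δ x x' ≤ 5 * u (J x * (Q + 1) + q)
    have hT0 : 0 < T x := hu0 _
    have huT : u (J x * (Q + 1) + q) < T x := hum (by omega)
    have hc : ctr (T x) (π x) = ctr (T x) (π x') := (hcube _ hT0).2 _ _ (hd.trans_lt huT) hpar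
    have hzz : z x hx = z x' hx' := by
      refine hsh _ (hz0 x hx) _ (hz0 x' hx') ?_ hsheet
      rw [hzπ, hzπ, ← hTT, hc]
    have h1 : δ x x' ≤ 4 * ((n + 1) * T x) := by
      have a1 := hδ.tri x (z x hx) x'
      have a2 := hzδ x hx
      have a3 := hzδ x' hx'
      rw [← hzz, ← hTT, hδ.symm] at a3
      linarith
    have hp0 := hu0 (J x * (Q + 1) + q)
    obtain ⟨w, hw0, hwπ, hwδ⟩ := hB.lift x' hx' (π x) (2 * u (J x * (Q + 1) + q)) (by
      have h1 : u (J x * (Q + 1) + q) ≤ u ((N + 1) * (Q + 1)) := (hum (hidx x q hqQ.le)).le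
      nlinarith) (by linarith)
    have h2 : δ x w ≤ u ((J x + 1) * (Q + 1)) := by
      have a1 := hδ.tri x x' w
      have a2 : u ((J x + 1) * (Q + 1)) = μ * T x := by
        simp only [hT, hu]
        rw [show (J x + 1) * (Q + 1) = (J x * (Q + 1) + Q) + 1 by ring, pow_succ]
        ring
      rw [a2]
      nlinarith
    have h3 : δ x w ≤ u (J x * (Q + 1)) := by
      rcases hJ x w ⟨hw0, hwπ⟩ with h | h
      · exact h
      · exact absurd h2 (not_le.mpr h)
    have h4 : u (J x * (Q + 1)) ≤ u (J x * (Q + 1) + q) := hum.monotone (by omega)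
    have a1 := hδ.tri x w x'
    rw [hδ.symm w x'] at a1
    linarith

end CoverP

theorem coverA : S_CoverA := by
  intro Z n δ hδ π A Z₀ t₀ D₀ N hB d ⟨c, hc, hcol⟩
  have ht₀ := hB.tpos
  refine ⟨|D₀| * (c + 1) / t₀ + ((N + 1) * (4 * (c + 1) + 1) + 2 * (c + 1)), by positivity,
    fun s hs => ?_⟩
  obtain ⟨χ, hχ⟩ := hcol s hs
  have hA1 : 0 ≤ |D₀| * (c + 1) / t₀ * s := by positivity
  have hA2 : 0 ≤ ((N + 1) * (4 * (c + 1) + 1) + 2 * (c + 1)) * s := by positivity
  refine ⟨fun x => χ (π x), ?_⟩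
  rcases lt_or_ge t₀ ((c + 1) * s) with hst | hst
  · refine good_of_bdd _ _ fun x hx y hy => ?_
    have h1 := (hB.bdd x hx y hy).trans (le_abs_self D₀)
    have h2 : |D₀| ≤ |D₀| * (c + 1) / t₀ * s := by
      rw [div_mul_eq_mul_div, le_div_iff₀ ht₀, mul_assoc]
      exact mul_le_mul_of_nonneg_left hst.le (abs_nonneg _)
    rw [add_mul]
    linarith
  · intro x hx y hxy
    set t := (c + 1) * s with ht
    have ht0 : 0 < t := by positivity
    set a := 4 * t + s with ha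
    have ha0 : 0 < a := by positivity
    obtain ⟨j, hjN, hj⟩ := exists_gap (hB.mult (π x)) (δ x) (fun j => ((j : ℝ) + 1) * a)
      (fun i k hik => mul_le_mul_of_nonneg_right
        (by have : (i : ℝ) ≤ k := by exact_mod_cast hik
            linarith) ha0.le)
    have key : Relation.ReflTransGen
        (Step (fun x y : E n => dist x y) (π '' A) χ (fun _ => s)) (π x) (π y) ∧
        ∃ z ∈ Z₀ ∩ π ⁻¹' {π x}, δ y z ≤ 2 * t ∧ δ x z ≤ ((j : ℝ) + 1) * a := by
      induction hxy with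
      | refl =>
        refine ⟨.refl, x, ⟨hB.sub hx, rfl⟩, ?_, ?_⟩
        · rw [hδ.refl]; positivity
        · rw [hδ.refl]; positivity
      | @tail y y' _ hyy ih =>
        obtain ⟨hch, z, hzF, hyz, hxz⟩ := ih
        obtain ⟨hy, hy', hcol, hd⟩ := hyy
        have hch' : Relation.ReflTransGen
            (Step (fun x y : E n => dist x y) (π '' A) χ (fun _ => s)) (π x) (π y') :=
          hch.tail ⟨mem_image_of_mem π hy, mem_image_of_mem π hy', hcol,
            (hB.lip y (hB.sub hy) y' (hB.sub hy')).trans hd⟩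
        have hdist : dist (π x) (π y') ≤ c * s := hχ _ (mem_image_of_mem π hx) _ hch'
        obtain ⟨z', hz'0, hz'π, hz'δ⟩ := hB.lift y' hy' (π x) t hst (by
          rw [ht]; nlinarith)
        refine ⟨hch', z', ⟨hz'0, hz'π⟩, hz'δ, ?_⟩
        rcases hj z' ⟨hz'0, hz'π⟩ with h | h
        · exact h
        · exfalso
          have a1 := hδ.tri x z z'
          have a2 := hδ.tri z y z'
          have a3 := hδ.tri y y' z'
          rw [hδ.symm z y] at a2
          have hd' : δ y y' ≤ s := hd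
          push_cast at h
          nlinarith
    obtain ⟨-, z, -, hyz, hxz⟩ := key
    have a1 := hδ.tri x z y
    rw [hδ.symm z y] at a1
    have hjN' : (j : ℝ) ≤ N := by exact_mod_cast hjN
    have a2 : ((j : ℝ) + 1) * a ≤ ((N : ℝ) + 1) * a :=
      mul_le_mul_of_nonneg_right (by linarith) ha0.le
    have a3 : ((N : ℝ) + 1) * a + 2 * t = ((N + 1) * (4 * (c + 1) + 1) + 2 * (c + 1)) * s := by
      rw [ha, ht]; ring
    show δ x y ≤ _
    rw [add_mul]
    linarith

theorem coverB (h : S_Multi) : S_CoverB := by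
  intro Z n δ hδ π A Z₀ t₀ D₀ N hB d ⟨c, hc, hcol⟩
  rcases A.eq_empty_or_nonempty with rfl | ⟨x₀, hx₀⟩
  · rw [image_empty]; exact col_empty _ _
  have : Nonempty Z := ⟨x₀⟩
  have ht₀ := hB.tpos
  obtain ⟨M, hM⟩ := CoverP.pieces hδ hB
  have hn : (0 : ℝ) ≤ n := Nat.cast_nonneg n
  set μ : ℝ := 5 * c + 4 * n + 8 with hμ
  have hμ1 : 1 ≤ μ := by linarith
  have hμ0 : 0 < μ := by linarith
  refine ⟨(5 * c + 2) * μ ^ M + |D₀| * ((n + 2) * μ ^ M) / t₀, by positivity, fun s hs => ?_⟩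
  have hA1 : 0 ≤ (5 * c + 2) * μ ^ M * s := by positivity
  have hA2 : 0 ≤ |D₀| * ((n + 2) * μ ^ M) / t₀ * s := by positivity
  rcases lt_or_ge t₀ ((n + 2) * (μ ^ M * s)) with hst | hst
  · refine ⟨fun _ => 0, good_of_bdd _ _ ?_⟩
    rintro _ ⟨x, hx, rfl⟩ _ ⟨y, hy, rfl⟩
    have h1 := ((hB.lip x (hB.sub hx) y (hB.sub hy)).trans (hB.bdd x hx y hy)).trans
      (le_abs_self D₀)
    have h2 : |D₀| ≤ |D₀| * ((n + 2) * μ ^ M) / t₀ * s := by
      rw [div_mul_eq_mul_div, le_div_iff₀ ht₀, mul_assoc, mul_assoc]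
      exact mul_le_mul_of_nonneg_left hst.le (abs_nonneg _)
    rw [add_mul]
    linarith
  obtain ⟨piece, hpM, hp⟩ := hM μ (by linarith) s hs hst
  have hsec : ∀ y ∈ π '' A, ∃ x ∈ A, π x = y := fun y hy => hy
  choose! sec hsecA hsecπ using hsec
  have hu0 : ∀ p : ℕ, 0 < 5 * (μ ^ p * s) := fun p => by positivity
  choose χ hχ using fun p : ℕ => hcol _ (hu0 p)
  obtain ⟨χ', hχ'⟩ := h (E n) (Fin (d + 1)) _ (pm_dist (E n)) M
    (fun p => {y ∈ π '' A | piece (sec y) = p}) (fun p y => χ p (sec y)) (fun p => μ ^ p * s)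
    (5 * c) s (by positivity) hs
    (fun p => le_mul_of_one_le_left hs.le (one_le_pow₀ hμ1))
    (fun p => by
      have : 0 < μ ^ p * s := by positivity
      show (5 * c + 4) * (μ ^ p * s) ≤ μ ^ (p + 1) * s
      rw [pow_succ]
      nlinarith)
    (fun p _ y hy y' hyy => by
      have key : Relation.ReflTransGen
          (Step δ A (χ p) (fun _ => 5 * (μ ^ p * s))) (sec y) (sec y') := by
        induction hyy with
        | refl => exact .refl
        | @tail a b _ hab ih =>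
          obtain ⟨⟨ha, hap⟩, ⟨hb, hbp⟩, hcol, hd⟩ := hab
          refine ih.tail ⟨hsecA a ha, hsecA b hb, hcol, ?_⟩
          have := hp _ (hsecA a ha) _ (hsecA b hb) (hap.trans hbp.symm)
          rw [hap, hsecπ a ha, hsecπ b hb] at this
          exact this hd
      have hy' := (chain_mem hy hyy).1
      have h1 := hχ p _ (hsecA y hy.1) _ key
      have h2 := hB.lip _ (hB.sub (hsecA y hy.1)) _ (hB.sub (hsecA y' hy'.1))
      rw [hsecπ y hy.1, hsecπ y' hy'.1] at h2
      show dist y y' ≤ 5 * c * (μ ^ p * s)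
      have h1' : δ (sec y) (sec y') ≤ c * (5 * (μ ^ p * s)) := h1
      linarith)
  refine ⟨χ', hχ'.mono (fun y hy => ⟨piece (sec y), hpM _ (hsecA y hy), hy, rfl⟩)
    (fun _ _ => le_rfl) (fun _ _ => ?_)⟩
  show (5 * c + 2) * (μ ^ M * s) ≤ _
  rw [add_mul, ← mul_assoc]
  linarith

end Pool.Agent.P.MP_05ee19_an
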