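import Mathlib

/-!
Definitions used in the statement of the result on MP_05ee19_an
(Nagata dimension and quasiregular maps).
-/

open MeasureTheory
open scoped ContDiff

namespace Pool.Agent.P.MP_05ee19_an

/-- Euclidean space `ℝⁿ`. -/
abbrev E (n : ℕ) := EuclideanSpace ℝ (Fin n)

/-- `G` is a weak (distributional) derivative of `f` on `Ω`: integration by parts holds against
every smooth test function with compact support in `Ω`. -/
def HasWeakFDerivOn {n : ℕ} (Ω : Set (E n)) (f : E n → E n) (G : E n → E n →L[ℝ] E n) : Prop :=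
  ∀ φ : E n → ℝ, ContDiff ℝ ∞ φ → HasCompactSupport φ → tsupport φ ⊆ Ω →
    ∀ v : E n, ∫ x in Ω, fderiv ℝ φ x v • f x = -∫ x in Ω, φ x • G x v

/-- `f` is quasiregular on `Ω`: continuous, of class `W^{1,n}_loc` with weak derivative `G`, and
`|G x|^n ≤ K det (G x)` almost everywhere (operator norm) for some `K ≥ 1`. -/
def IsQuasiregular {n : ℕ} (Ω : Set (E n)) (f : E n → E n) : Prop :=
  ContinuousOn f Ω ∧ ∃ (G : E n → E n →L[ℝ] E n) (K : ℝ), 1 ≤ K ∧ HasWeakFDerivOn Ω f G ∧
    (∀ S ⊆ Ω, IsCompact S → MemLp f n (volume.restrict S) ∧ MemLp G n (volume.restrict S)) ∧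
    ∀ᵐ x ∂(volume.restrict Ω), ‖G x‖ ^ n ≤ K * (G x).det

/-- The condition with parameter `d` in the definition of the Nagata dimension: there is `c > 0`
such that for every `s > 0` the space has a cover by sets of diameter at most `c s` such that
every subset of diameter at most `s` meets at most `d + 1` members of the cover. -/
def NagataLE (X : Type*) [MetricSpace X] (d : ℕ) : Prop :=
  ∃ c : ℝ, 0 < c ∧ ∀ s : ℝ, 0 < s → ∃ 𝒰 : Set (Set X), ⋃₀ 𝒰 = Set.univ ∧
    (∀ U ∈ 𝒰, Metric.ediam U ≤ ENNReal.ofReal (c * s)) ∧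
    ∀ S : Set X, Metric.ediam S ≤ ENNReal.ofReal s →
      {U ∈ 𝒰 | (U ∩ S).Nonempty}.encard ≤ d + 1

/-- The Nagata dimension: the least `d` with `NagataLE X d`, and `⊤` if there is none. -/
noncomputable def nagataDim (X : Type*) [MetricSpace X] : ℕ∞ :=
  ⨅ (d : ℕ) (_ : NagataLE X d), (d : ℕ∞)

end Pool.Agent.P.MP_05ee19_an
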