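import Pool.Agent.P.MP_05ee19_an.Basic

/-!
The degree identity and local surjectivity.
-/

open MeasureTheory Set Metric Filter Topology

namespace Pool.Agent.P.MP_05ee19_an

namespace DegP

lemma int_det {n : ℕ} (hn : 1 ≤ n) {Ω f G K} (h : QR n Ω f G K) {S : Set (E n)}
    (hS : S ⊆ Ω) (hc : IsCompact S) {φ : E n → ℝ} (hφ : Continuous φ) :
    IntegrableOn (fun x => φ (f x) * (G x).det) S := by
  refine h.integrableOn hn hS hc (Φ := fun z => φ z.2.1 * z.2.2.det)
    ((hφ.comp (continuous_fst.comp continuous_snd)).mul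
      (ContinuousLinearMap.continuous_det.comp (continuous_snd.comp continuous_snd))) ?_
  intro M
  obtain ⟨B, hB⟩ := (isCompact_closedBall (0 : E n) M).exists_bound_of_continuousOn
    hφ.continuousOn
  refine ⟨max B 0 * n.factorial, fun x _ y hy A => ?_⟩
  have h1 : |φ y| ≤ max B 0 :=
    (hB y (by simpa using hy)).trans (le_max_left _ _)
  have h2 := abs_det_le A
  have h3 : (0 : ℝ) ≤ n.factorial := Nat.cast_nonneg _
  have h4 : (0 : ℝ) ≤ max B 0 := le_max_right _ _
  simp only [abs_mul]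
  calc |φ y| * |A.det| ≤ max B 0 * (n.factorial * ‖A‖ ^ n) :=
        mul_le_mul h1 h2 (abs_nonneg _) h4
    _ ≤ max B 0 * n.factorial * (1 + ‖A‖ ^ n) := by
        rw [mul_assoc]
        exact mul_le_mul_of_nonneg_left (mul_le_mul_of_nonneg_left (by linarith) h3) h4

lemma mem_of_far {n : ℕ} {Ω : Set (E n)} {f : E n → E n} {U : Set (E n)} {y : E n} {R : ℝ}
    (hA : Adm Ω f U y R) {x : E n} (hx : x ∈ closure U) (hfx : f x ∈ ball y R) : x ∈ U := by
  by_contra hxU
  have : x ∈ frontier U := by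
    rw [hA.op.frontier_eq]
    exact ⟨hx, hxU⟩
  exact absurd (hA.far x this) (not_le.mpr hfx)

lemma null_zero (h1 : S_Null) {n : ℕ} (hn : 1 ≤ n) {Ω f G K} (h : QR n Ω f G K)
    {U : Set (E n)} {y : E n} {R : ℝ} (hA : Adm Ω f U y R) {φ : E n → ℝ} (hφ : ContDiff ℝ 1 φ)
    (hs : tsupport φ ⊆ ball y R) (v : E n) :
    ∫ x in U, fderiv ℝ φ (f x) v * (G x).det = 0 := by
  obtain ⟨C, _, hC⟩ := h1 n hn
  have hK1c : IsClosed (closure U ∩ f ⁻¹' tsupport φ) :=
    (h.cont.mono hA.sub).preimage_isClosed_of_isClosed isClosed_closure (isClosed_tsupport φ)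
  have hK1 : IsCompact (closure U ∩ f ⁻¹' tsupport φ) :=
    hA.cpt.of_isClosed_subset hK1c inter_subset_left
  have hK1U : closure U ∩ f ⁻¹' tsupport φ ⊆ U := fun x hx => mem_of_far hA hx.1 (hs hx.2)
  obtain ⟨t, ht, hKt, htU⟩ := exists_compact_between hK1 hA.op hK1U
  obtain ⟨η, hη1, hη0, -⟩ := exists_contMDiffMap_one_nhds_of_subset_interior
    (modelWithCornersSelf ℝ (E n)) (n := 1) hK1c hKt
  have hηs : tsupport η ⊆ closure U := by
    refine (closure_minimal (fun x hx => ?_) ht.isClosed).trans (htU.trans subset_closure)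
    by_contra hxt
    exact hx (hη0 x hxt)
  have hηn : ∀ x ∈ closure U ∩ f ⁻¹' tsupport φ, (η : E n → ℝ) =ᶠ[𝓝 x] fun _ => 1 :=
    fun x hx => hη1.filter_mono (nhds_le_nhdsSet hx)
  have key := hC Ω f G K h (closure U) hA.sub hA.cpt η φ v η.contMDiff.contDiff hηs hφ
  have hR : ∫ x in closure U, |φ (f x)| * ‖fderiv ℝ η x‖ * ‖G x‖ ^ (n - 1) = 0 := by
    refine setIntegral_eq_zero_of_forall_eq_zero fun x hx => ?_
    by_cases hfx : f x ∈ tsupport φ
    · rw [(hηn x ⟨hx, hfx⟩).fderiv_eq]
      simp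
    · rw [image_eq_zero_of_notMem_tsupport hfx]
      simp
  have hL : ∫ x in closure U, η x * fderiv ℝ φ (f x) v * (G x).det =
      ∫ x in U, fderiv ℝ φ (f x) v * (G x).det := by
    rw [setIntegral_congr_fun isClosed_closure.measurableSet
      (g := U.indicator fun x => fderiv ℝ φ (f x) v * (G x).det),
      setIntegral_indicator hA.op.measurableSet, inter_eq_right.mpr subset_closure]
    intro x hx
    by_cases hfx : f x ∈ tsupport φ
    · rw [indicator_of_mem (hK1U ⟨hx, hfx⟩)]
      simp only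
      rw [(hηn x ⟨hx, hfx⟩).eq_of_nhds, one_mul]
    · have h0 : fderiv ℝ φ (f x) = 0 := fderiv_of_notMem_tsupport ℝ hfx
      by_cases hxU : x ∈ U
      · rw [indicator_of_mem hxU]
        simp [h0]
      · rw [indicator_of_notMem hxU]
        simp [h0]
  rw [hR, hL, mul_zero] at key
  exact abs_nonpos_iff.mp key

end DegP

open DegP

theorem deg (h1 : S_Null) (h2 : S_Const) : S_Deg := by
  intro n hn Ω f G K h U y R hA
  have hUΩ : U ⊆ Ω := subset_closure.trans hA.sub
  have hJ : IntegrableOn (fun x => (G x).det) U := by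
    have := int_det hn h hA.sub hA.cpt (φ := fun _ => (1 : ℝ)) continuous_const
    simp only [one_mul] at this
    exact this.mono_set subset_closure
  have hJ0 : ∀ᵐ x ∂(volume.restrict U), 0 ≤ (G x).det :=
    ae_restrict_of_ae_restrict_of_subset hUΩ h.det_nonneg
  have hfm : AEMeasurable f (volume.restrict U) :=
    (h.cont.mono hUΩ).aemeasurable hA.op.measurableSet
  set ν := (volume.restrict U).withDensity fun x => ENNReal.ofReal (G x).det with hν
  have hνf : IsFiniteMeasure ν := isFiniteMeasure_withDensity_ofReal hJ.2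
  have hfm' : AEMeasurable f ν := hfm.mono_ac (withDensity_absolutelyContinuous _ _)
  have hform : ∀ φ : E n → ℝ, Continuous φ →
      ∫ z, φ z ∂(ν.map f) = ∫ x in U, φ (f x) * (G x).det := by
    intro φ hφ
    rw [integral_map hfm' hφ.aestronglyMeasurable, hν,
      integral_withDensity_eq_integral_toReal_smul₀ hJ.aemeasurable.ennreal_ofReal
        (ae_of_all _ fun _ => ENNReal.ofReal_lt_top)]
    refine integral_congr_ae ?_
    filter_upwards [hJ0] with x hx
    rw [ENNReal.toReal_ofReal hx, smul_eq_mul, mul_comm]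
  obtain ⟨D, hD, hDφ⟩ := h2 n (ν.map f) y R (fun φ hφ _ hs v => by
    rw [hform (fun z => fderiv ℝ φ z v)
      ((hφ.continuous_fderiv one_ne_zero).clm_apply continuous_const)]
    exact null_zero h1 hn h hA hφ hs v)
  exact ⟨D, hD, fun φ hφ hc hs => by rw [← hform φ hφ, hDφ φ hφ hc hs]⟩

namespace DegP

/-- vanishing energy forces `f` to be constant on a ball -/
lemma const_of_zero (h2 : S_Loew) {n : ℕ} (hn : 1 ≤ n) {Ω f G K} (h : QR n Ω f G K) {x : E n}
    {r : ℝ} (hr : 0 < r) (hB : closedBall x (2 * r) ⊆ Ω)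
    (hG : ∀ᵐ z ∂(volume.restrict (closedBall x (2 * r))), ‖G z‖ ^ n = 0)
    {p q : E n} (hp : p ∈ ball x r) (hq : q ∈ ball x r) : f p = f q := by
  by_contra hne
  set w := f q - f p with hw
  have hw0 : 0 < ‖w‖ := norm_pos_iff.mpr (sub_ne_zero.mpr (Ne.symm hne))
  set ψ : E n → ℝ := fun z => inner ℝ w z with hψ
  have hψc : ContDiff ℝ 1 ψ := contDiff_const.inner ℝ contDiff_id
  set M := ‖w‖ ^ 2 / 3 with hM
  have hM0 : 0 < M := by positivity
  have hdiff : ψ (f q) = ψ (f p) + 3 * M := by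
    have : inner ℝ w (f q) - inner ℝ w (f p) = ‖w‖ ^ 2 := by
      rw [← inner_sub_right, ← hw, real_inner_self_eq_norm_sq]
    simp only [hψ, hM]
    linarith
  have hsub : ball x r ⊆ Ω :=
    (ball_subset_closedBall.trans (closedBall_subset_closedBall (by linarith))).trans hB
  have hcont : ∀ z ∈ ball x r, ContinuousAt (fun z => ψ (f z)) z := fun z hz =>
    hψc.continuous.continuousAt.comp (h.cont.continuousAt (h.op.mem_nhds (hsub hz)))
  have e1 : ∀ᶠ z in 𝓝 p, z ∈ ball x r ∧ ψ (f z) < ψ (f p) + M :=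
    (isOpen_ball.eventually_mem hp).and
      ((hcont p hp).eventually (gt_mem_nhds (by linarith)))
  have e2 : ∀ᶠ z in 𝓝 q, z ∈ ball x r ∧ ψ (f q) - M < ψ (f z) :=
    (isOpen_ball.eventually_mem hq).and
      ((hcont q hq).eventually (lt_mem_nhds (by linarith)))
  obtain ⟨s₁, hs₁, H1⟩ := nhds_basis_closedBall.eventually_iff.mp e1
  obtain ⟨s₂, hs₂, H2⟩ := nhds_basis_closedBall.eventually_iff.mp e2
  set s := min s₁ s₂ with hs
  have hs0 : 0 < s := lt_min hs₁ hs₂
  obtain ⟨C, _, hC⟩ := h2 n hn (s / r) (div_pos hs0 hr)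
  have hth : s / r * r = s := div_mul_cancel₀ s hr.ne'
  have key := hC Ω f G K h ψ hψc x r hr hB (closedBall p s₁) (closedBall q s₂)
    (fun z hz => ball_subset_closedBall (H1 hz).1) (fun z hz => ball_subset_closedBall (H2 hz).1)
    (by rw [hth]; exact (thick_closedBall hn p s₁).mono subset_rfl (min_le_left _ _))
    (by rw [hth]; exact (thick_closedBall hn q s₂).mono subset_rfl (min_le_right _ _))
    (ψ (f p) + M) M hM0.le (fun z hz => (H1 hz).2.le)
    (fun z hz => by have := (H2 hz).2; linarith)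
  have h0 : ∫ z in closedBall x (2 * r), ‖fderiv ℝ ψ (f z)‖ ^ n * ‖G z‖ ^ n = 0 := by
    refine integral_eq_zero_of_ae ?_
    filter_upwards [hG] with z hz
    simp [hz]
  rw [h0, mul_zero] at key
  exact absurd key (not_le.mpr (pow_pos hM0 n))

end DegP

theorem surj (h1 : S_Deg) (h2 : S_Loew) : S_Surj := by
  intro n hn Ω f G K h hL U y R hA x hx hfx
  have hUΩ : U ⊆ Ω := subset_closure.trans hA.sub
  obtain ⟨D, hD, hDφ⟩ := h1 n hn Ω f G K h U y R hA
  have hDpos : 0 < D := by
    refine lt_of_le_of_ne hD fun hD0 => ?_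
    obtain ⟨ρ, hρ, hρs⟩ := nhds_basis_closedBall.mem_iff.mp (isOpen_ball.mem_nhds hfx)
    let c : ContDiffBump (f x) := ⟨ρ / 2, ρ, by linarith, by linarith⟩
    have hz := hDφ c c.continuous c.hasCompactSupport (by rw [c.tsupport_eq]; exact hρs)
    rw [← hD0, zero_mul] at hz
    have hJ0 : ∀ᵐ x ∂(volume.restrict U), 0 ≤ (G x).det :=
      ae_restrict_of_ae_restrict_of_subset hUΩ h.det_nonneg
    have hae := (setIntegral_eq_zero_iff_of_nonneg_ae
      (by filter_upwards [hJ0] with z hz using mul_nonneg c.nonneg hz)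
      ((int_det hn h hA.sub hA.cpt c.continuous).mono_set subset_closure)).mp hz
    have e1 : ∀ᶠ z in 𝓝 x, z ∈ U ∧ f z ∈ closedBall (f x) (ρ / 2) :=
      (hA.op.eventually_mem hx).and
        ((h.cont.continuousAt (h.op.mem_nhds (hUΩ hx))).eventually
          (closedBall_mem_nhds _ (by linarith)))
    obtain ⟨r₂, hr₂, H⟩ := nhds_basis_closedBall.eventually_iff.mp e1
    have hr : 0 < r₂ / 2 := by linarith
    have e2 : 2 * (r₂ / 2) = r₂ := by ring
    have hBU : closedBall x (2 * (r₂ / 2)) ⊆ U := by rw [e2]; exact fun z hz => (H hz).1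
    have hG : ∀ᵐ z ∂(volume.restrict (closedBall x (2 * (r₂ / 2)))), ‖G z‖ ^ n = 0 := by
      filter_upwards [ae_restrict_of_ae_restrict_of_subset hBU hae,
        ae_restrict_of_ae_restrict_of_subset (hBU.trans hUΩ) h.dil,
        ae_restrict_mem isClosed_closedBall.measurableSet] with z hz1 hz2 hz3
      rw [e2] at hz3
      have hc1 : c (f z) = 1 := c.one_of_mem_closedBall (H hz3).2
      simp only [hc1, one_mul, Pi.zero_apply] at hz1
      rw [hz1, mul_zero] at hz2
      exact le_antisymm hz2 (pow_nonneg (norm_nonneg _) n)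
    have hsub := hL (ball x (r₂ / 2))
      ((ball_subset_closedBall.trans (closedBall_subset_closedBall (by linarith))).trans
        (hBU.trans hUΩ))
      (convex_ball x _).isPreconnected
      (fun p hp q hq => const_of_zero h2 hn h hr (hBU.trans hUΩ) hG hp hq)
    obtain ⟨v, hv⟩ := exists_unit hn
    have hmem : x + (r₂ / 4) • v ∈ ball x (r₂ / 2) := by
      rw [mem_ball, dist_eq_norm, add_sub_cancel_left, norm_smul, hv,
        Real.norm_of_nonneg (by linarith)]
      linarith
    have := hsub hmem (mem_ball_self hr)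
    have h0 : (r₂ / 4) • v = 0 := by simpa using this
    have h00 := congrArg norm h0
    rw [norm_smul, hv, Real.norm_of_nonneg (by linarith), norm_zero] at h00
    linarith
  intro y' hy'
  by_contra hne
  have hcl : IsClosed (f '' closure U) :=
    (hA.cpt.image_of_continuousOn (h.cont.mono hA.sub)).isClosed
  have hy'' : y' ∈ (f '' closure U)ᶜ ∩ ball y R := by
    refine ⟨?_, hy'⟩
    rintro ⟨z, hz, rfl⟩
    exact hne ⟨z, mem_of_far hA hz hy', rfl⟩
  obtain ⟨ρ, hρ, hρs⟩ := nhds_basis_closedBall.mem_iff.mp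
    ((hcl.isOpen_compl.inter isOpen_ball).mem_nhds hy'')
  let c : ContDiffBump y' := ⟨ρ / 2, ρ, by linarith, by linarith⟩
  have hz := hDφ c c.continuous c.hasCompactSupport
    (by rw [c.tsupport_eq]; exact hρs.trans inter_subset_right)
  have h0 : ∫ x in U, c (f x) * (G x).det = 0 := by
    refine setIntegral_eq_zero_of_forall_eq_zero fun z hzU => ?_
    have : f z ∉ tsupport c := by
      rw [c.tsupport_eq]
      exact fun hh => (hρs hh).1 ⟨z, subset_closure hzU, rfl⟩
    rw [image_eq_zero_of_notMem_tsupport this, zero_mul]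
  rw [h0] at hz
  exact absurd hz (mul_pos hDpos c.integral_pos).ne

end Pool.Agent.P.MP_05ee19_an
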