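import Pool.Agent.P.MP_05ee19_an.Basic

/-!
The log-log vector field and potential used for lightness (MP_05ee19_an, package 9, first half).
-/

open MeasureTheory Set Metric Filter Topology

namespace Pool.Agent.P.MP_05ee19_an

namespace FieldP

/-- `T s = 1 + log (1 + 1 / s)` -/
noncomputable def T (s : ℝ) : ℝ := 1 + Real.log (1 + s⁻¹)

/-- `gg s = 1 / (√s T s)` -/
noncomputable def gg (s : ℝ) : ℝ := (Real.sqrt s * T s)⁻¹

lemma one_le_T {s : ℝ} (hs : 0 < s) : 1 ≤ T s := by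
  have : 0 ≤ Real.log (1 + s⁻¹) := Real.log_nonneg (by have := inv_pos.mpr hs; linarith)
  unfold T; linarith

lemma T_pos {s : ℝ} (hs : 0 < s) : 0 < T s := lt_of_lt_of_le one_pos (one_le_T hs)

lemma gg_pos {s : ℝ} (hs : 0 < s) : 0 < gg s :=
  inv_pos.mpr (mul_pos (Real.sqrt_pos.mpr hs) (T_pos hs))

lemma T_anti {s t : ℝ} (hs : 0 < s) (hst : s ≤ t) : T t ≤ T s := by
  have ht : 0 < t := hs.trans_le hst
  have h1 : t⁻¹ ≤ s⁻¹ := inv_anti₀ hs hst
  have h2 : 0 < 1 + t⁻¹ := by have := inv_pos.mpr ht; linarith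
  have := Real.log_le_log h2 (by linarith : 1 + t⁻¹ ≤ 1 + s⁻¹)
  unfold T; linarith

lemma hasDerivAt_T {s : ℝ} (hs : 0 < s) : HasDerivAt T (-(s * (1 + s))⁻¹) s := by
  have h0 : (1 + s⁻¹) ≠ 0 := by have := inv_pos.mpr hs; linarith
  have h1 : HasDerivAt (fun t : ℝ => 1 + t⁻¹) (-(s ^ 2)⁻¹) s :=
    (hasDerivAt_inv hs.ne').const_add 1
  have h2 : HasDerivAt T _ s := (h1.log h0).const_add 1
  refine h2.congr_deriv ?_
  have : 1 + s ≠ 0 := by linarith
  field_simp
  ring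

lemma hasDerivAt_gg {s : ℝ} (hs : 0 < s) :
    HasDerivAt gg (gg s * (-(2 * s)⁻¹ + (s * (1 + s) * T s)⁻¹)) s := by
  have hq : 0 < Real.sqrt s := Real.sqrt_pos.mpr hs
  have hT := T_pos hs
  have h1 : HasDerivAt (fun t => Real.sqrt t * T t)
      (1 / (2 * Real.sqrt s) * T s + Real.sqrt s * (-(s * (1 + s))⁻¹)) s :=
    (Real.hasDerivAt_sqrt hs.ne').mul (hasDerivAt_T hs)
  have h2 : HasDerivAt gg _ s := h1.inv (mul_pos hq hT).ne'
  refine h2.congr_deriv ?_
  unfold gg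
  have h3 : 1 + s ≠ 0 := by linarith
  obtain ⟨q, hq', hqs⟩ : ∃ q : ℝ, Real.sqrt s = q ∧ s = q ^ 2 :=
    ⟨_, rfl, (Real.sq_sqrt hs.le).symm⟩
  rw [hq'] at hq ⊢
  generalize T s = t at hT ⊢
  subst hqs
  field_simp
  ring

/-- the radial coefficient of the field -/
noncomputable def AA (n : ℕ) (s : ℝ) : ℝ := gg s ^ n * T s

lemma hasDerivAt_AA (n : ℕ) {s : ℝ} (hs : 0 < s) :
    HasDerivAt (AA n)
      (gg s ^ n * (-(n * T s) / (2 * s) + ((n : ℝ) - 1) / (s * (1 + s)))) s := by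
  have hT := T_pos hs
  have hg := gg_pos hs
  have h1 : HasDerivAt (AA n) _ s := ((hasDerivAt_gg hs).pow n).mul (hasDerivAt_T hs)
  refine h1.congr_deriv ?_
  have h3 : 1 + s ≠ 0 := by linarith
  rcases n with _ | m
  · simp
    field_simp
  · simp only [Nat.add_sub_cancel, Pi.pow_apply]
    push_cast
    field_simp
    ring

variable {n : ℕ}

/-- the regularised squared distance -/
noncomputable def sg (b : E n) (e : ℝ) (y : E n) : ℝ := e + ‖y - b‖ ^ 2

lemma sg_pos (b : E n) {e : ℝ} (he : 0 < e) (y : E n) : 0 < sg b e y := by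
  unfold sg; positivity

lemma contDiff_sg (b : E n) (e : ℝ) : ContDiff ℝ 1 (sg b e) :=
  contDiff_const.add ((contDiff_id.sub contDiff_const).norm_sq ℝ)

lemma hasFDerivAt_sg (b : E n) (e : ℝ) (y : E n) :
    HasFDerivAt (sg b e) (2 • innerSL ℝ (y - b)) y := by
  have h1 : HasFDerivAt (fun y : E n => y - b) (ContinuousLinearMap.id ℝ (E n)) y :=
    (hasFDerivAt_id y).sub_const b
  have h2 : HasFDerivAt (sg b e) _ y := h1.norm_sq.const_add e
  simpa using h2

lemma contDiff_T (b : E n) {e : ℝ} (he : 0 < e) : ContDiff ℝ 1 (fun y => T (sg b e y)) := by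
  unfold T
  refine contDiff_const.add (ContDiff.log (contDiff_const.add ((contDiff_sg b e).inv
    fun y => (sg_pos b he y).ne')) fun y => ?_)
  have := inv_pos.mpr (sg_pos b he y)
  linarith

lemma contDiff_gg (b : E n) {e : ℝ} (he : 0 < e) : ContDiff ℝ 1 (fun y => gg (sg b e y)) := by
  unfold gg
  exact (((contDiff_sg b e).sqrt fun y => (sg_pos b he y).ne').mul (contDiff_T b he)).inv
    fun y => (mul_pos (Real.sqrt_pos.mpr (sg_pos b he y)) (T_pos (sg_pos b he y))).ne'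

lemma contDiff_AA (b : E n) {e : ℝ} (he : 0 < e) (k : ℕ) :
    ContDiff ℝ 1 (fun y => AA k (sg b e y)) :=
  ((contDiff_gg b he).pow k).mul (contDiff_T b he)

lemma norm_le_sqrt (b : E n) {e : ℝ} (he : 0 < e) (y : E n) :
    ‖y - b‖ ≤ Real.sqrt (sg b e y) :=
  Real.le_sqrt_of_sq_le (by unfold sg; linarith)

/-- the components of the field -/
noncomputable def WW (b : E n) (e : ℝ) (i : Fin n) (y : E n) : ℝ :=
  (y - b) i * AA n (sg b e y)

lemma hasFDerivAt_coord (b : E n) (i : Fin n) (y : E n) :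
    HasFDerivAt (fun y : E n => (y - b) i) (EuclideanSpace.proj i : E n →L[ℝ] ℝ) y := by
  have h1 : HasFDerivAt (fun y : E n => y - b) (ContinuousLinearMap.id ℝ (E n)) y :=
    (hasFDerivAt_id y).sub_const b
  have h2 : HasFDerivAt (fun y : E n => (y - b) i) _ y :=
    (EuclideanSpace.proj i : E n →L[ℝ] ℝ).hasFDerivAt.comp y h1
  rwa [ContinuousLinearMap.comp_id] at h2

lemma contDiff_WW (b : E n) {e : ℝ} (he : 0 < e) (i : Fin n) : ContDiff ℝ 1 (WW b e i) := by
  have h1 : ContDiff ℝ 1 (fun y : E n => (y - b) i) :=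
    (EuclideanSpace.proj i : E n →L[ℝ] ℝ).contDiff.comp (contDiff_id.sub contDiff_const)
  exact h1.mul (contDiff_AA b he n)

lemma fderiv_WW (b : E n) {e : ℝ} (he : 0 < e) (i : Fin n) (y : E n) :
    fderiv ℝ (WW b e i) y (EuclideanSpace.single i (1 : ℝ)) =
      AA n (sg b e y) + 2 * ((y - b) i) ^ 2 * (gg (sg b e y) ^ n *
        (-(n * T (sg b e y)) / (2 * sg b e y) + ((n : ℝ) - 1) / (sg b e y * (1 + sg b e y)))) := by
  have h1 := (hasDerivAt_AA n (sg_pos b he y)).comp_hasFDerivAt y (hasFDerivAt_sg b e y)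
  have h2 := (hasFDerivAt_coord b i y).mul h1
  have h3 : HasFDerivAt (WW b e i) _ y := h2
  rw [h3.fderiv]
  simp [EuclideanSpace.inner_single_right]
  ring

lemma div_WW (hn : 2 ≤ n) (b : E n) {e : ℝ} (he : 0 < e) (y : E n) :
    gg (sg b e y) ^ n / (1 + sg b e y) ≤
      ∑ i, fderiv ℝ (WW b e i) y (EuclideanSpace.single i (1 : ℝ)) := by
  simp only [fderiv_WW b he]
  rw [Finset.sum_add_distrib, ← Finset.sum_mul, ← Finset.mul_sum, ← EuclideanSpace.real_norm_sq_eq]
  simp only [Finset.sum_const, Finset.card_univ, Fintype.card_fin, nsmul_eq_mul]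
  have hs := sg_pos b he y
  have hT := one_le_T hs
  have hg : 0 < gg (sg b e y) ^ n := pow_pos (gg_pos hs) n
  have hq : ‖y - b‖ ^ 2 = sg b e y - e := by unfold sg; ring
  have hq0 : 0 ≤ sg b e y - e := hq ▸ sq_nonneg _
  have hn' : (2 : ℝ) ≤ n := by exact_mod_cast hn
  rw [hq]
  unfold AA
  generalize gg (sg b e y) ^ n = γ at hg ⊢
  generalize T (sg b e y) = t at hT ⊢
  generalize sg b e y = s at hs hq0 ⊢
  generalize (n : ℝ) = N at hn' ⊢
  have h1 : N * (γ * t) + 2 * (s - e) * (γ * (-(N * t) / (2 * s) + (N - 1) / (s * (1 + s)))) =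
      γ * ((N * t * e * (1 + s) + 2 * (N - 1) * (s - e)) / (s * (1 + s))) := by
    field_simp
    ring
  have h2 : γ / (1 + s) = γ * (s / (s * (1 + s))) := by
    field_simp
  rw [h1, h2]
  refine mul_le_mul_of_nonneg_left (div_le_div_of_nonneg_right ?_ (by positivity)) hg.le
  have h3 : 1 ≤ N * t := by nlinarith
  have h4 : e ≤ N * t * e * (1 + s) := by
    have : 1 ≤ N * t * (1 + s) := by nlinarith
    nlinarith
  nlinarith

lemma abs_WW_le (hn : 1 ≤ n) (b : E n) {e : ℝ} (he : 0 < e) (i : Fin n) (y : E n) :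
    |WW b e i y| ≤ gg (sg b e y) ^ (n - 1) := by
  have hs := sg_pos b he y
  have hT := T_pos hs
  have hg := gg_pos hs
  have h1 : |(y - b) i| ≤ Real.sqrt (sg b e y) :=
    le_trans (by simpa using PiLp.norm_apply_le (y - b) i) (norm_le_sqrt b he y)
  have h2 : Real.sqrt (sg b e y) * T (sg b e y) * gg (sg b e y) = 1 :=
    mul_inv_cancel₀ (mul_pos (Real.sqrt_pos.mpr hs) hT).ne'
  obtain ⟨m, hm⟩ : ∃ m, n = m + 1 := ⟨n - 1, by omega⟩
  have h3 : AA n (sg b e y) = gg (sg b e y) ^ (n - 1) * (gg (sg b e y) * T (sg b e y)) := by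
    unfold AA
    have : n - 1 = m := by omega
    rw [this]
    conv_lhs => rw [show gg (sg b e y) ^ n = gg (sg b e y) ^ (m + 1) by rw [← hm]]
    ring
  unfold WW
  rw [abs_mul, h3, abs_of_pos (by positivity : 0 < gg (sg b e y) ^ (n - 1) * _)]
  calc _ ≤ Real.sqrt (sg b e y) * (gg (sg b e y) ^ (n - 1) * (gg (sg b e y) * T (sg b e y))) :=
        mul_le_mul_of_nonneg_right h1 (by positivity)
    _ = gg (sg b e y) ^ (n - 1) * (Real.sqrt (sg b e y) * T (sg b e y) * gg (sg b e y)) := by ring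
    _ = _ := by rw [h2, mul_one]

/-- the potential -/
noncomputable def ps (b : E n) (e : ℝ) (y : E n) : ℝ := 1 / 2 * Real.log (T (sg b e y))

lemma contDiff_ps (b : E n) {e : ℝ} (he : 0 < e) : ContDiff ℝ 1 (ps b e) :=
  contDiff_const.mul ((contDiff_T b he).log fun y => (T_pos (sg_pos b he y)).ne')

lemma norm_fderiv_ps (b : E n) {e : ℝ} (he : 0 < e) (y : E n) :
    ‖fderiv ℝ (ps b e) y‖ ≤ gg (sg b e y) := by
  have hs := sg_pos b he y
  have hT := T_pos hs
  have h0 := (((hasDerivAt_T hs).log hT.ne').const_mul (1 / 2 : ℝ)).comp_hasFDerivAt y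
    (hasFDerivAt_sg b e y)
  have h1 : HasFDerivAt (ps b e) _ y := h0
  rw [h1.fderiv, norm_smul, two_nsmul]
  have h2 : ‖innerSL ℝ (y - b) + innerSL ℝ (y - b)‖ ≤ 2 * Real.sqrt (sg b e y) := by
    refine (norm_add_le _ _).trans ?_
    rw [innerSL_apply_norm]
    have := norm_le_sqrt b he y
    linarith
  have h3 : ‖1 / 2 * (-(sg b e y * (1 + sg b e y))⁻¹ / T (sg b e y))‖ ≤
      1 / 2 * (sg b e y * T (sg b e y))⁻¹ := by
    rw [Real.norm_eq_abs, abs_mul, abs_of_pos (by positivity : (0 : ℝ) < 1 / 2), abs_div, abs_neg,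
      abs_of_pos hT, abs_of_pos (by positivity), div_eq_mul_inv _ (T _), ← mul_inv]
    refine mul_le_mul_of_nonneg_left (inv_anti₀ (by positivity) ?_) (by norm_num)
    refine mul_le_mul_of_nonneg_right ?_ hT.le
    nlinarith
  refine (mul_le_mul h3 h2 (norm_nonneg _) (by positivity)).trans (le_of_eq ?_)
  unfold gg
  have hq : 0 < Real.sqrt (sg b e y) := Real.sqrt_pos.mpr hs
  obtain ⟨q, hq', hqs⟩ : ∃ q : ℝ, Real.sqrt (sg b e y) = q ∧ sg b e y = q ^ 2 :=
    ⟨_, rfl, (Real.sq_sqrt hs.le).symm⟩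
  rw [hq'] at hq ⊢
  generalize T (sg b e y) = t at hT ⊢
  rw [hqs]
  field_simp

end FieldP

open FieldP in
theorem field : S_Field := by
  intro n hn b M₀
  refine ⟨1 / (2 + M₀ ^ 2), by positivity, fun m B hm => ?_⟩
  set a : ℝ := 1 / 2 * Real.log (T (m ^ 2)) with ha
  set e : ℝ := (Real.exp (Real.exp (2 * (a + B))))⁻¹ with he
  have he0 : 0 < e := inv_pos.mpr (Real.exp_pos _)
  have he1 : e ≤ 1 := inv_le_one_of_one_le₀ (Real.one_le_exp (Real.exp_pos _).le)
  refine ⟨WW b e, fun y => gg (sg b e y), ps b e, a, contDiff_WW b he0,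
    (contDiff_gg b he0).continuous, contDiff_ps b he0, fun y => (gg_pos (sg_pos b he0 y)).le,
    abs_WW_le (by omega) b he0, norm_fderiv_ps b he0, fun y hy => ?_, fun y hy => ?_, ?_⟩
  · refine le_trans ?_ (div_WW hn b he0 y)
    have hs := sg_pos b he0 y
    have hg : 0 < gg (sg b e y) ^ n := pow_pos (gg_pos hs) n
    have h1 : ‖y - b‖ ^ 2 ≤ M₀ ^ 2 := pow_le_pow_left₀ (norm_nonneg _) hy 2
    have h2 : 1 + sg b e y ≤ 2 + M₀ ^ 2 := by unfold sg; linarith
    rw [one_div_mul_eq_div]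
    exact div_le_div_of_nonneg_left hg.le (by linarith) h2
  · have h1 : m ^ 2 ≤ ‖y - b‖ ^ 2 := pow_le_pow_left₀ hm.le hy 2
    have h2 : m ^ 2 ≤ sg b e y := by unfold sg; linarith
    have h3 := T_anti (by positivity) h2
    have h4 := Real.log_le_log (T_pos (sg_pos b he0 y)) h3
    unfold ps
    linarith
  · have h1 : sg b e b = e := by simp [sg]
    have h2 : Real.exp (2 * (a + B)) ≤ T e := by
      unfold T
      have h3 : Real.log (Real.exp (Real.exp (2 * (a + B)))) ≤ Real.log (1 + e⁻¹) :=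
        Real.log_le_log (Real.exp_pos _) (by rw [he, inv_inv]; linarith)
      rw [Real.log_exp] at h3
      linarith
    have h4 := Real.log_le_log (Real.exp_pos _) h2
    rw [Real.log_exp] at h4
    unfold ps
    rw [h1]
    linarith

end Pool.Agent.P.MP_05ee19_an
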