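import Pool.Agent.P.MP_05ee19_an.Basic

/-!
Doubling, decay and bounded multiplicity from the master and packing estimates.
-/

open MeasureTheory Set Metric Filter Topology

namespace Pool.Agent.P.MP_05ee19_an

namespace GeoP

variable {n : ℕ} {Ω : Set (E n)} {f : E n → E n}

lemma osc_nonneg (f : E n → E n) (x : E n) (r : ℝ) : 0 ≤ osc f x r := diam_nonneg

lemma bdd_image (hf : ContinuousOn f Ω) {x : E n} {r : ℝ} (h : closedBall x r ⊆ Ω) :
    Bornology.IsBounded (f '' closedBall x r) :=
  ((isCompact_closedBall x r).image_of_continuousOn (hf.mono h)).isBounded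

lemma le_osc (hf : ContinuousOn f Ω) {x : E n} {r : ℝ} (h : closedBall x r ⊆ Ω) {z z' : E n}
    (hz : z ∈ closedBall x r) (hz' : z' ∈ closedBall x r) : ‖f z - f z'‖ ≤ osc f x r := by
  rw [← dist_eq_norm]
  exact dist_le_diam_of_mem (bdd_image hf h) (mem_image_of_mem f hz) (mem_image_of_mem f hz')

lemma osc_le {x e : E n} {r a : ℝ} (ha : 0 ≤ a) (h : ∀ z ∈ closedBall x r, ‖f z - e‖ ≤ a) :
    osc f x r ≤ 2 * a := by
  refine diam_le_of_subset_closedBall (x := e) ha ?_
  rintro _ ⟨z, hz, rfl⟩
  rw [mem_closedBall, dist_eq_norm]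
  exact h z hz

lemma osc_mono (hf : ContinuousOn f Ω) {x x' : E n} {r r' : ℝ} (h' : closedBall x' r' ⊆ Ω)
    (h : closedBall x r ⊆ closedBall x' r') : osc f x r ≤ osc f x' r' :=
  diam_mono (image_mono h) (bdd_image hf h')

lemma osc_pos (hn : 1 ≤ n) (hf : ContinuousOn f Ω) (hl : Light Ω f) {x : E n} {r : ℝ}
    (hr : 0 < r) (h : closedBall x r ⊆ Ω) : 0 < osc f x r := by
  by_contra hcon
  push Not at hcon
  have hsub := hl _ h (convex_closedBall x r).isPreconnected (fun a ha b hb => by
    have := (le_osc hf h ha hb).trans hcon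
    exact sub_eq_zero.mp (norm_le_zero_iff.mp this))
  obtain ⟨v, hv⟩ := exists_unit hn
  have h1 : dist (x + r • v) x = r := by
    rw [dist_eq_norm, add_sub_cancel_left, norm_smul, hv, Real.norm_of_nonneg hr.le, mul_one]
  have h2 := hsub (show x + r • v ∈ closedBall x r from h1.le) (mem_closedBall_self hr.le)
  rw [h2, dist_self] at h1
  exact hr.ne h1

/-- a point of the ball that realises half of the oscillation -/
lemma exists_far (hf : ContinuousOn f Ω) {x : E n} {r : ℝ} (hr : 0 ≤ r)
    (h : closedBall x r ⊆ Ω) : ∃ w ∈ closedBall x r, osc f x r ≤ 2 * ‖f w - f x‖ := by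
  obtain ⟨w, hw, hmax⟩ := (isCompact_closedBall x r).exists_isMaxOn
    ⟨x, mem_closedBall_self hr⟩ (f := fun z => ‖f z - f x‖)
    (((hf.mono h).sub continuousOn_const).norm)
  exact ⟨w, hw, osc_le (norm_nonneg _) fun z hz => hmax hz⟩

lemma dbl_iter {W : Set (E n)} {C : ℝ} (hC : 1 ≤ C)
    (hd : ∀ x r, 0 < r → closedBall x (8 * r) ⊆ W → osc f x (2 * r) ≤ C * osc f x r)
    (k : ℕ) (x : E n) (r : ℝ) (hr : 0 < r) (h : closedBall x (4 * (2 ^ k * r)) ⊆ W) :
    osc f x (2 ^ k * r) ≤ C ^ k * osc f x r := by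
  induction k with
  | zero => simp
  | succ k ih =>
    have hk : 0 < 2 ^ k * r := by positivity
    have h1 := hd x (2 ^ k * r) hk (by
      have : 8 * (2 ^ k * r) = 4 * (2 ^ (k + 1) * r) := by ring
      rw [this]
      exact h)
    have h2 := ih ((closedBall_subset_closedBall (by rw [pow_succ]; nlinarith)).trans h)
    calc osc f x (2 ^ (k + 1) * r) = osc f x (2 * (2 ^ k * r)) := by congr 1; ring
      _ ≤ C * osc f x (2 ^ k * r) := h1
      _ ≤ C * (C ^ k * osc f x r) := by gcongr
      _ = C ^ (k + 1) * osc f x r := by ring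

lemma encard_le_of_finset {Z : Type} {S : Set Z} {N : ℕ}
    (h : ∀ I : Finset Z, (I : Set Z) ⊆ S → I.card ≤ N) : S.encard ≤ N := by
  by_contra hcon
  push Not at hcon
  have h1 : ((N + 1 : ℕ) : ℕ∞) ≤ S.encard := by
    rw [Nat.cast_add, Nat.cast_one]
    exact Order.add_one_le_of_lt hcon
  obtain ⟨t, ht, hc⟩ := Set.exists_subset_encard_eq h1
  have hfin : t.Finite := Set.finite_of_encard_eq_coe hc
  have h2 := h hfin.toFinset (by simpa using ht)
  rw [hfin.encard_eq_coe_toFinset_card, Nat.cast_inj] at hc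
  omega

end GeoP

open GeoP in
theorem geo : S_Geo := by
  classical
  intro n hn Ω f hΩ hf hl U y₀ R hU C₁ C₂ hC₁ hC₂ hM hP
  set W := U ∩ f ⁻¹' ball y₀ (R / 8) with hW
  have hUΩ : U ⊆ Ω := subset_closure.trans hU.sub
  have hWU : W ⊆ U := inter_subset_left
  have hWΩ : W ⊆ Ω := hWU.trans hUΩ
  have hWo : IsOpen W := (hf.mono hUΩ).isOpen_inter_preimage hU.op isOpen_ball
  have hosc4 : ∀ x r, 0 ≤ r → closedBall x r ⊆ W → osc f x r ≤ R / 4 := by
    intro x r hr h
    have hb : ∀ z ∈ closedBall x r, f z ∈ ball y₀ (R / 8) := fun z hz => (h hz).2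
    have h0 : 0 < R / 8 := pos_of_mem_ball (hb x (mem_closedBall_self hr))
    have := osc_le (f := f) (x := x) (r := r) (e := y₀) h0.le fun z hz => by
      rw [← dist_eq_norm]
      exact (mem_ball.mp (hb z hz)).le
    linarith
  set C := 2 * C₁ with hC
  have hC1 : 1 ≤ C := by linarith
  have hdbl : ∀ x r, 0 < r → closedBall x (8 * r) ⊆ W → osc f x (2 * r) ≤ C * osc f x r := by
    intro x r hr h
    have hr' : closedBall x r ⊆ Ω := (closedBall_subset_closedBall (by linarith)).trans
      (h.trans hWΩ)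
    have hpos := osc_pos hn hf hl hr hr'
    have h1 := hM x (4 * r) (by linarith) (by
        have : 2 * (4 * r) = 8 * r := by ring
        rw [this]
        exact h) (f x) (h (mem_closedBall_self (by linarith))).2 (osc f x r) hpos
      (closedBall x r) (closedBall_subset_closedBall (by linarith))
      ((thick_closedBall hn x r).mono subset_rfl (by linarith))
      (fun z hz => le_osc hf hr' hz (mem_closedBall_self hr.le))
    have h2 := osc_le (f := f) (x := x) (r := 2 * r) (e := f x) (a := C₁ * osc f x r)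
      (by positivity) fun z hz => h1 z (closedBall_subset_closedBall (by linarith) hz)
    calc osc f x (2 * r) ≤ 2 * (C₁ * osc f x r) := h2
      _ = C * osc f x r := by rw [hC]; ring
  refine ⟨C, ⌈C₂ * (2 * C ^ 3) ^ n⌉₊, hC1, hdbl, ?_, ?_, ?_⟩
  · intro x y hxy h S hS hSc hx hy a ha
    have hd : 0 < dist x y := dist_pos.mpr hxy
    have ha0 : 0 < a := by
      by_contra hcon
      push Not at hcon
      exact hxy (hl S hS hSc (fun p hp q hq => dist_le_zero.mp ((ha p hp q hq).trans hcon)) hx hy)
    have hth := thick_of_preconnected hSc (q := x) (a := 0) (l := dist x y) hx hy (by simp)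
      (by rw [zero_add, dist_comm])
    have h1 := hM x (2 * dist x y) (by linarith) (by
        have : 2 * (2 * dist x y) = 4 * dist x y := by ring
        rw [this]
        exact h) (f x) (h (mem_closedBall_self (by linarith))).2 a ha0
      (S ∩ closedBall x (0 + dist x y))
      (inter_subset_right.trans (closedBall_subset_closedBall (by linarith)))
      (hth.mono subset_rfl (by linarith))
      (fun z hz => by rw [← dist_eq_norm]; exact ha z hz.1 x hx)
    have h2 := osc_le (f := f) (x := x) (r := dist x y) (e := f x) (a := C₁ * a)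
      (by positivity) fun z hz => h1 z (closedBall_subset_closedBall (by linarith) hz)
    calc osc f x (dist x y) ≤ 2 * (C₁ * a) := h2
      _ = C * a := by rw [hC]; ring
  · intro θ hθ
    obtain ⟨v, hv⟩ := exists_unit hn
    obtain ⟨m, hm⟩ := exists_nat_gt (C₂ * (2 * C ^ 6) ^ n / θ ^ n)
    rw [div_lt_iff₀ (by positivity)] at hm
    refine ⟨(1 / 2) ^ m, by positivity, pow_le_one₀ (by norm_num) (by norm_num),
      fun x r hr h => ?_⟩
    let t : ℕ → ℝ := fun k => (1 / 2) ^ k * r
    have ht0 : ∀ k, 0 < t k := fun k => by positivity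
    have htle : ∀ k l, k ≤ l → t l ≤ t k := fun k l hkl =>
      mul_le_mul_of_nonneg_right (pow_le_pow_of_le_one (by norm_num) (by norm_num) hkl) hr.le
    have htr : ∀ k, t k ≤ r := fun k => by simpa [t] using htle 0 k (Nat.zero_le k)
    have hthalf : ∀ k l, k < l → t l ≤ t k / 2 := fun k l hkl => by
      have h1 := htle (k + 1) l hkl
      have h2 : t (k + 1) = t k / 2 := by simp only [t]; ring
      rwa [h2] at h1
    let c : ℕ → E n := fun k => x + (3 / 4 * t k) • v
    have hcx : ∀ k, dist (c k) x = 3 / 4 * t k := fun k => by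
      have := ht0 k
      simp only [c]
      rw [dist_eq_norm, add_sub_cancel_left, norm_smul, hv, Real.norm_of_nonneg (by positivity),
        mul_one]
    have hsub : ∀ k a b, 3 / 4 * t k + a ≤ b → closedBall (c k) a ⊆ closedBall x b :=
      fun k a b hab => closedBall_subset_closedBall' (by rw [hcx]; linarith)
    have hrW : closedBall x r ⊆ W := (closedBall_subset_closedBall (by linarith)).trans h
    have hrΩ := hrW.trans hWΩ
    choose w hw hwo using fun k => exists_far hf (x := c k) (r := t k / 16 / 2)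
      (by have := ht0 k; positivity)
      ((hsub k _ r (by have := ht0 k; have := htr k; linarith)).trans hrΩ)
    have hs := osc_pos hn hf hl hr hrΩ
    have hdisj : ∀ k l, k < l →
        Disjoint (closedBall (c k) (2 * (t k / 16))) (closedBall (c l) (2 * (t l / 16))) := by
      intro k l hkl
      refine closedBall_disjoint_closedBall ?_
      have h1 := dist_triangle (c k) (c l) x
      rw [hcx, hcx] at h1
      have := hthalf k l hkl
      have := ht0 k
      linarith
    have hpack := hP ℕ (Finset.range m) c w (fun k => t k / 16) (f x)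
      (hrW (mem_closedBall_self hr.le)).2 (osc f x r) hs (hosc4 x r hr.le hrW)
      (fun k _ => by have := ht0 k; positivity)
      (fun k _ => ((hsub k _ r (by have := ht0 k; have := htr k; linarith)).trans hrW).trans hWU)
      (fun k _ z hz => le_osc hf hrΩ
        (hsub k _ r (by have := ht0 k; have := htr k; linarith) hz) (mem_closedBall_self hr.le))
      (fun k _ => hw k)
      (fun k _ l _ hkl => by
        rcases lt_or_gt_of_ne hkl with h1 | h1
        · exact hdisj k l h1
        · exact (hdisj l k h1).symm)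
    have hlow : ∀ k ∈ Finset.range m,
        (osc f x (t m) / (2 * C ^ 6)) ^ n ≤ ‖f (w k) - f (c k)‖ ^ n := by
      intro k hk
      have hkm := htle k m (Finset.mem_range.mp hk).le
      have h0 := ht0 k
      have h0' := htr k
      have hbig : closedBall (c k) (4 * (2 ^ 6 * (t k / 16 / 2))) ⊆ W :=
        (hsub k _ (10 * r) (by linarith)).trans h
      have h1 : osc f x (t m) ≤ osc f (c k) (2 ^ 6 * (t k / 16 / 2)) :=
        osc_mono hf ((closedBall_subset_closedBall (by linarith)).trans (hbig.trans hWΩ))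
          (closedBall_subset_closedBall' (by rw [dist_comm, hcx]; linarith))
      have h2 := dbl_iter hC1 hdbl 6 (c k) (t k / 16 / 2) (by positivity) hbig
      have h3 := hwo k
      refine pow_le_pow_left₀ (div_nonneg (osc_nonneg f _ _) (by positivity)) ?_ n
      rw [div_le_iff₀ (by positivity)]
      calc osc f x (t m) ≤ C ^ 6 * osc f (c k) (t k / 16 / 2) := h1.trans h2
        _ ≤ C ^ 6 * (2 * ‖f (w k) - f (c k)‖) := by gcongr
        _ = ‖f (w k) - f (c k)‖ * (2 * C ^ 6) := by ring
    have hsum := (Finset.card_nsmul_le_sum _ _ _ hlow).trans hpack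
    rw [Finset.card_range, nsmul_eq_mul, div_pow, ← mul_div_assoc,
      div_le_iff₀ (by positivity)] at hsum
    change osc f x (t m) ≤ θ * osc f x r
    by_contra hcon
    push Not at hcon
    have h1 : (θ * osc f x r) ^ n ≤ osc f x (t m) ^ n :=
      pow_le_pow_left₀ (by positivity) hcon.le n
    have h2 : (m : ℝ) * (θ * osc f x r) ^ n ≤ m * osc f x (t m) ^ n := by gcongr
    have h3 : C₂ * (2 * C ^ 6) ^ n * osc f x r ^ n < m * θ ^ n * osc f x r ^ n :=
      mul_lt_mul_of_pos_right hm (by positivity)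
    rw [mul_pow] at h2
    nlinarith
  · intro y
    refine encard_le_of_finset fun I hI => ?_
    rcases I.eq_empty_or_nonempty with rfl | hne
    · simp
    have hIW : ∀ z ∈ I, z ∈ W := fun z hz => (hI hz).1
    have hIy : ∀ z ∈ I, f z = y := fun z hz => (hI hz).2
    obtain ⟨z₀, hz₀⟩ := hne
    have hy : y ∈ ball y₀ (R / 8) := hIy z₀ hz₀ ▸ (hIW z₀ hz₀).2
    have hR : 0 < R / 8 := pos_of_mem_ball hy
    have hev : ∀ᶠ ρ in 𝓝[>] (0 : ℝ), (∀ z ∈ I, closedBall z (16 * ρ) ⊆ W) ∧
        ∀ z ∈ I, ∀ z' ∈ I, z ≠ z' → 4 * ρ < dist z z' := by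
      refine Eventually.and ?_ ?_
      · rw [eventually_all_finset]
        intro z hz
        obtain ⟨δ, hδ, hδ'⟩ := Metric.isOpen_iff.mp hWo z (hIW z hz)
        filter_upwards [Ioo_mem_nhdsGT (show (0 : ℝ) < δ / 16 by positivity)] with ρ hρ
        exact (closedBall_subset_ball (by linarith [hρ.2])).trans hδ'
      · rw [eventually_all_finset]
        intro z _
        rw [eventually_all_finset]
        intro z' _
        by_cases hzz : z = z'
        · exact Eventually.of_forall fun _ h => absurd hzz h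
        · have hd : 0 < dist z z' := dist_pos.mpr hzz
          filter_upwards [Ioo_mem_nhdsGT (show (0 : ℝ) < dist z z' / 4 by positivity)] with ρ hρ _
          linarith [hρ.2]
    obtain ⟨ρ₀, ⟨hρW, hρd⟩, hρ₀⟩ := (hev.and self_mem_nhdsWithin).exists
    have hρ₀ : 0 < ρ₀ := hρ₀
    have hevs : ∀ᶠ s in 𝓝[>] (0 : ℝ), s ≤ R / 4 ∧ ∀ z ∈ I, s < osc f z (2 * ρ₀) := by
      refine Eventually.and ?_ ?_
      · filter_upwards [Ioo_mem_nhdsGT hR] with s hs
        linarith [hs.2]
      · rw [eventually_all_finset]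
        intro z hz
        have hpos := osc_pos hn hf hl (x := z) (r := 2 * ρ₀) (by linarith)
          ((closedBall_subset_closedBall (by linarith)).trans ((hρW z hz).trans hWΩ))
        filter_upwards [Ioo_mem_nhdsGT hpos] with s hs
        exact hs.2
    obtain ⟨s, ⟨hsR, hso⟩, hs⟩ := (hevs.and self_mem_nhdsWithin).exists
    have hs : 0 < s := hs
    have hrad : ∀ z : E n, ∃ ρ : ℝ, z ∈ I → 0 < ρ ∧ ρ ≤ ρ₀ ∧ osc f z (2 * ρ) ≤ s ∧
        s < osc f z (4 * ρ) := by
      intro z
      by_cases hz : z ∈ I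
      swap
      · exact ⟨0, fun h => absurd h hz⟩
      have hex : ∃ j : ℕ, osc f z (2 * ((1 / 2) ^ j * ρ₀)) ≤ s := by
        have hc : ContinuousAt f z := hf.continuousAt (hΩ.mem_nhds (hWΩ (hIW z hz)))
        obtain ⟨δ, hδ, hδ'⟩ := Metric.continuousAt_iff.mp hc (s / 2) (by positivity)
        obtain ⟨j, hj⟩ := exists_pow_lt_of_lt_one (show 0 < δ / (2 * ρ₀) by positivity)
          (show (1 / 2 : ℝ) < 1 by norm_num)
        rw [lt_div_iff₀ (by positivity)] at hj
        refine ⟨j, ?_⟩
        have := osc_le (f := f) (x := z) (r := 2 * ((1 / 2) ^ j * ρ₀)) (e := f z) (a := s / 2)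
          (by positivity) fun u hu => by
            rw [← dist_eq_norm]
            exact (hδ' (lt_of_le_of_lt (mem_closedBall.mp hu) (by linarith))).le
        linarith
      have hj := Nat.find_spec hex
      have hj0 : Nat.find hex ≠ 0 := by
        intro h0
        rw [h0, pow_zero, one_mul] at hj
        exact absurd (hso z hz) (not_lt.mpr hj)
      obtain ⟨j, hj'⟩ := Nat.exists_eq_succ_of_ne_zero hj0
      have hmin := Nat.find_min hex (show j < Nat.find hex by omega)
      rw [hj'] at hj
      refine ⟨(1 / 2) ^ (j + 1) * ρ₀, fun _ => ⟨by positivity, ?_, hj, ?_⟩⟩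
      · exact mul_le_of_le_one_left hρ₀.le (pow_le_one₀ (by norm_num) (by norm_num))
      · have : 4 * ((1 / 2) ^ (j + 1) * ρ₀) = 2 * ((1 / 2) ^ j * ρ₀) := by ring
        rw [this]
        exact not_le.mp hmin
    choose ρ hρ using hrad
    have hfar : ∀ z : E n, ∃ w : E n, z ∈ I → w ∈ closedBall z (ρ z / 2) ∧
        osc f z (ρ z / 2) ≤ 2 * ‖f w - f z‖ := by
      intro z
      by_cases hz : z ∈ I
      swap
      · exact ⟨z, fun h => absurd h hz⟩
      obtain ⟨h1, h2, -, -⟩ := hρ z hz
      obtain ⟨w, hw, hw'⟩ := exists_far hf (x := z) (r := ρ z / 2) (by positivity)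
        ((closedBall_subset_closedBall (by linarith)).trans ((hρW z hz).trans hWΩ))
      exact ⟨w, fun _ => ⟨hw, hw'⟩⟩
    choose w hw using hfar
    have h2W : ∀ z ∈ I, closedBall z (2 * ρ z) ⊆ W := fun z hz => by
      obtain ⟨h1, h2, -, -⟩ := hρ z hz
      exact (closedBall_subset_closedBall (by linarith)).trans (hρW z hz)
    have hpack := hP (E n) I (fun z => z) w ρ y hy s hs hsR (fun z hz => (hρ z hz).1)
      (fun z hz => (h2W z hz).trans hWU)
      (fun z hz u hu => by
        rw [← hIy z hz]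
        exact (le_osc hf ((h2W z hz).trans hWΩ) hu
          (mem_closedBall_self (by linarith [(hρ z hz).1]))).trans (hρ z hz).2.2.1)
      (fun z hz => (hw z hz).1)
      (fun z hz z' hz' hzz => closedBall_disjoint_closedBall (by
        have := hρd z hz z' hz' hzz
        linarith [(hρ z hz).2.1, (hρ z' hz').2.1]))
    have hlow : ∀ z ∈ I, (s / (2 * C ^ 3)) ^ n ≤ ‖f (w z) - f z‖ ^ n := by
      intro z hz
      obtain ⟨h1, h2, -, h4⟩ := hρ z hz
      have h5 := dbl_iter hC1 hdbl 3 z (ρ z / 2) (by positivity)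
        ((closedBall_subset_closedBall (by linarith)).trans (hρW z hz))
      have h6 : (2 : ℝ) ^ 3 * (ρ z / 2) = 4 * ρ z := by ring
      rw [h6] at h5
      have h7 := (hw z hz).2
      refine pow_le_pow_left₀ (by positivity) ?_ n
      rw [div_le_iff₀ (by positivity)]
      calc s ≤ C ^ 3 * osc f z (ρ z / 2) := h4.le.trans h5
        _ ≤ C ^ 3 * (2 * ‖f (w z) - f z‖) := by gcongr
        _ = ‖f (w z) - f z‖ * (2 * C ^ 3) := by ring
    have hsum := (Finset.card_nsmul_le_sum _ _ _ hlow).trans hpack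
    rw [nsmul_eq_mul, div_pow, ← mul_div_assoc, div_le_iff₀ (by positivity)] at hsum
    have h1 : (I.card : ℝ) ≤ C₂ * (2 * C ^ 3) ^ n := by
      have h2 : (I.card : ℝ) * s ^ n ≤ C₂ * (2 * C ^ 3) ^ n * s ^ n := by linarith
      exact le_of_mul_le_mul_right h2 (by positivity)
    exact_mod_cast h1.trans (Nat.le_ceil _)

end Pool.Agent.P.MP_05ee19_an
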