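import Pool.Agent.P.MP_05ee19_an.Field

/-!
Lightness of nonconstant quasiregular maps (MP_05ee19_an, package 9, second half).
-/

open MeasureTheory Set Metric Filter Topology

namespace Pool.Agent.P.MP_05ee19_an

namespace LightP

variable {n : ℕ} {Ω : Set (E n)} {f : E n → E n} {G : E n → E n →L[ℝ] E n} {K : ℝ}

lemma integrableOn_det (hn : 1 ≤ n) (h : QR n Ω f G K) {S : Set (E n)} (hS : S ⊆ Ω)
    (hc : IsCompact S) : IntegrableOn (fun x => (G x).det) S := by
  refine h.integrableOn hn hS hc (Φ := fun p => p.2.2.det)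
    (ContinuousLinearMap.continuous_det.comp (continuous_snd.comp continuous_snd)) fun _ => ?_
  refine ⟨n.factorial, fun _ _ _ _ A => (abs_det_le A).trans ?_⟩
  exact mul_le_mul_of_nonneg_left (by linarith) (Nat.cast_nonneg _)

lemma integrableOn_pow_pred (hn : 1 ≤ n) (h : QR n Ω f G K) {S : Set (E n)} (hS : S ⊆ Ω)
    (hc : IsCompact S) : IntegrableOn (fun x => ‖G x‖ ^ (n - 1)) S := by
  refine h.integrableOn hn hS hc (Φ := fun p => ‖p.2.2‖ ^ (n - 1))
    ((continuous_snd.comp continuous_snd).norm.pow _) fun _ => ?_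
  refine ⟨1, fun _ _ _ _ A => ?_⟩
  have := young_pow hn (norm_nonneg A) zero_le_one one_pos
  rw [abs_of_nonneg (by positivity)]
  simp only [mul_one, one_mul, one_pow, div_one] at this ⊢
  linarith

lemma norm_fderiv_pow (hn : 1 ≤ n) {η : E n → ℝ} (hη : ContDiff ℝ 1 η) (h0 : ∀ x, 0 ≤ η x)
    {L : ℝ} (hL : ∀ x, ‖fderiv ℝ η x‖ ≤ L) (x : E n) :
    ‖fderiv ℝ (fun x => η x ^ n) x‖ ≤ η x ^ (n - 1) * (n * L) := by
  have h1 : HasFDerivAt (fun x => η x ^ n) _ x :=
    (hasDerivAt_pow n (η x)).comp_hasFDerivAt x (hη.differentiable one_ne_zero x).hasFDerivAt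
  rw [h1.fderiv, norm_smul, Real.norm_of_nonneg (by have := h0 x; positivity)]
  have h2 : 0 ≤ (n : ℝ) * η x ^ (n - 1) := by have := h0 x; positivity
  calc _ ≤ (n : ℝ) * η x ^ (n - 1) * L := mul_le_mul_of_nonneg_left (hL x) h2
    _ = _ := by ring

/-- Caccioppoli inequality for the fields of `S_Field`, with a bound that does not depend on the
field. -/
lemma cacc (h1 : S_Null) (hn : 1 ≤ n) (h : QR n Ω f G K) {S : Set (E n)} (hS : S ⊆ Ω)
    (hc : IsCompact S) {η : E n → ℝ} (hη : ContDiff ℝ 1 η) (hηS : tsupport η ⊆ S)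
    (h0 : ∀ x, 0 ≤ η x) {c : ℝ} (hc0 : 0 < c) :
    ∃ C'' : ℝ, 0 ≤ C'' ∧ ∀ (W : Fin n → E n → ℝ) (g : E n → ℝ), (∀ i, ContDiff ℝ 1 (W i)) →
      Continuous g → (∀ y, 0 ≤ g y) → (∀ i y, |W i y| ≤ g y ^ (n - 1)) →
      (∀ x ∈ S, c * g (f x) ^ n ≤
        ∑ i, fderiv ℝ (W i) (f x) (EuclideanSpace.single i (1 : ℝ))) →
      ∫ x in S, (η x * g (f x)) ^ n * ‖G x‖ ^ n ≤ C'' := by
  obtain ⟨C, hC0, hC⟩ := h1 n hn
  have hcs : HasCompactSupport η := hc.of_isClosed_subset (isClosed_tsupport η) hηS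
  have hDη : Continuous (fderiv ℝ η) := hη.continuous_fderiv one_ne_zero
  obtain ⟨L, hL⟩ := hDη.bounded_above_of_compact_support (hcs.fderiv (𝕜 := ℝ))
  have hL0 : 0 ≤ L := (norm_nonneg _).trans (hL 0)
  have hK : 0 < K := lt_of_lt_of_le one_pos h.K1
  set P : ℝ := K * (n * C) with hP
  have hP0 : 0 ≤ P := by positivity
  set lam : ℝ := c / (2 * (P + 1)) with hlam
  have hlam0 : 0 < lam := by positivity
  set Q : ℝ := (n * L) ^ n / lam ^ (n - 1) with hQ
  have hQ0 : 0 ≤ Q := by positivity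
  refine ⟨2 / c * (P * (Q * volume.real S)), by positivity, fun W g hW hg hg0 hWg hdiv => ?_⟩
  have hfS : ContinuousOn f S := h.cont.mono hS
  have hηn : ContDiff ℝ 1 (fun x => η x ^ n) := hη.pow n
  have hηnS : tsupport (fun x => η x ^ n) ⊆ S := by
    refine (closure_mono fun x hx => ?_).trans hηS
    intro hx0
    exact hx (by simp only [hx0]; exact zero_pow (by omega))
  set I : ℝ := ∫ x in S, (η x * g (f x)) ^ n * ‖G x‖ ^ n with hI
  have hηg : ContinuousOn (fun x => η x * g (f x)) S :=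
    hη.continuous.continuousOn.mul (hg.comp_continuousOn hfS)
  have iI : IntegrableOn (fun x => (η x * g (f x)) ^ n * ‖G x‖ ^ n) S :=
    (h.integrableOn_pow hn hS hc).continuousOn_mul (hηg.pow n) hc
  have iD : ∀ i, IntegrableOn (fun x => η x ^ n *
      fderiv ℝ (W i) (f x) (EuclideanSpace.single i (1 : ℝ)) * (G x).det) S := fun i => by
    refine (integrableOn_det hn h hS hc).continuousOn_mul (hηn.continuous.continuousOn.mul ?_) hc
    exact (((hW i).continuous_fderiv one_ne_zero).clm_apply continuous_const).comp_continuousOn hfS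
  have iR : ∀ i, IntegrableOn (fun x => |W i (f x)| * ‖fderiv ℝ (fun x => η x ^ n) x‖ *
      ‖G x‖ ^ (n - 1)) S := fun i => by
    refine (integrableOn_pow_pred hn h hS hc).continuousOn_mul (ContinuousOn.mul ?_ ?_) hc
    · exact ((hW i).continuous.comp_continuousOn hfS).abs
    · exact (hηn.continuous_fderiv one_ne_zero).norm.continuousOn
  have iQ : IntegrableOn (fun _ : E n => Q) S := integrableOn_const hc.measure_lt_top.ne
  -- step 1
  have s1 : c * I ≤ K * ∑ i, ∫ x in S, η x ^ n *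
      fderiv ℝ (W i) (f x) (EuclideanSpace.single i (1 : ℝ)) * (G x).det := by
    rw [hI, ← integral_const_mul, ← integral_finsetSum _ fun i _ => iD i, ← integral_const_mul]
    refine integral_mono_ae (iI.const_mul c)
      ((integrable_finsetSum _ fun i _ => iD i).const_mul K) ?_
    filter_upwards [ae_restrict_mem hc.measurableSet, ae_restrict_of_ae_restrict_of_subset hS h.dil,
      ae_restrict_of_ae_restrict_of_subset hS h.det_nonneg] with x hx hdil hdet
    have e1 := hdiv x hx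
    have e2 : 0 ≤ η x ^ n := pow_nonneg (h0 x) n
    have e3 : 0 ≤ c * g (f x) ^ n := mul_nonneg hc0.le (pow_nonneg (hg0 _) n)
    rw [← Finset.sum_mul, ← Finset.mul_sum]
    calc c * ((η x * g (f x)) ^ n * ‖G x‖ ^ n) = η x ^ n * (c * g (f x) ^ n) * ‖G x‖ ^ n := by
          ring
      _ ≤ η x ^ n * (c * g (f x) ^ n) * (K * (G x).det) :=
          mul_le_mul_of_nonneg_left hdil (mul_nonneg e2 e3)
      _ ≤ η x ^ n * (∑ i, fderiv ℝ (W i) (f x) (EuclideanSpace.single i (1 : ℝ))) *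
            (K * (G x).det) :=
          mul_le_mul_of_nonneg_right (mul_le_mul_of_nonneg_left e1 e2) (mul_nonneg hK.le hdet)
      _ = _ := by ring
  -- step 2
  have s2 : ∀ i, ∫ x in S, η x ^ n *
      fderiv ℝ (W i) (f x) (EuclideanSpace.single i (1 : ℝ)) * (G x).det ≤
      C * (lam * I + Q * volume.real S) := fun i => by
    have e1 := hC Ω f G K h S hS hc (fun x => η x ^ n) (W i) (EuclideanSpace.single i (1 : ℝ))
      hηn hηnS (hW i)
    rw [PiLp.norm_single, norm_one, mul_one] at e1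
    refine ((le_abs_self _).trans e1).trans (mul_le_mul_of_nonneg_left ?_ hC0)
    have e2 : lam * I + Q * volume.real S =
        ∫ x in S, (lam * ((η x * g (f x)) ^ n * ‖G x‖ ^ n) + Q) := by
      rw [integral_add (iI.const_mul lam) iQ, integral_const_mul, setIntegral_const, smul_eq_mul,
        mul_comm Q]
    rw [e2]
    refine integral_mono (iR i) ((iI.const_mul lam).add iQ) fun x => ?_
    have e3 := norm_fderiv_pow hn hη h0 hL x
    have e4 : 0 ≤ η x * g (f x) * ‖G x‖ := mul_nonneg (mul_nonneg (h0 x) (hg0 _)) (norm_nonneg _)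
    have e5 := young_pow hn e4 (by positivity : (0 : ℝ) ≤ n * L) hlam0
    calc |W i (f x)| * ‖fderiv ℝ (fun x => η x ^ n) x‖ * ‖G x‖ ^ (n - 1)
        ≤ g (f x) ^ (n - 1) * (η x ^ (n - 1) * (n * L)) * ‖G x‖ ^ (n - 1) :=
          mul_le_mul_of_nonneg_right (mul_le_mul (hWg i _) e3 (norm_nonneg _)
            (pow_nonneg (hg0 _) _)) (by positivity)
      _ = (η x * g (f x) * ‖G x‖) ^ (n - 1) * (n * L) := by ring
      _ ≤ lam * (η x * g (f x) * ‖G x‖) ^ n + Q := e5
      _ = _ := by ring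
  have s3 : c * I ≤ P * (lam * I + Q * volume.real S) := by
    refine s1.trans ?_
    have := Finset.sum_le_sum fun i (_ : i ∈ Finset.univ) => s2 i
    simp only [Finset.sum_const, Finset.card_univ, Fintype.card_fin, nsmul_eq_mul] at this
    calc _ ≤ K * (n * (C * (lam * I + Q * volume.real S))) := mul_le_mul_of_nonneg_left this hK.le
      _ = _ := by rw [hP]; ring
  have hI0 : 0 ≤ I := integral_nonneg fun x =>
    mul_nonneg (pow_nonneg (mul_nonneg (h0 x) (hg0 _)) n) (by positivity)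
  have s4 : P * lam ≤ c / 2 := by
    rw [hlam, ← mul_div_assoc, div_le_div_iff₀ (by positivity) (by positivity)]
    nlinarith
  have s5 : c / 2 * I ≤ P * (Q * volume.real S) := by nlinarith
  rw [div_mul_eq_mul_div, le_div_iff₀ hc0]
  linarith

/-- a thick level set forces local constancy -/
lemma loc (h1 : S_Null) (h2 : S_Loew) (h3 : S_Field) (hn : 2 ≤ n) (h : QR n Ω f G K) {z : E n}
    {r : ℝ} (hr : 0 < r) (hz : closedBall z (3 * r) ⊆ Ω) {b : E n} {l : ℝ} (hl : 0 < l)
    (hT : Thick ({x | f x = b} ∩ closedBall z r) l) : ∀ x ∈ ball z r, f x = b := by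
  have hn1 : 1 ≤ n := by omega
  by_contra hne
  push Not at hne
  obtain ⟨x₀, hx₀, hfx₀⟩ := hne
  have hsub : closedBall z (2 * r) ⊆ closedBall z (3 * r) :=
    closedBall_subset_closedBall (by linarith)
  have hx₀Ω : x₀ ∈ Ω := hz (closedBall_subset_closedBall (by linarith) (ball_subset_closedBall hx₀))
  set m : ℝ := ‖f x₀ - b‖ / 2 with hm
  have hm0 : 0 < m := half_pos (norm_pos_iff.mpr (sub_ne_zero.mpr hfx₀))
  have hcont : ContinuousAt (fun x => ‖f x - b‖) x₀ :=
    ((h.cont.continuousAt (h.op.mem_nhds hx₀Ω)).sub continuousAt_const).norm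
  have hev : ∀ᶠ x in 𝓝 x₀, m < ‖f x - b‖ ∧ x ∈ ball z r :=
    (hcont.eventually (lt_mem_nhds (show m < ‖f x₀ - b‖ by linarith))).and
      (isOpen_ball.mem_nhds hx₀)
  obtain ⟨ρ, hρ, hρs⟩ := nhds_basis_closedBall.eventually_iff.mp hev
  set θ : ℝ := min ρ l / r with hθ
  have hθ0 : 0 < θ := div_pos (lt_min hρ hl) hr
  have hθr : θ * r = min ρ l := div_mul_cancel₀ _ hr.ne'
  obtain ⟨CL, hCL0, hCL⟩ := h2 n hn1 θ hθ0
  have hc : IsCompact (closedBall z (3 * r)) := isCompact_closedBall _ _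
  obtain ⟨M₀, hM₀⟩ := hc.exists_bound_of_continuousOn
    ((h.cont.mono hz).sub (continuousOn_const (c := b)))
  obtain ⟨c, hc0, hfield⟩ := h3 n hn b M₀
  let η : ContDiffBump z := ⟨2 * r, 3 * r, by linarith, by linarith⟩
  have hη : ContDiff ℝ 1 η := η.contDiff
  obtain ⟨C'', hC0, hC''⟩ := cacc h1 hn1 h hz hc hη (le_of_eq η.tsupport_eq)
    (fun _ => η.nonneg) hc0
  obtain ⟨W, g, ψ, a, hW, hg, hψ, hg0, hWg, hψg, hdiv, ha, hB⟩ := hfield m (CL * C'' + 1) hm0
  have e1 := hC'' W g hW hg hg0 hWg fun x hx => hdiv _ (hM₀ x hx)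
  have hB1 : 1 ≤ CL * C'' + 1 := by have := mul_nonneg hCL0 hC0; linarith
  have e2 := hCL Ω f G K h ψ hψ z r hr (hsub.trans hz) (closedBall x₀ ρ)
    ({x | f x = b} ∩ closedBall z r) (fun x hx => ball_subset_closedBall (hρs hx).2)
    inter_subset_right
    ((thick_closedBall hn1 x₀ ρ).mono Subset.rfl (hθr.trans_le (min_le_left _ _)))
    (hT.mono Subset.rfl (hθr.trans_le (min_le_right _ _))) a (CL * C'' + 1) (by linarith)
    (fun x hx => ha _ (hρs hx).1.le) (fun x hx => by rw [show f x = b from hx.1]; exact hB)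
  have hfS : ContinuousOn f (closedBall z (3 * r)) := h.cont.mono hz
  have iI : IntegrableOn (fun x => (η x * g (f x)) ^ n * ‖G x‖ ^ n) (closedBall z (3 * r)) :=
    (h.integrableOn_pow hn1 hz hc).continuousOn_mul
      ((hη.continuous.continuousOn.mul (hg.comp_continuousOn hfS)).pow n) hc
  have iJ : IntegrableOn (fun x => ‖fderiv ℝ ψ (f x)‖ ^ n * ‖G x‖ ^ n) (closedBall z (2 * r)) :=
    (h.integrableOn_pow hn1 (hsub.trans hz) (isCompact_closedBall _ _)).continuousOn_mul
      (((hψ.continuous_fderiv one_ne_zero).comp_continuousOn (hfS.mono hsub)).norm.pow n)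
      (isCompact_closedBall _ _)
  have e3 : ∫ x in closedBall z (2 * r), ‖fderiv ℝ ψ (f x)‖ ^ n * ‖G x‖ ^ n ≤ C'' := by
    refine le_trans ?_ e1
    refine le_trans (setIntegral_mono_on iJ (iI.mono_set hsub) measurableSet_closedBall
      fun x hx => ?_) (setIntegral_mono_set iI (ae_of_all _ fun x => ?_) hsub.eventuallyLE)
    · rw [η.one_of_mem_closedBall hx, one_mul]
      exact mul_le_mul_of_nonneg_right (pow_le_pow_left₀ (norm_nonneg _) (hψg _) n)
        (by positivity)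
    · exact mul_nonneg (pow_nonneg (mul_nonneg η.nonneg (hg0 _)) n) (by positivity)
  have e4 : CL * C'' + 1 ≤ (CL * C'' + 1) ^ n := le_self_pow₀ hB1 (by omega)
  have e5 := mul_le_mul_of_nonneg_left e3 hCL0
  linarith

lemma exists_ball (hΩ : IsOpen Ω) {x : E n} (hx : x ∈ Ω) {d : ℝ} (hd : 0 < d) :
    ∃ r : ℝ, 0 < r ∧ r ≤ d ∧ closedBall x (3 * r) ⊆ Ω := by
  obtain ⟨ε, hε, hεs⟩ := nhds_basis_closedBall.mem_iff.mp (hΩ.mem_nhds hx)
  refine ⟨min (ε / 3) d, lt_min (by linarith) hd, min_le_right _ _,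
    (closedBall_subset_closedBall ?_).trans hεs⟩
  have := min_le_left (ε / 3) d
  linarith

end LightP

open LightP in
theorem light (h1 : S_Null) (h2 : S_Loew) (h3 : S_Field) : S_Light := by
  intro n hn Ω f G K h hΩ ⟨p, hp, q, hq, hpq⟩ C hC hCc hconst
  have hn1 : 1 ≤ n := by omega
  by_contra hns
  obtain ⟨u, hu, v, hv, huv⟩ := not_subsingleton_iff.mp hns
  obtain ⟨r, hr, hrd, hrΩ⟩ := exists_ball h.op (hC hu) (dist_pos.mpr huv.symm)
  have hT : Thick ({x | f x = f u} ∩ closedBall u r) r := by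
    have := thick_of_preconnected hCc (q := u) (a := 0) (l := r) hu hv (by simp) (by simpa using hrd)
    rw [zero_add] at this
    exact this.mono (inter_subset_inter_left _ fun x hx => hconst x hx u hu) le_rfl
  have hu' : u ∈ interior {x | f x = f u} :=
    mem_interior.mpr ⟨ball u r, loc h1 h2 h3 hn h hr hrΩ hr hT, isOpen_ball, mem_ball_self hr⟩
  have hall : Ω ⊆ interior {x | f x = f u} := by
    refine hΩ.subset_of_closure_inter_subset isOpen_interior ⟨u, hC hu, hu'⟩ ?_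
    rintro x ⟨hx1, hx2⟩
    obtain ⟨s, hs, -, hsΩ⟩ := exists_ball h.op hx2 one_pos
    obtain ⟨w, hw1, hw2⟩ := mem_closure_iff.mp hx1 (ball x s) isOpen_ball (mem_ball_self hs)
    obtain ⟨ρ, hρ, hρs⟩ := nhds_basis_closedBall.mem_iff.mp
      ((isOpen_ball.inter isOpen_interior).mem_nhds ⟨hw1, hw2⟩)
    have hT' : Thick ({x | f x = f u} ∩ closedBall x s) ρ :=
      (thick_closedBall hn1 w ρ).mono
        (fun y hy => ⟨interior_subset (hρs hy).2, ball_subset_closedBall (hρs hy).1⟩) le_rfl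
    exact mem_interior.mpr ⟨ball x s, loc h1 h2 h3 hn h hs hsΩ hρ hT', isOpen_ball,
      mem_ball_self hs⟩
  have e1 : p ∈ {x | f x = f u} := interior_subset (hall hp)
  have e2 : q ∈ {x | f x = f u} := interior_subset (hall hq)
  exact hpq (Eq.trans e1 (Eq.symm e2))

end Pool.Agent.P.MP_05ee19_an
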