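import Pool.Agent.P.MP_05ee19_an.Conv

/-!
The pull-back metric and the assembly of the packages for MP_05ee19_an.
-/

open MeasureTheory Set Metric Filter Topology

namespace Pool.Agent.P.MP_05ee19_an

namespace LocP

variable {n : ℕ}

/-- admissible bounds for the pull-back distance -/
def PdSet (Ω : Set (E n)) (f : E n → E n) (R₀ : ℝ) (x y : E n) : Set ℝ :=
  {a | 0 ≤ a ∧ (R₀ ≤ a ∨ x = y ∨ ∃ S ⊆ Ω, IsPreconnected S ∧ x ∈ S ∧ y ∈ S ∧
    ∀ p ∈ S, ∀ q ∈ S, dist (f p) (f q) ≤ a)}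

/-- the pull-back distance, capped at `R₀` -/
noncomputable def pd (Ω : Set (E n)) (f : E n → E n) (R₀ : ℝ) (x y : E n) : ℝ :=
  sInf (PdSet Ω f R₀ x y)

variable {Ω : Set (E n)} {f : E n → E n} {R₀ : ℝ}

lemma pdSet_nonempty (x y : E n) : (PdSet Ω f R₀ x y).Nonempty :=
  ⟨max R₀ 0, le_max_right _ _, Or.inl (le_max_left _ _)⟩

lemma pd_le {x y : E n} {a : ℝ} (h : a ∈ PdSet Ω f R₀ x y) : pd Ω f R₀ x y ≤ a :=
  csInf_le ⟨0, fun _ hb => hb.1⟩ h

lemma le_pd {x y : E n} {b : ℝ} (h : ∀ a ∈ PdSet Ω f R₀ x y, b ≤ a) : b ≤ pd Ω f R₀ x y :=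
  le_csInf (pdSet_nonempty x y) h

lemma pdSet_symm {x y : E n} {a : ℝ} (h : a ∈ PdSet Ω f R₀ x y) : a ∈ PdSet Ω f R₀ y x := by
  obtain ⟨h0, h | h | ⟨S, hS, hc, hx, hy, h⟩⟩ := h
  · exact ⟨h0, Or.inl h⟩
  · exact ⟨h0, Or.inr (Or.inl h.symm)⟩
  · exact ⟨h0, Or.inr (Or.inr ⟨S, hS, hc, hy, hx, h⟩)⟩

lemma pdSet_up {x y : E n} {a b : ℝ} (h : a ∈ PdSet Ω f R₀ x y) (hab : a ≤ b) :
    b ∈ PdSet Ω f R₀ x y := by
  obtain ⟨h0, h | h | ⟨S, hS, hc, hx, hy, h⟩⟩ := h
  · exact ⟨h0.trans hab, Or.inl (h.trans hab)⟩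
  · exact ⟨h0.trans hab, Or.inr (Or.inl h)⟩
  · exact ⟨h0.trans hab, Or.inr (Or.inr ⟨S, hS, hc, hx, hy,
      fun p hp q hq => (h p hp q hq).trans hab⟩)⟩

lemma pdSet_add {x y z : E n} {a b : ℝ} (ha : a ∈ PdSet Ω f R₀ x y) (hb : b ∈ PdSet Ω f R₀ y z) :
    a + b ∈ PdSet Ω f R₀ x z := by
  have ha0 := ha.1
  have hb0 := hb.1
  obtain h | h | ⟨S, hS, hc, hx, hy, h⟩ := ha.2
  · exact ⟨by linarith, Or.inl (by linarith)⟩
  · subst h; exact pdSet_up hb (by linarith)
  obtain h' | h' | ⟨S', hS', hc', hy', hz, h'⟩ := hb.2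
  · exact ⟨by linarith, Or.inl (by linarith)⟩
  · subst h'; exact pdSet_up ha (by linarith)
  refine ⟨by linarith, Or.inr (Or.inr ⟨S ∪ S', union_subset hS hS', hc.union y hy hy' hc',
    Or.inl hx, Or.inr hz, ?_⟩)⟩
  rintro p (hp | hp) q (hq | hq)
  · linarith [h p hp q hq]
  · linarith [dist_triangle (f p) (f y) (f q), h p hp y hy, h' y hy' q hq]
  · linarith [dist_triangle (f p) (f y) (f q), h' p hp y hy', h y hy q hq]
  · linarith [h' p hp q hq]

lemma pm_pd : PM (pd Ω f R₀) where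
  refl x := le_antisymm (pd_le ⟨le_rfl, Or.inr (Or.inl rfl)⟩) (le_pd fun _ ha => ha.1)
  symm x y := le_antisymm (le_pd fun _ ha => pd_le (pdSet_symm ha))
    (le_pd fun _ ha => pd_le (pdSet_symm ha))
  tri x y z := by
    have h1 : pd Ω f R₀ x z - pd Ω f R₀ x y ≤ pd Ω f R₀ y z := le_pd fun b hb => by
      have h2 : pd Ω f R₀ x z - b ≤ pd Ω f R₀ x y := le_pd fun a ha => by
        linarith [pd_le (pdSet_add ha hb)]
      linarith
    linarith

lemma bdd_image (hf : ContinuousOn f Ω) {x : E n} {r : ℝ} (h : closedBall x r ⊆ Ω) :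
    Bornology.IsBounded (f '' closedBall x r) :=
  ((isCompact_closedBall x r).image_of_continuousOn (hf.mono h)).isBounded

lemma dist_le_osc (hf : ContinuousOn f Ω) {x : E n} {r : ℝ} (h : closedBall x r ⊆ Ω) {p q : E n}
    (hp : p ∈ closedBall x r) (hq : q ∈ closedBall x r) : dist (f p) (f q) ≤ osc f x r :=
  dist_le_diam_of_mem (bdd_image hf h) (mem_image_of_mem f hp) (mem_image_of_mem f hq)

lemma osc_pos (hn : 1 ≤ n) (hf : ContinuousOn f Ω) (hl : Light Ω f) {x : E n} {r : ℝ}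
    (hr : 0 < r) (h : closedBall x r ⊆ Ω) : 0 < osc f x r := by
  by_contra hne
  push Not at hne
  have hsub := hl _ h (convex_closedBall x r).isPreconnected fun a ha b hb =>
    dist_le_zero.1 ((dist_le_osc hf h ha hb).trans hne)
  obtain ⟨v, hv⟩ := exists_unit hn
  have h1 : x + r • v ∈ closedBall x r := by
    rw [mem_closedBall, dist_eq_norm, add_sub_cancel_left, norm_smul, hv,
      Real.norm_of_nonneg hr.le, mul_one]
  have h2 := hsub h1 (mem_closedBall_self hr.le)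
  have h3 : r • v = 0 := by simpa using h2
  have h4 := congrArg norm h3
  rw [norm_smul, hv, Real.norm_of_nonneg hr.le, norm_zero] at h4
  linarith

/-- the local statement -/
theorem loc (hQS : S_QS) (hA : S_CoverA) (hB : S_CoverB) (hN : S_Normal) (hL : S_Lift)
    (hM : S_Master) (hP : S_Pack) (hG : S_Geo) (hn : 2 ≤ n) {G : E n → E n →L[ℝ] E n} {K : ℝ}
    (h : QR n Ω f G K) (hl : Light Ω f) (ho : OpenOn Ω f) {x₀ : E n} (hx₀ : x₀ ∈ Ω) :
    ∃ r₀ : ℝ, 0 < r₀ ∧ ∀ A ⊆ closedBall x₀ r₀, ∀ d : ℕ,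
      Col (fun x y : E n => dist x y) A d ↔ Col (fun x y : E n => dist x y) (f '' A) d := by
  have hn1 : 1 ≤ n := by omega
  obtain ⟨U, R, hR, hxU, -, hadm⟩ := hN n Ω f h.op h.cont hl x₀ hx₀ 1 one_pos
  obtain ⟨C₁, hC₁, hm⟩ := hM n hn Ω f G K h ho U (f x₀) R hadm
  obtain ⟨C₂, hC₂, hp⟩ := hP n hn1 Ω f G K h ho U (f x₀) R hadm
  obtain ⟨C, N, hgeo⟩ := hG n hn1 Ω f h.op h.cont hl U (f x₀) R hadm C₁ C₂ hC₁ hC₂ hm hp
  set W := U ∩ f ⁻¹' ball (f x₀) (R / 8) with hW
  have hUΩ : U ⊆ Ω := subset_closure.trans hadm.sub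
  have hWΩ : W ⊆ Ω := inter_subset_left.trans hUΩ
  have hopen : IsOpen (U ∩ f ⁻¹' ball (f x₀) (R / 16)) :=
    (h.cont.mono hUΩ).isOpen_inter_preimage hadm.op isOpen_ball
  obtain ⟨ρ, hρ, hball⟩ := Metric.isOpen_iff.1 hopen x₀
    ⟨hxU, mem_preimage.2 (mem_ball_self (by positivity))⟩
  have hsubW : U ∩ f ⁻¹' ball (f x₀) (R / 16) ⊆ W :=
    inter_subset_inter_right _ (preimage_mono (ball_subset_ball (by linarith)))
  refine ⟨ρ / 22, by positivity, fun A hAs d => ?_⟩
  have hin : ∀ x ∈ A, ∀ r, r ≤ 20 * (ρ / 22) → closedBall x r ⊆ W := by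
    intro x hx r hr z hz
    refine hsubW (hball ?_)
    have h1 := mem_closedBall.1 (hAs hx)
    have h2 := mem_closedBall.1 hz
    rw [mem_ball]
    linarith [dist_triangle z x x₀]
  have hAW : A ⊆ W := fun x hx => hin x hx 0 (by positivity) (mem_closedBall_self le_rfl)
  have hWd : ∀ p ∈ W, ∀ q ∈ W, dist (f p) (f q) ≤ R / 4 := by
    intro p hp q hq
    have h1 : dist (f p) (f x₀) < R / 8 := hp.2
    have h2 : dist (f q) (f x₀) < R / 8 := hq.2
    linarith [dist_triangle_right (f p) (f q) (f x₀)]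
  have hdA : ∀ x ∈ A, ∀ y ∈ A, dist x y ≤ 2 * (ρ / 22) := by
    intro x hx y hy
    linarith [dist_triangle_right x y x₀, mem_closedBall.1 (hAs hx), mem_closedBall.1 (hAs hy)]
  have hgauge : Gauge (fun x y : E n => dist x y) (pd Ω f (R / 4)) A (2 * (ρ / 22)) C (osc f) :=
    { rpos := by positivity
      C1 := hgeo.C1
      bdd := hdA
      mono := fun x hx y hy r r' hr hrr hr' => by
        refine diam_mono (image_mono ?_)
          (bdd_image h.cont ((hin y hy r' (by linarith)).trans hWΩ))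
        exact closedBall_subset_closedBall' (by linarith)
      pos := fun x hx r hr hr' =>
        osc_pos hn1 h.cont hl hr ((hin x hx r (by linarith)).trans hWΩ)
      dbl := fun x hx r hr hr' => hgeo.dbl x r hr (hin x hx _ (by linarith))
      dec := fun θ hθ => by
        obtain ⟨ε, h0, h1, hε⟩ := hgeo.dec θ hθ
        exact ⟨ε, h0, h1, fun x hx r hr hr' => hε x r hr (hin x hx _ (by linarith))⟩
      up := fun x hx y hy r hr hr' hxy => by
        have hs : closedBall x r ⊆ Ω := (hin x hx r (by linarith)).trans hWΩ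
        refine pd_le ⟨diam_nonneg, Or.inr (Or.inr ⟨closedBall x r, hs,
          (convex_closedBall x r).isPreconnected, mem_closedBall_self hr.le, ?_,
          fun p hp q hq => dist_le_osc h.cont hs hp hq⟩)⟩
        rwa [mem_closedBall, dist_comm]
      low := fun x hx y hy hxy => by
        have hC : 0 < C := lt_of_lt_of_le one_pos hgeo.C1
        have hd := hdA x hx y hy
        rw [← div_le_iff₀' hC]
        refine le_pd fun a ha => ?_
        rw [div_le_iff₀' hC]
        obtain h1 | h1 | ⟨S, hS, hc, hxS, hyS, h1⟩ := ha.2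
        · have h2 : osc f x (dist x y) ≤ R / 4 := by
            refine diam_le_of_forall_dist_le (by positivity) ?_
            rintro _ ⟨p, hp, rfl⟩ _ ⟨q, hq, rfl⟩
            exact hWd p (hin x hx _ (by linarith) hp) q (hin x hx _ (by linarith) hq)
          have := hgeo.C1
          have := ha.1
          nlinarith
        · exact absurd h1 (dist_pos.1 hxy)
        · exact hgeo.low x y (dist_pos.1 hxy) (hin x hx _ (by linarith)) S hS hc hxS hyS a h1 }
  have hbr : Branch (pd Ω f (R / 4)) f A W (R / 16) (R / 4) N :=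
    { sub := hAW
      tpos := by positivity
      bdd := fun x _ y _ => pd_le ⟨by positivity, Or.inl le_rfl⟩
      lip := fun x hx y hy => le_pd fun a ha => by
        obtain h1 | h1 | ⟨S, hS, hc, hxS, hyS, h1⟩ := ha.2
        · exact (hWd x hx y hy).trans h1
        · subst h1; simpa using ha.1
        · exact h1 x hxS y hyS
      lift := fun x hx y t ht hy => by
        have hx16 : f x ∈ ball (f x₀) (R / 16) := by
          refine mem_preimage.1 (hball ?_).2
          have h1 := mem_closedBall.1 (hAs hx)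
          rw [mem_ball]; linarith
        have hb8 : ball (f x) t ⊆ ball (f x₀) (R / 8) :=
          ball_subset_ball' (by linarith [mem_ball.1 hx16])
        obtain ⟨S, hSU, hc, hxS, hS, z, hz, hzy⟩ := hL n hn1 Ω f G K h hl U (f x₀) R hadm x
          (hAW hx).1 t (hb8.trans (ball_subset_ball (by linarith))) y hy
        have ht0 : 0 < t := lt_of_le_of_lt dist_nonneg hy
        refine ⟨z, ⟨hSU hz, mem_preimage.2 (hb8 (hS z hz))⟩, hzy, pd_le ⟨by positivity, Or.inr (Or.inr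
          ⟨S, hSU.trans hUΩ, hc, hxS, hz, fun p hp q hq => ?_⟩)⟩⟩
        linarith [dist_triangle_right (f p) (f q) (f x), mem_ball.1 (hS p hp), mem_ball.1 (hS q hq)]
      mult := hgeo.mult }
  rw [hQS (E n) _ _ (pm_dist _) pm_pd A _ C _ hgauge d]
  exact ⟨hB (E n) n _ pm_pd f A W _ _ N hbr d, hA (E n) n _ pm_pd f A W _ _ N hbr d⟩

lemma col_biUnion (hU : S_Union) {Z ι : Type} {δ : Z → Z → ℝ} (hδ : PM δ) {d : ℕ} (t : Finset ι)
    (X : ι → Set Z) (h : ∀ i ∈ t, Col δ (X i) d) : Col δ (⋃ i ∈ t, X i) d := by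
  classical
  induction t using Finset.induction_on with
  | empty => simpa using col_empty δ d
  | insert a t ha ih =>
    rw [Finset.set_biUnion_insert]
    exact hU Z δ hδ _ _ d (h a (Finset.mem_insert_self a t))
      (ih fun i hi => h i (Finset.mem_insert_of_mem hi))

/-- from the local statement to the theorem -/
theorem glob (hU : S_Union) {A : Set (E n)} (hA : IsCompact (closure A))
    (h : ∀ x₀ ∈ closure A, ∃ r₀ : ℝ, 0 < r₀ ∧ ∀ B ⊆ closedBall x₀ r₀, ∀ d : ℕ,
      Col (fun x y : E n => dist x y) B d ↔ Col (fun x y : E n => dist x y) (f '' B) d) :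
    nagataDim A = nagataDim (f '' A) := by
  choose! r hr h using h
  obtain ⟨t, ht, hcov⟩ := hA.elim_nhds_subcover (fun x => closedBall x (r x))
    fun x hx => closedBall_mem_nhds x (hr x hx)
  have hA1 : A = ⋃ x ∈ t, A ∩ closedBall x (r x) := by
    rw [← inter_iUnion₂]
    exact (inter_eq_left.2 (subset_closure.trans hcov)).symm
  have key : ∀ d : ℕ, NagataLE A d ↔ NagataLE (f '' A) d := by
    intro d
    rw [conv (E n) A d, conv (E n) (f '' A) d]
    constructor
    · intro hc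
      have : f '' A = ⋃ x ∈ t, f '' (A ∩ closedBall x (r x)) := by
        conv_lhs => rw [hA1]
        rw [image_iUnion₂]
      rw [this]
      exact col_biUnion hU (pm_dist _) t _ fun x hx =>
        (h x (ht x hx) _ inter_subset_right d).1 (hc.mono inter_subset_left)
    · intro hc
      rw [hA1]
      exact col_biUnion hU (pm_dist _) t _ fun x hx =>
        (h x (ht x hx) _ inter_subset_right d).2 (hc.mono (image_mono inter_subset_left))
  unfold nagataDim
  simp only [key]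

end LocP

/-- the theorem from the packages -/
theorem main_of (hU : S_Union) (hQS : S_QS) (hA : S_CoverA) (hB : S_CoverB) (hN : S_Normal)
    (hL : S_Lift) (hM : S_Master) (hP : S_Pack) (hG : S_Geo) (hLi : S_Light)
    (hO : ∀ n, 1 ≤ n → ∀ Ω f G K, QR n Ω f G K → Light Ω f → OpenOn Ω f)
    (n : ℕ) (hn : 2 ≤ n) (Ω : Set (E n)) (hΩ : IsOpen Ω) (hc : IsConnected Ω) (f : E n → E n)
    (hf : IsQuasiregular Ω f) (hnc : ∃ x ∈ Ω, ∃ y ∈ Ω, f x ≠ f y) (A : Set (E n))
    (hAc : IsCompact (closure A)) (hAΩ : closure A ⊆ Ω) : nagataDim A = nagataDim (f '' A) := by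
  obtain ⟨hcont, G, K, hK, hw, hp, hd⟩ := hf
  have h : QR n Ω f G K := ⟨hΩ, hcont, hw, fun S hS hSc => (hp S hS hSc).2, hK, hd⟩
  have hl := hLi n hn Ω f G K h hc.isPreconnected hnc
  have ho := hO n (by omega) Ω f G K h hl
  exact LocP.glob hU hAc fun x₀ hx₀ => LocP.loc hQS hA hB hN hL hM hP hG hn h hl ho (hAΩ hx₀)

end Pool.Agent.P.MP_05ee19_an
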