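import Pool.Agent.P.MP_05ee19_an.Basic

/-!
An oscillation bound of Loewner type.
-/

open MeasureTheory Set Metric Filter Topology

namespace Pool.Agent.P.MP_05ee19_an

namespace LoewP

variable {n : ℕ}

/-- a thick set contains a point where all small balls have small mass -/
lemma good_pt (ν : Measure (E n)) {x : E n} {r l β : ℝ} (hβ : 0 < β) {S : Set (E n)}
    (hS : S ⊆ closedBall x r) (hT : Thick S l)
    (hν : ν (closedBall x (2 * r)) < ENNReal.ofReal (β / 10 * l)) :
    ∃ z ∈ S, ∀ t, 0 < t → t ≤ r → ν (closedBall z t) ≤ ENNReal.ofReal (β * t) := by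
  by_contra hc
  push Not at hc
  choose! t ht0 htr hlt using hc
  obtain ⟨q, a, hq⟩ := hT
  obtain ⟨u, huS, hdis, hcov⟩ := Vitali.exists_disjoint_subfamily_covering_enlargement_closedBall
    S (fun z => z) t r htr 5 (by norm_num)
  have hcount : u.Countable := hdis.countable_of_nonempty_interior fun z hz =>
    ⟨z, ball_subset_interior_closedBall (mem_ball_self (ht0 z (huS hz)))⟩
  have h1 : Icc a (a + l) ⊆ ⋃ b ∈ u, closedBall (dist b q) (5 * t b) := by
    intro s hs
    obtain ⟨z, hz, rfl⟩ := hq s hs
    obtain ⟨b, hb, h⟩ := hcov z hz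
    refine mem_biUnion hb ?_
    have h2 : dist z b ≤ 5 * t b := h (mem_closedBall_self (ht0 z hz).le)
    exact (dist_dist_dist_le_left z b q).trans h2
  have h2 : ENNReal.ofReal l ≤ ∑' b : u, ENNReal.ofReal (2 * (5 * t b)) := by
    have := (measure_mono (μ := volume) h1).trans (measure_biUnion_le volume hcount _)
    simpa only [Real.volume_Icc, add_sub_cancel_left, Real.volume_closedBall] using this
  have h3 : ∑' b : u, ν (closedBall (b : E n) (t b)) ≤ ν (closedBall x (2 * r)) := by
    rw [← measure_biUnion hcount hdis fun _ _ => measurableSet_closedBall]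
    refine measure_mono (iUnion₂_subset fun b hb => closedBall_subset_closedBall' ?_)
    have h4 : dist b x ≤ r := hS (huS hb)
    have := htr b (huS hb)
    linarith
  refine absurd hν (not_lt.2 (le_trans ?_ h3))
  rw [ENNReal.ofReal_mul (by positivity)]
  refine (mul_le_mul_right h2 _).trans ?_
  rw [← ENNReal.tsum_mul_left]
  refine ENNReal.tsum_le_tsum fun b => ?_
  rw [← ENNReal.ofReal_mul (by positivity)]
  refine le_trans (le_of_eq ?_) (hlt b (huS b.2)).le
  congr 1
  ring

lemma change (F : E n → ℝ) (z : E n) {t : ℝ} (ht : 0 < t) :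
    ∫ w in closedBall (0 : E n) 1, F (z + t • w) = (t ^ n)⁻¹ * ∫ y in closedBall z t, F y := by
  have h1 := Measure.setIntegral_comp_smul_of_pos volume (fun y : E n => F (z + y))
    (closedBall (0 : E n) 1) ht
  rw [smul_unitClosedBall_of_nonneg ht.le, finrank_euclideanSpace_fin, smul_eq_mul] at h1
  rw [h1, ← (measurePreserving_add_left volume z).setIntegral_preimage_emb
    (measurableEmbedding_addLeft z) F (closedBall z t)]
  simp

lemma inner (hn : 1 ≤ n) {F : E n → ℝ} (hF : Continuous F) (h0 : ∀ y, 0 ≤ F y) (z : E n) {t lam : ℝ}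
    (ht : 0 < t) (hl : 0 < lam) :
    ∫ w in closedBall (0 : E n) 1, F (z + t • w) ≤
      lam * volume.real (closedBall (0 : E n) 1) +
        (t ^ n)⁻¹ * (∫ y in closedBall z t, F y ^ n) / lam ^ (n - 1) := by
  have hc : Continuous fun w : E n => F (z + t • w) := hF.comp (by fun_prop)
  have i1 := hc.continuousOn.integrableOn_compact (μ := volume) (isCompact_closedBall (0 : E n) 1)
  have i2 := ((hc.pow n).div_const (lam ^ (n - 1))).continuousOn.integrableOn_compact
    (μ := volume) (isCompact_closedBall (0 : E n) 1)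
  have i3 : IntegrableOn (fun _ : E n => lam) (closedBall (0 : E n) 1) :=
    continuousOn_const.integrableOn_compact (isCompact_closedBall _ _)
  have h1 := integral_mono i1 (i3.add i2) fun w => by
    simpa using young_pow hn zero_le_one (h0 (z + t • w)) hl
  refine h1.trans (le_of_eq ?_)
  rw [integral_add' i3 i2, integral_div, setIntegral_const, smul_eq_mul, mul_comm,
    ← change (fun y => F y ^ n) z ht]
  rfl

lemma path {u : E n → ℝ} (hu : ContDiff ℝ 1 u) {c c' : ℝ → E n} {τ τ' : ℝ → ℝ}
    (hc : ∀ s, HasDerivAt c (c' s) s) (hτ : ∀ s, HasDerivAt τ (τ' s) s) (hc' : Continuous c')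
    (hτ' : Continuous τ') {K : ℝ} (hK : ∀ s, 0 < s → s ≤ 1 → (‖c' s‖ + |τ' s|) *
      ∫ w in closedBall (0 : E n) 1, ‖fderiv ℝ u (c s + τ s • w)‖ ≤ K) :
    |(∫ w in closedBall (0 : E n) 1, u (c 1 + τ 1 • w)) -
      ∫ w in closedBall (0 : E n) 1, u (c 0 + τ 0 • w)| ≤ K := by
  have hD : Continuous (fderiv ℝ u) := hu.continuous_fderiv one_ne_zero
  have hcc : Continuous c := continuous_iff_continuousAt.2 fun s => (hc s).continuousAt
  have hτc : Continuous τ := continuous_iff_continuousAt.2 fun s => (hτ s).continuousAt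
  have huc := hu.continuous
  set H : ℝ → E n → ℝ := fun s w => fderiv ℝ u (c s + τ s • w) (c' s + τ' s • w) with hH
  have hHc : Continuous (Function.uncurry H) := by
    have h1 : Continuous fun p : ℝ × E n => fderiv ℝ u (c p.1 + τ p.1 • p.2) := hD.comp (by fun_prop)
    exact h1.clm_apply (by fun_prop)
  have h1 : ∀ w, ∫ s in (0 : ℝ)..1, H s w = u (c 1 + τ 1 • w) - u (c 0 + τ 0 • w) := fun w => by
    refine intervalIntegral.integral_eq_sub_of_hasDerivAt
      (f := fun s => u (c s + τ s • w)) (fun s _ => ?_) ?_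
    · exact (hu.differentiable one_ne_zero _).hasFDerivAt.comp_hasDerivAt s
        ((hc s).add ((hτ s).smul_const w))
    · exact (hHc.comp (Continuous.prodMk_left w)).intervalIntegrable _ _
  have h2 : Integrable (Function.uncurry H) ((volume.restrict (uIoc (0 : ℝ) 1)).prod
      (volume.restrict (closedBall (0 : E n) 1))) := by
    rw [Measure.prod_restrict]
    refine (hHc.continuousOn.integrableOn_compact
      ((isCompact_uIcc (a := (0 : ℝ)) (b := 1)).prod (isCompact_closedBall (0 : E n) 1))).mono_set ?_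
    exact prod_mono uIoc_subset_uIcc le_rfl
  have i : ∀ s, IntegrableOn (fun w : E n => u (c s + τ s • w)) (closedBall (0 : E n) 1) := fun s =>
    (huc.comp (by fun_prop)).continuousOn.integrableOn_compact (isCompact_closedBall _ _)
  rw [← integral_sub (i 1) (i 0)]
  simp only [← h1]
  rw [← intervalIntegral_integral_swap h2, ← Real.norm_eq_abs]
  refine (intervalIntegral.norm_integral_le_of_norm_le_const (C := K) fun s hs => ?_).trans
    (by simp)
  rw [uIoc_of_le zero_le_one] at hs
  refine le_trans ?_ (hK s hs.1 hs.2)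
  rw [← integral_const_mul]
  have h3 : Continuous fun w : E n => ‖fderiv ℝ u (c s + τ s • w)‖ := (hD.comp (by fun_prop)).norm
  refine norm_integral_le_of_norm_le ((continuous_const.mul h3).continuousOn.integrableOn_compact
    (isCompact_closedBall _ _)) ?_
  refine (ae_restrict_iff' measurableSet_closedBall).2 (Eventually.of_forall fun w hw => ?_)
  refine (ContinuousLinearMap.le_opNorm _ _).trans ?_
  rw [mul_comm]
  refine mul_le_mul_of_nonneg_right ((norm_add_le _ _).trans (add_le_add le_rfl ?_)) (norm_nonneg _)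
  rw [norm_smul, Real.norm_eq_abs]
  exact mul_le_of_le_one_right (abs_nonneg _) (mem_closedBall_zero_iff.1 hw)

lemma radial (hn : 1 ≤ n) {u : E n → ℝ} (hu : ContDiff ℝ 1 u) (z : E n) {r β κ : ℝ} (hr : 0 < r)
    (hκ : 0 < κ) (h : ∀ t, 0 < t → t ≤ r →
      ∫ y in closedBall z t, ‖fderiv ℝ u y‖ ^ n ≤ β * t) :
    |(∫ w in closedBall (0 : E n) 1, u (z + r • w)) - volume.real (closedBall (0 : E n) 1) * u z| ≤
      n * (κ * volume.real (closedBall (0 : E n) 1) + β * r / κ ^ (n - 1)) := by
  obtain ⟨m, rfl⟩ : ∃ m, n = m + 1 := ⟨n - 1, by omega⟩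
  have hD : Continuous (fderiv ℝ u) := hu.continuous_fderiv one_ne_zero
  have := path hu (c := fun _ => z) (c' := fun _ => 0) (τ := fun s => r * s ^ (m + 1))
    (τ' := fun s => r * (((m + 1 : ℕ) : ℝ) * s ^ m)) (fun s => hasDerivAt_const s z)
    (fun s => by simpa using (hasDerivAt_pow (m + 1) s).const_mul r) continuous_const (by fun_prop)
    (K := ((m + 1 : ℕ) : ℝ) * (κ * volume.real (closedBall (0 : E (m + 1)) 1) +
      β * r / κ ^ (m + 1 - 1))) fun s h0 h1 => by
      have ht : 0 < r * s ^ (m + 1) := by positivity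
      have ht' : r * s ^ (m + 1) ≤ r := mul_le_of_le_one_right hr.le (pow_le_one₀ h0.le h1)
      have h2 := inner hn hD.norm (fun _ => norm_nonneg _) z ht
        (lam := κ / (r * s ^ m)) (by positivity)
      have h3 := h2.trans (add_le_add le_rfl (div_le_div_of_nonneg_right
        (mul_le_mul_of_nonneg_left (h _ ht ht') (by positivity)) (by positivity)))
      rw [norm_zero, zero_add, abs_of_pos (by positivity)]
      refine (mul_le_mul_of_nonneg_left h3 (by positivity)).trans (le_of_eq ?_)
      simp only [Nat.add_sub_cancel, div_pow, mul_pow]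
      field_simp
      ring
  simpa [setIntegral_const] using this

lemma lateral (hn : 1 ≤ n) {u : E n → ℝ} (hu : ContDiff ℝ 1 u) {x z z' : E n} {r N κ : ℝ}
    (hr : 0 < r) (hκ : 0 < κ) (hz : z ∈ closedBall x r) (hz' : z' ∈ closedBall x r)
    (h : ∫ y in closedBall x (2 * r), ‖fderiv ℝ u y‖ ^ n ≤ N) :
    |(∫ w in closedBall (0 : E n) 1, u (z' + r • w)) -
      ∫ w in closedBall (0 : E n) 1, u (z + r • w)| ≤
      2 * (κ * volume.real (closedBall (0 : E n) 1) + N / κ ^ (n - 1)) := by
  obtain ⟨m, rfl⟩ : ∃ m, n = m + 1 := ⟨n - 1, by omega⟩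
  have hD : Continuous (fderiv ℝ u) := hu.continuous_fderiv one_ne_zero
  have := path hu (c := fun s => z + s • (z' - z)) (c' := fun _ => z' - z) (τ := fun _ => r)
    (τ' := fun _ => 0)
    (fun s => by simpa using ((hasDerivAt_id s).smul_const (z' - z)).const_add z)
    (fun s => hasDerivAt_const s r) continuous_const continuous_const
    (K := 2 * (κ * volume.real (closedBall (0 : E (m + 1)) 1) + N / κ ^ (m + 1 - 1)))
    fun s h0 h1 => by
      have h2 := inner hn hD.norm (fun _ => norm_nonneg _) (z + s • (z' - z)) hr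
        (lam := κ / r) (by positivity)
      have hm : z + s • (z' - z) ∈ closedBall x r :=
        (convex_closedBall x r).add_smul_sub_mem hz hz' ⟨h0.le, h1⟩
      have h4 : ∫ y in closedBall (z + s • (z' - z)) r, ‖fderiv ℝ u y‖ ^ (m + 1) ≤ N := by
        refine le_trans (setIntegral_mono_set
          ((hD.norm.pow _).continuousOn.integrableOn_compact (isCompact_closedBall _ _))
          (Eventually.of_forall fun _ => by positivity)
          (closedBall_subset_closedBall' ?_).eventuallyLE) h
        have : dist (z + s • (z' - z)) x ≤ r := hm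
        linarith
      have h3 := h2.trans (add_le_add le_rfl (div_le_div_of_nonneg_right
        (mul_le_mul_of_nonneg_left h4 (by positivity)) (by positivity)))
      have h5 : ‖z' - z‖ ≤ 2 * r := by
        rw [← dist_eq_norm]
        have := dist_triangle_right z' z x
        have k1 : dist z' x ≤ r := hz'
        have k2 : dist z x ≤ r := hz
        linarith
      rw [abs_zero, add_zero]
      refine (mul_le_mul h5 h3 (integral_nonneg fun _ => norm_nonneg _) (by positivity)).trans
        (le_of_eq ?_)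
      simp only [Nat.add_sub_cancel, div_pow]
      field_simp
      ring
  simpa using this

end LoewP

open LoewP

theorem loewC1 : S_LoewC1 := by
  intro n hn θ hθ
  set om := volume.real (closedBall (0 : E n) 1) with hom
  have om0 : 0 < om := ENNReal.toReal_pos (measure_closedBall_pos volume _ one_pos).ne'
    measure_closedBall_lt_top.ne
  set c := (2 * (n * (om + 10 / θ)) + 2 * (om + 1)) / om with hc
  have c0 : 0 < c := by positivity
  refine ⟨c ^ n, by positivity, fun u hu x r hr S T hS hT tS tT a M hM ha hb => ?_⟩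
  have hD : Continuous fun y => ‖fderiv ℝ u y‖ ^ n := (hu.continuous_fderiv one_ne_zero).norm.pow n
  set N := ∫ y in closedBall x (2 * r), ‖fderiv ℝ u y‖ ^ n with hN
  have N0 : 0 ≤ N := integral_nonneg fun _ => by positivity
  set ν : Measure (E n) := volume.withDensity fun y => ENNReal.ofReal (‖fderiv ℝ u y‖ ^ n) with hν
  have hνb : ∀ z t, ν (closedBall z t) =
      ENNReal.ofReal (∫ y in closedBall z t, ‖fderiv ℝ u y‖ ^ n) := fun z t => by
    rw [hν, withDensity_apply _ measurableSet_closedBall, ofReal_integral_eq_lintegral_ofReal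
      (hD.continuousOn.integrableOn_compact (isCompact_closedBall _ _))
      (Eventually.of_forall fun _ => by positivity)]
  have key : ∀ κ : ℝ, 0 < κ → N < κ ^ n → M ≤ c * κ := by
    intro κ hκ hlt
    have hβ : 0 < 10 * κ ^ n / (θ * r) := by positivity
    have good : ∀ U ⊆ closedBall x r, Thick U (θ * r) → ∃ z ∈ U,
        |(∫ w in closedBall (0 : E n) 1, u (z + r • w)) - om * u z| ≤
          n * (om + 10 / θ) * κ := fun U hU tU => by
      obtain ⟨z, hz, h⟩ := good_pt ν hβ hU tU (by
        rw [hνb, ENNReal.ofReal_lt_ofReal_iff (by positivity)]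
        refine hlt.trans_le (le_of_eq ?_)
        field_simp)
      refine ⟨z, hz, (radial hn hu z hr hκ (β := 10 * κ ^ n / (θ * r)) fun t h0 h1 => ?_).trans
        (le_of_eq ?_)⟩
      · have := h t h0 h1
        rwa [hνb, ENNReal.ofReal_le_ofReal_iff (by positivity)] at this
      · obtain ⟨m, rfl⟩ : ∃ m, n = m + 1 := ⟨n - 1, by omega⟩
        simp only [Nat.add_sub_cancel, ← hom]
        field_simp
        ring
    obtain ⟨z, hz, h1⟩ := good S hS tS
    obtain ⟨z', hz', h2⟩ := good T hT tT
    have h3 := lateral hn hu hr hκ (hS hz) (hT hz') hlt.le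
    have h4 : κ ^ n / κ ^ (n - 1) = κ := by
      obtain ⟨m, rfl⟩ : ∃ m, n = m + 1 := ⟨n - 1, by omega⟩
      simp only [Nat.add_sub_cancel]
      field_simp
      ring
    rw [h4, ← hom] at h3
    have h5 := mul_le_mul_of_nonneg_left (ha z hz) om0.le
    have h6 := mul_le_mul_of_nonneg_left (hb z' hz') om0.le
    rw [hc, div_mul_eq_mul_div, le_div_iff₀ om0]
    have := abs_le.1 h1
    have := abs_le.1 h2
    have := abs_le.1 h3
    linarith
  refine le_of_forall_pos_le_add fun η hη => ?_
  have h0 : 0 < N + η / c ^ n := by positivity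
  have h1 : ((N + η / c ^ n) ^ ((n : ℝ)⁻¹)) ^ n = N + η / c ^ n :=
    Real.rpow_inv_natCast_pow h0.le (by omega)
  have h2 := key _ (Real.rpow_pos_of_pos h0 _) (by
    rw [h1]
    exact lt_add_of_pos_right _ (by positivity))
  refine (pow_le_pow_left₀ hM h2 n).trans (le_of_eq ?_)
  rw [mul_pow, h1]
  field_simp

theorem loew (h1 : S_Moll) (h2 : S_LoewC1) : S_Loew := by
  intro n hn θ hθ
  obtain ⟨C, hC, h2⟩ := h2 n hn θ hθ
  refine ⟨C, hC, fun Ω f G K hq ψ hψ x r hr hΩ S T hS hT tS tT a M hM ha hb => ?_⟩
  have hcpt := isCompact_closedBall x (2 * r)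
  obtain ⟨g, hg, hu, hΦ⟩ := h1 n hn Ω f G K hq _ hΩ hcpt
  have hD : Continuous (fderiv ℝ ψ) := hψ.continuous_fderiv one_ne_zero
  have hlim := hΦ (fun p => ‖fderiv ℝ ψ p.2.1‖ ^ n * ‖p.2.2‖ ^ n) (by fun_prop) fun R => by
    obtain ⟨B, hB⟩ := (isCompact_closedBall (0 : E n) R).exists_bound_of_continuousOn hD.continuousOn
    refine ⟨|B| ^ n, fun z _ y hy A => ?_⟩
    rw [abs_of_nonneg (by positivity)]
    exact mul_le_mul (pow_le_pow_left₀ (norm_nonneg _)
      ((hB y (mem_closedBall_zero_iff.2 hy)).trans (le_abs_self B)) n) (by linarith)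
      (by positivity) (by positivity)
  have hsub : closedBall x r ⊆ closedBall x (2 * r) := closedBall_subset_closedBall (by linarith)
  obtain ⟨B, hB⟩ := hcpt.exists_bound_of_continuousOn (hq.cont.mono hΩ)
  have huc := Metric.uniformContinuousOn_iff.1
    ((isCompact_closedBall (0 : E n) (B + 1)).uniformContinuousOn_of_continuous
      hψ.continuous.continuousOn)
  have key : ∀ ε : ℝ, 0 < ε → 2 * ε ≤ M → (M - 2 * ε) ^ n ≤
      C * ∫ z in closedBall x (2 * r), ‖fderiv ℝ ψ (f z)‖ ^ n * ‖G z‖ ^ n := by
    intro ε hε hεM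
    obtain ⟨δ, hδ, h3⟩ := huc ε hε
    refine ge_of_tendsto (hlim.const_mul C) ?_
    filter_upwards [Metric.tendstoUniformlyOn_iff.1 hu (min δ 1) (by positivity)] with k hk
    have h4 : ∀ z ∈ closedBall x r, |ψ (f z) - ψ (g k z)| < ε := fun z hz => by
      have k1 := hk z (hsub hz)
      have k2 := hB z (hsub hz)
      refine h3 _ (mem_closedBall_zero_iff.2 (by linarith)) _ (mem_closedBall_zero_iff.2 ?_)
        (k1.trans_le (min_le_left _ _))
      have k3 := norm_le_norm_add_norm_sub (f z) (g k z)
      rw [← dist_eq_norm] at k3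
      have := k1.trans_le (min_le_right _ _)
      linarith
    have h5 := h2 (fun z => ψ (g k z)) (hψ.comp (hg k)) x r hr S T hS hT tS tT (a + ε) (M - 2 * ε)
      (by linarith) (fun z hz => by have := abs_lt.1 (h4 z (hS hz)); have := ha z hz; linarith)
      (fun z hz => by have := abs_lt.1 (h4 z (hT hz)); have := hb z hz; linarith)
    refine h5.trans (mul_le_mul_of_nonneg_left ?_ hC)
    have hgc := (hg k).continuous
    have hgD : Continuous (fderiv ℝ (g k)) := (hg k).continuous_fderiv one_ne_zero
    refine integral_mono_of_nonneg (Eventually.of_forall fun _ => by positivity)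
      (ContinuousOn.integrableOn_compact hcpt (Continuous.continuousOn (by fun_prop)))
      (Eventually.of_forall fun z => ?_)
    simp only
    rw [← mul_pow]
    refine pow_le_pow_left₀ (norm_nonneg _) ?_ n
    rw [fderiv_fun_comp z (hψ.differentiable one_ne_zero _) ((hg k).differentiable one_ne_zero _)]
    exact ContinuousLinearMap.opNorm_comp_le _ _
  rcases hM.eq_or_lt with rfl | hM0
  · rw [zero_pow (by omega)]
    exact mul_nonneg hC (integral_nonneg fun _ => by positivity)
  have h6 : Tendsto (fun ε : ℝ => (M - 2 * ε) ^ n) (𝓝[>] 0) (𝓝 (M ^ n)) := by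
    have : Continuous fun ε : ℝ => (M - 2 * ε) ^ n := by fun_prop
    simpa using (this.tendsto 0).mono_left nhdsWithin_le_nhds
  refine le_of_tendsto h6 ?_
  filter_upwards [Ioo_mem_nhdsGT (show (0 : ℝ) < M / 2 by linarith)] with ε hε
  exact key ε hε.1 (by have := hε.2; linarith)

end Pool.Agent.P.MP_05ee19_an
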