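import Pool.Agent.P.MP_05ee19_an.Basic

/-!
The master estimate and the packing estimate for MP_05ee19_an.
-/

open MeasureTheory Set Metric Filter Topology
open scoped RealInnerProductSpace

namespace Pool.Agent.P.MP_05ee19_an

namespace MasterP

/-- energy bound -/
lemma energy {n : ℕ} (hn : 1 ≤ n) {Ω f G K} (hq : QR n Ω f G K) {U : Set (E n)} {y₀ : E n}
    {R : ℝ} (hU : Adm Ω f U y₀ R) {D : ℝ}
    (hD : ∀ φ : E n → ℝ, Continuous φ → HasCompactSupport φ →
      tsupport φ ⊆ ball y₀ R → ∫ x in U, φ (f x) * (G x).det = D * ∫ z, φ z)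
    {φ : E n → ℝ} (hφ : Continuous φ) (hc : HasCompactSupport φ) (hs : tsupport φ ⊆ ball y₀ R)
    (h0 : ∀ y, 0 ≤ φ y) :
    IntegrableOn (fun x => φ (f x) * ‖G x‖ ^ n) U ∧
      ∫ x in U, φ (f x) * ‖G x‖ ^ n ≤ K * D * ∫ z, φ z := by
  obtain ⟨B, hB⟩ := hc.exists_bound_of_continuous hφ
  have hB0 : 0 ≤ B := (norm_nonneg _).trans (hB 0)
  have i1 : IntegrableOn (fun x => φ (f x) * ‖G x‖ ^ n) (closure U) := by
    refine hq.integrableOn hn hU.sub hU.cpt
      (Φ := fun p => φ p.2.1 * ‖p.2.2‖ ^ n) (by fun_prop) ?_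
    intro M
    refine ⟨B, fun x _ y _ A => ?_⟩
    have h1 : |φ y| ≤ B := hB y
    have h2 : 0 ≤ ‖A‖ ^ n := by positivity
    simp only
    rw [abs_mul, abs_of_nonneg h2]
    nlinarith
  have i2 : IntegrableOn (fun x => φ (f x) * (G x).det) (closure U) := by
    refine hq.integrableOn hn hU.sub hU.cpt
      (Φ := fun p => φ p.2.1 * (p.2.2).det)
      ((hφ.comp (continuous_fst.comp continuous_snd)).mul
        (ContinuousLinearMap.continuous_det.comp (continuous_snd.comp continuous_snd))) ?_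
    intro M
    refine ⟨B * n.factorial, fun x _ y _ A => ?_⟩
    have h1 : |φ y| ≤ B := hB y
    have h2 : 0 ≤ ‖A‖ ^ n := by positivity
    have h3 := abs_det_le A
    have h4 : (0 : ℝ) ≤ n.factorial := by positivity
    simp only
    rw [abs_mul]
    calc |φ y| * |A.det| ≤ B * ((n.factorial : ℝ) * ‖A‖ ^ n) :=
          mul_le_mul h1 h3 (abs_nonneg _) hB0
      _ ≤ B * n.factorial * (1 + ‖A‖ ^ n) := by
          have := mul_nonneg hB0 h4
          nlinarith
  have j1 := i1.mono_set (subset_closure (s := U))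
  have j2 := i2.mono_set (subset_closure (s := U))
  refine ⟨j1, ?_⟩
  have hdil : ∀ᵐ x ∂(volume.restrict U), ‖G x‖ ^ n ≤ K * (G x).det :=
    ae_restrict_of_ae_restrict_of_subset (subset_closure.trans hU.sub) hq.dil
  calc ∫ x in U, φ (f x) * ‖G x‖ ^ n ≤ ∫ x in U, K * (φ (f x) * (G x).det) := by
        refine integral_mono_ae j1 (j2.const_mul K) ?_
        filter_upwards [hdil] with x hx
        have := mul_le_mul_of_nonneg_left hx (h0 (f x))
        linarith
    _ = K * D * ∫ z, φ z := by rw [integral_const_mul, hD φ hφ hc hs, mul_assoc]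

/-- the distance to a point has no local maximum away from the point -/
lemma nomax_norm {n : ℕ} (e : E n) {t : ℝ} (ht : 0 ≤ t) (y : E n) (hy : t < ‖y - e‖) (R : ℝ)
    (hR : 0 < R) : ∃ y' ∈ ball y R, ‖y - e‖ < ‖y' - e‖ := by
  have hp : 0 < ‖y - e‖ := lt_of_le_of_lt ht hy
  set l := R / (2 * ‖y - e‖) with hl
  have hl0 : 0 < l := by positivity
  have e1 : l * ‖y - e‖ = R / 2 := by rw [hl]; field_simp
  refine ⟨y + l • (y - e), ?_, ?_⟩
  · rw [mem_ball, dist_eq_norm, add_sub_cancel_left, norm_smul, Real.norm_of_nonneg hl0.le, e1]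
    linarith
  · have : y + l • (y - e) - e = (1 + l) • (y - e) := by rw [add_smul, one_smul]; abel
    rw [this, norm_smul, Real.norm_of_nonneg (by linarith), add_mul, e1]
    linarith

/-- a nonzero linear form has no local maximum -/
lemma nomax_inner {n : ℕ} {v : E n} (hv : ‖v‖ = 1) (y : E n) (R : ℝ) (hR : 0 < R) :
    ∃ y' ∈ ball y R, ⟪v, y⟫ < ⟪v, y'⟫ := by
  refine ⟨y + (R / 2) • v, ?_, ?_⟩
  · rw [mem_ball, dist_eq_norm, add_sub_cancel_left, norm_smul, hv,
      Real.norm_of_nonneg (by linarith)]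
    linarith
  · rw [inner_add_right, inner_smul_right, real_inner_self_eq_norm_sq, hv]
    linarith

end MasterP

open MasterP

theorem master (h1 : S_Deg) (h2 : S_Loew) (h3 : S_Cap) (h4 : S_MaxP) : S_Master := by
  intro n hn Ω f G K hq hop U y₀ R hU
  have hn1 : 1 ≤ n := by omega
  obtain ⟨D, hD0, hD⟩ := h1 n hn1 Ω f G K hq U y₀ R hU
  obtain ⟨CL, hCL0, hCL⟩ := h2 n hn1 (1 / 4) (by norm_num)
  obtain ⟨Cc, hCc0, hCc⟩ := h3 n hn1
  have hK0 : 0 ≤ K := zero_le_one.trans hq.K1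
  obtain ⟨k, hk⟩ := exists_nat_gt (CL * (K * D * Cc))
  have hA0 : 0 ≤ CL * (K * D * Cc) := by positivity
  have hk0 : (0 : ℝ) < k := lt_of_le_of_lt hA0 hk
  have hk1 : (1 : ℝ) ≤ k := by
    have : 0 < k := by exact_mod_cast hk0
    exact_mod_cast this
  refine ⟨2 ^ k, one_le_pow₀ one_le_two, ?_⟩
  intro x r hr hB e he a ha S hS hST hSa w hw
  by_contra hlt
  push Not at hlt
  set t := (2 : ℝ) ^ k * a with ht
  have ht0 : 0 < t := by positivity
  have hUΩ : U ⊆ Ω := subset_closure.trans hU.sub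
  have hBU : closedBall x (2 * r) ⊆ U := fun z hz => (hB hz).1
  have hsub : closedBall x r ⊆ closedBall x (2 * r) := closedBall_subset_closedBall (by linarith)
  have hw2 : w ∈ closedBall x (2 * r) := closedBall_subset_closedBall (by linarith) hw
  have hfw : dist (f w) y₀ < R / 8 := (hB hw2).2
  have he' : dist e y₀ < R / 8 := he
  have htR : t < R / 4 := by
    have := dist_triangle_right (f w) e y₀
    rw [dist_eq_norm] at this
    linarith
  have hT := h4 n Ω f hq.cont hop (fun y => ‖y - e‖) t (by fun_prop)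
    (fun y hy R hR => nomax_norm e ht0.le y hy R hR) x r hr
    (hsub.trans (hBU.trans hUΩ)) w hw hlt
  obtain ⟨ψ, hψ, hψ0, hψk, hψs, hψi⟩ := hCc e a k ha
  have hL := hCL Ω f G K hq ψ hψ x r hr (hBU.trans hUΩ) S _ hS (fun z hz => hz.1) hST hT 0 k
    hk0.le (fun z hz => hψ0 _ (hSa z hz)) (fun z hz => by
      rw [zero_add]; exact hψk _ hz.2)
  have hφ : Continuous fun y => ‖fderiv ℝ ψ y‖ ^ n :=
    (hψ.continuous_fderiv one_ne_zero).norm.pow n
  have hsupp : tsupport (fun y => ‖fderiv ℝ ψ y‖ ^ n) ⊆ closedBall e t := by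
    refine Subset.trans (closure_mono ?_) hψs
    intro y hy h0
    apply hy
    simp only [h0, norm_zero]
    exact zero_pow (by omega)
  have hc : HasCompactSupport fun y => ‖fderiv ℝ ψ y‖ ^ n :=
    (isCompact_closedBall e t).of_isClosed_subset (isClosed_tsupport _) hsupp
  have hs : tsupport (fun y => ‖fderiv ℝ ψ y‖ ^ n) ⊆ ball y₀ R := by
    intro y hy
    have h5 : dist y e ≤ t := hsupp hy
    have h6 := dist_triangle y e y₀
    have h7 : 0 ≤ dist e y₀ := dist_nonneg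
    rw [mem_ball]
    linarith
  obtain ⟨i1, i2⟩ := energy hn1 hq hU hD hφ hc hs (fun y => by positivity)
  have i3 : ∫ z in closedBall x (2 * r), ‖fderiv ℝ ψ (f z)‖ ^ n * ‖G z‖ ^ n ≤
      ∫ z in U, ‖fderiv ℝ ψ (f z)‖ ^ n * ‖G z‖ ^ n :=
    setIntegral_mono_set i1 (ae_of_all _ fun z => by positivity) hBU.eventuallyLE
  have i4 : K * D * ∫ y, ‖fderiv ℝ ψ y‖ ^ n ≤ K * D * (Cc * k) :=
    mul_le_mul_of_nonneg_left hψi (mul_nonneg hK0 hD0)
  have i5 : (k : ℝ) ^ n ≤ CL * (K * D * (Cc * k)) :=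
    hL.trans (mul_le_mul_of_nonneg_left (i3.trans (i2.trans i4)) hCL0)
  have i6 : (k : ℝ) ^ 2 ≤ (k : ℝ) ^ n := pow_le_pow_right₀ hk1 hn
  have i7 : CL * (K * D * Cc) * k < k * k := mul_lt_mul_of_pos_right hk hk0
  nlinarith

/-- one ball of the packing estimate -/
lemma MasterP.one_ball (h4 : S_MaxP) {n : ℕ} (hn : 1 ≤ n) {Ω f G K} (hq : QR n Ω f G K)
    (hop : OpenOn Ω f) {CL : ℝ} (hCL0 : 0 ≤ CL)
    (hCL : ∀ (ψ : E n → ℝ), ContDiff ℝ 1 ψ →
      ∀ (x : E n) (r : ℝ), 0 < r → closedBall x (2 * r) ⊆ Ω →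
      ∀ S T : Set (E n), S ⊆ closedBall x r → T ⊆ closedBall x r →
      Thick S (1 / 4 * r) → Thick T (1 / 4 * r) → ∀ a M : ℝ, 0 ≤ M → (∀ z ∈ S, ψ (f z) ≤ a) →
      (∀ z ∈ T, a + M ≤ ψ (f z)) →
      M ^ n ≤ CL * ∫ z in closedBall x (2 * r), ‖fderiv ℝ ψ (f z)‖ ^ n * ‖G z‖ ^ n)
    {c w : E n} {ρ : ℝ} (hρ : 0 < ρ) (hB : closedBall c (2 * ρ) ⊆ Ω)
    (hw : w ∈ closedBall c (ρ / 2)) :
    ‖f w - f c‖ ^ n ≤ 3 ^ n * CL * ∫ z in closedBall c (2 * ρ), ‖G z‖ ^ n := by
  have hI : 0 ≤ ∫ z in closedBall c (2 * ρ), ‖G z‖ ^ n :=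
    integral_nonneg fun z => by positivity
  set M := ‖f w - f c‖ with hM
  rcases (norm_nonneg (f w - f c)).eq_or_lt with h0 | h0
  · rw [hM, ← h0, zero_pow (by omega)]
    positivity
  rw [← hM] at h0
  set v : E n := M⁻¹ • (f w - f c) with hv
  have hv1 : ‖v‖ = 1 := by
    rw [hv, norm_smul, norm_inv, Real.norm_of_nonneg h0.le, ← hM, inv_mul_cancel₀ h0.ne']
  have hvM : ⟪v, f w⟫ - ⟪v, f c⟫ = M := by
    rw [← inner_sub_right, hv, real_inner_smul_left, real_inner_self_eq_norm_sq, ← hM]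
    field_simp
  have hsub : closedBall c ρ ⊆ Ω := (closedBall_subset_closedBall (by linarith)).trans hB
  have hT := h4 n Ω f hq.cont hop (fun y => ⟪v, y⟫) (⟪v, f c⟫ + 2 * M / 3) (by fun_prop)
    (fun y _ R hR => nomax_inner hv1 y R hR) c ρ hρ hsub w hw (by linarith)
  have hS := h4 n Ω f hq.cont hop (fun y => ⟪-v, y⟫) (-⟪v, f c⟫ - M / 3) (by fun_prop)
    (fun y _ R hR => nomax_inner (by rw [norm_neg, hv1]) y R hR) c ρ hρ hsub c
    (mem_closedBall_self (by linarith)) (by simp only [inner_neg_left]; linarith)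
  have hL := hCL (innerSL ℝ v) (innerSL ℝ v).contDiff c ρ hρ hB _ _ (fun z hz => hz.1)
    (fun z hz => hz.1) hS hT (⟪v, f c⟫ + M / 3) (M / 3) (by linarith)
    (fun z hz => by
      have := hz.2
      simp only [inner_neg_left] at this
      simp only [innerSL_apply_apply]
      linarith)
    (fun z hz => by
      have := hz.2
      simp only [innerSL_apply_apply]
      linarith)
  simp only [ContinuousLinearMap.fderiv, innerSL_apply_norm, hv1, one_pow, one_mul] at hL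
  have e1 : M ^ n = 3 ^ n * (M / 3) ^ n := by rw [← mul_pow]; congr 1; ring
  rw [e1, mul_assoc]
  exact mul_le_mul_of_nonneg_left hL (by positivity)

theorem pack (h1 : S_Deg) (h2 : S_Loew) (h4 : S_MaxP) : S_Pack := by
  intro n hn Ω f G K hq hop U y₀ R hU
  obtain ⟨D, hD0, hD⟩ := h1 n hn Ω f G K hq U y₀ R hU
  obtain ⟨CL, hCL0, hCL⟩ := h2 n hn (1 / 4) (by norm_num)
  have hK0 : 0 ≤ K := zero_le_one.trans hq.K1
  set om := (volume : Measure (E n)).real (ball 0 1) with hom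
  have hom0 : 0 ≤ om := measureReal_nonneg
  refine ⟨3 ^ n * CL * (K * D * (2 ^ n * om)), by positivity, ?_⟩
  intro ι I c w ρ y hy s hs hsR hρ hBU hfs hw hdisj
  have hUΩ : U ⊆ Ω := subset_closure.trans hU.sub
  let φ : ContDiffBump y := ⟨s, 2 * s, hs, by linarith⟩
  have hsupp : tsupport φ ⊆ ball y₀ R := by
    rw [φ.tsupport_eq]
    intro z hz
    have h5 : dist z y ≤ 2 * s := hz
    have h6 := dist_triangle z y y₀
    have h7 : dist y y₀ < R / 8 := hy
    rw [mem_ball]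
    linarith
  obtain ⟨i1, i2⟩ := energy hn hq hU hD φ.continuous φ.hasCompactSupport hsupp
    (fun z => φ.nonneg)
  have i3 : ∫ z, φ z ≤ 2 ^ n * om * s ^ n := by
    have := φ.integral_le_measure_closedBall (volume : Measure (E n))
    rw [Measure.addHaar_real_closedBall _ _ φ.rOut_pos.le, finrank_euclideanSpace_fin,
      ← hom] at this
    refine this.trans (le_of_eq ?_)
    show (2 * s) ^ n * om = _
    rw [mul_pow]; ring
  have i4 : ∀ i ∈ I, ‖f (w i) - f (c i)‖ ^ n ≤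
      3 ^ n * CL * ∫ z in closedBall (c i) (2 * ρ i), φ (f z) * ‖G z‖ ^ n := by
    intro i hi
    have := one_ball h4 hn hq hop hCL0 (hCL Ω f G K hq) (hρ i hi) ((hBU i hi).trans hUΩ) (hw i hi)
    refine this.trans (le_of_eq ?_)
    congr 1
    refine setIntegral_congr_fun measurableSet_closedBall fun z hz => ?_
    have : φ (f z) = 1 := φ.one_of_mem_closedBall (by
      rw [mem_closedBall, dist_eq_norm]; exact hfs i hi z hz)
    simp only [this, one_mul]
  have i5 : ∑ i ∈ I, ∫ z in closedBall (c i) (2 * ρ i), φ (f z) * ‖G z‖ ^ n ≤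
      ∫ z in U, φ (f z) * ‖G z‖ ^ n := by
    rw [← integral_biUnion_finset I (fun i _ => measurableSet_closedBall)
      (fun i hi j hj hij => hdisj i hi j hj hij) (fun i hi => i1.mono_set (hBU i hi))]
    refine setIntegral_mono_set i1 (ae_of_all _ fun z => ?_) (LE.le.eventuallyLE ?_)
    · exact mul_nonneg φ.nonneg (by positivity)
    · exact iUnion₂_subset hBU
  have h3 : (0 : ℝ) ≤ 3 ^ n * CL := by positivity
  calc ∑ i ∈ I, ‖f (w i) - f (c i)‖ ^ n
      ≤ ∑ i ∈ I, 3 ^ n * CL * ∫ z in closedBall (c i) (2 * ρ i), φ (f z) * ‖G z‖ ^ n :=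
        Finset.sum_le_sum i4
    _ = 3 ^ n * CL * ∑ i ∈ I, ∫ z in closedBall (c i) (2 * ρ i), φ (f z) * ‖G z‖ ^ n := by
        rw [Finset.mul_sum]
    _ ≤ 3 ^ n * CL * (K * D * (2 ^ n * om * s ^ n)) := by
        refine mul_le_mul_of_nonneg_left (i5.trans (i2.trans ?_)) h3
        exact mul_le_mul_of_nonneg_left i3 (mul_nonneg hK0 hD0)
    _ = _ := by ring

end Pool.Agent.P.MP_05ee19_an
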