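import Pool.Agent.P.MP_05ee19_an.Basic

/-!
Mollification of a quasiregular map and generalised dominated convergence.
-/

open MeasureTheory Set Metric Filter Topology ContinuousLinearMap
open scoped Convolution ContDiff

namespace Pool.Agent.P.MP_05ee19_an

namespace MollP

lemma scheffe {α : Type} [MeasurableSpace α] {μ : Measure α} {h : ℕ → α → ℝ} {H : α → ℝ}
    (hi : ∀ k, Integrable (h k) μ) (Hi : Integrable H μ) (h0 : ∀ k x, 0 ≤ h k x)
    (H0 : ∀ x, 0 ≤ H x) (hl : ∀ᵐ x ∂μ, Tendsto (fun k => h k x) atTop (𝓝 (H x)))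
    (he : ∀ k, ∫ x, h k x ∂μ = ∫ x, H x ∂μ) :
    Tendsto (fun k => ∫ x, |h k x - H x| ∂μ) atTop (𝓝 0) := by
  have h1 : Tendsto (fun k => ∫ x, max (H x - h k x) 0 ∂μ) atTop (𝓝 (∫ _x, (0 : ℝ) ∂μ)) := by
    refine tendsto_integral_of_dominated_convergence H (fun k => ?_) Hi (fun k => ?_) ?_
    · exact ((Hi.sub (hi k)).pos_part).aestronglyMeasurable
    · refine Eventually.of_forall fun x => ?_
      rw [Real.norm_of_nonneg (le_max_right _ _)]
      exact max_le (by linarith [h0 k x]) (H0 x)
    · filter_upwards [hl] with x hx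
      have := ((tendsto_const_nhds (x := H x)).sub hx).max (tendsto_const_nhds (x := (0 : ℝ)))
      simpa using this
  have h2 := h1.const_mul 2
  simp only [integral_zero, mul_zero] at h2
  refine h2.congr fun k => ?_
  have e : ∀ x, |h k x - H x| = (h k x - H x) + 2 * max (H x - h k x) 0 := by
    intro x
    rcases le_total (h k x) (H x) with hx | hx
    · rw [abs_of_nonpos (by linarith), max_eq_left (by linarith)]; ring
    · rw [abs_of_nonneg (by linarith), max_eq_right (by linarith)]; ring
  simp only [e]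
  have i1 : Integrable (fun x => h k x - H x) μ := (hi k).sub Hi
  have i2 : Integrable (fun x => 2 * max (H x - h k x) 0) μ :=
    ((Hi.sub (hi k)).pos_part).const_mul 2
  rw [integral_add i1 i2, integral_sub (hi k) Hi, he k, sub_self, zero_add, integral_const_mul]

lemma gdct {α : Type} [MeasurableSpace α] {μ : Measure α} {u h : ℕ → α → ℝ} {U H : α → ℝ}
    (ui : ∀ k, Integrable (u k) μ) (hi : ∀ k, Integrable (h k) μ) (Hi : Integrable H μ)
    (hb : ∀ᶠ k in atTop, ∀ᵐ x ∂μ, |u k x| ≤ h k x) (Hb : ∀ᵐ x ∂μ, |U x| ≤ H x)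
    (hl : ∀ᵐ x ∂μ, Tendsto (fun k => u k x) atTop (𝓝 (U x)))
    (hL : Tendsto (fun k => ∫ x, |h k x - H x| ∂μ) atTop (𝓝 0)) :
    Tendsto (fun k => ∫ x, u k x ∂μ) atTop (𝓝 (∫ x, U x ∂μ)) := by
  have vi : ∀ k, Integrable (fun x => max (-H x) (min (u k x) (H x))) μ := fun k =>
    Hi.neg.sup ((ui k).inf Hi)
  have h1 : Tendsto (fun k => ∫ x, max (-H x) (min (u k x) (H x)) ∂μ) atTop (𝓝 (∫ x, U x ∂μ)) := by
    refine tendsto_integral_of_dominated_convergence H (fun k => (vi k).aestronglyMeasurable) Hi
      (fun k => ?_) ?_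
    · filter_upwards [Hb] with x hx
      have h0 : 0 ≤ H x := (abs_nonneg _).trans hx
      rw [Real.norm_eq_abs, abs_le]
      exact ⟨le_max_left _ _, max_le (by linarith) (min_le_right _ _)⟩
    · filter_upwards [hl, Hb] with x hx hx'
      have := (tendsto_const_nhds (x := -H x)).max (hx.min (tendsto_const_nhds (x := H x)))
      rwa [min_eq_left (le_of_abs_le hx'), max_eq_right (neg_le_of_abs_le hx')] at this
  have h2 : Tendsto (fun k => ∫ x, u k x ∂μ - ∫ x, max (-H x) (min (u k x) (H x)) ∂μ) atTop
      (𝓝 0) := by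
    refine squeeze_zero_norm' ?_ hL
    filter_upwards [hb] with k hk
    rw [← integral_sub (ui k) (vi k)]
    refine norm_integral_le_of_norm_le ((hi k).sub Hi).abs ?_
    filter_upwards [hk, Hb] with x hx hx'
    have h0 : 0 ≤ H x := (abs_nonneg _).trans hx'
    have a1 := le_abs_self (h k x - H x)
    have a2 := abs_nonneg (h k x - H x)
    have a3 := abs_le.1 hx
    rw [Real.norm_eq_abs, abs_le]
    rcases le_total (u k x) (H x) with c | c
    · rw [min_eq_left c]
      rcases le_total (-H x) (u k x) with c' | c'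
      · rw [max_eq_right c']; constructor <;> linarith
      · rw [max_eq_left c']; constructor <;> linarith
    · rw [min_eq_right c, max_eq_right (by linarith)]; constructor <;> linarith
  have := h2.add h1
  simpa using this

lemma jensen {α V : Type} [MeasurableSpace α] {μ : Measure α} [NormedAddCommGroup V]
    [NormedSpace ℝ V] {w : α → ℝ} {F : α → V} (n : ℕ) (w0 : ∀ t, 0 ≤ w t) (wi : Integrable w μ)
    (w1 : ∫ t, w t ∂μ = 1) (h1 : Integrable (fun t => w t • F t) μ)
    (h2 : Integrable (fun t => w t * ‖F t‖ ^ n) μ) :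
    ‖∫ t, w t • F t ∂μ‖ ^ n ≤ ∫ t, w t * ‖F t‖ ^ n ∂μ := by
  have e : ∀ t, ‖w t • F t‖ = w t * ‖F t‖ := fun t => by
    rw [norm_smul, Real.norm_of_nonneg (w0 t)]
  have h3 : Integrable (fun t => w t * ‖F t‖) μ := by simpa only [e] using h1.norm
  set a := ∫ t, w t * ‖F t‖ ∂μ with ha
  have a0 : 0 ≤ a := integral_nonneg fun t => mul_nonneg (w0 t) (norm_nonneg _)
  have h4 : ‖∫ t, w t • F t ∂μ‖ ≤ a := by
    have := norm_integral_le_integral_norm (μ := μ) (fun t => w t • F t)
    simpa only [e] using this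
  refine (pow_le_pow_left₀ (norm_nonneg _) h4 n).trans ?_
  have h5 : ∫ t, ((a ^ n - n * a ^ (n - 1) * a) * w t + n * a ^ (n - 1) * (w t * ‖F t‖)) ∂μ
      = a ^ n := by
    rw [integral_add (wi.const_mul _) (h3.const_mul _), integral_const_mul, integral_const_mul,
      w1, ← ha]
    ring
  rw [← h5]
  refine integral_mono ((wi.const_mul _).add (h3.const_mul _)) h2 fun t => ?_
  have h6 := pow_add_mul_le_add_pow (a := a) (b := ‖F t‖ - a) a0
    (by linarith [norm_nonneg (F t)]) n
  rw [add_sub_cancel] at h6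
  have := mul_le_mul_of_nonneg_left h6 (w0 t)
  show _ ≤ w t * ‖F t‖ ^ n
  linarith

lemma int_ind {n : ℕ} {V : Type} [NormedAddCommGroup V] [NormedSpace ℝ V] {Ω T : Set (E n)}
    (hΩ : MeasurableSet Ω) (hT : MeasurableSet T) (hs : T ⊆ Ω) {w : E n → ℝ} (F : E n → V)
    (hw : ∀ t, t ∉ T → w t = 0) : ∫ t in Ω, w t • F t = ∫ t, w t • T.indicator F t := by
  rw [setIntegral_eq_of_subset_of_forall_sdiff_eq_zero hΩ hs
    (fun t ht => by rw [hw t ht.2, zero_smul]), ← integral_indicator hT]
  congr 1
  ext t
  by_cases ht : t ∈ T <;> simp [ht]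

lemma deriv_eq {n : ℕ} {Ω T : Set (E n)} {f : E n → E n} {G : E n → E n →L[ℝ] E n}
    (hΩ : MeasurableSet Ω) (hT : MeasurableSet T) (hs : T ⊆ Ω) (hw : HasWeakFDerivOn Ω f G)
    (hf : Integrable (T.indicator f)) (hG : Integrable (T.indicator G))
    (φ : ContDiffBump (0 : E n)) {x : E n} (hx : closedBall x φ.rOut ⊆ T) :
    fderiv ℝ (φ.normed volume ⋆[lsmul ℝ ℝ, volume] T.indicator f) x =
      (φ.normed volume ⋆[lsmul ℝ ℝ, volume] T.indicator G) x := by
  have hc := φ.hasCompactSupport_normed (μ := volume)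
  have h1 : ContDiff ℝ 1 (φ.normed volume) := φ.contDiff_normed (n := 1)
  have hd : Differentiable ℝ (φ.normed volume) := h1.differentiable one_ne_zero
  rw [(hc.hasFDerivAt_convolution_left (lsmul ℝ ℝ) h1 hf.locallyIntegrable x).fderiv]
  have i1 := ((hc.fderiv ℝ).convolutionExists_left ((lsmul ℝ ℝ : ℝ →L[ℝ] E n →L[ℝ] E n).precompL (E n))
    (h1.continuous_fderiv one_ne_zero) hf.locallyIntegrable x).integrable_swap
  have i2 := (hc.convolutionExists_left (lsmul ℝ ℝ) φ.continuous_normed
    hG.locallyIntegrable x).integrable_swap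
  ext1 v
  rw [convolution_eq_swap, convolution_eq_swap, ContinuousLinearMap.integral_apply i1,
    ContinuousLinearMap.integral_apply i2]
  have hout : ∀ t, t ∉ closedBall x φ.rOut → x - t ∉ tsupport (φ.normed volume) := by
    intro t ht
    rw [φ.tsupport_normed_eq]
    intro h
    apply ht
    rw [mem_closedBall, dist_comm, dist_eq_norm]
    simpa using h
  have hz : ∀ t, t ∉ closedBall x φ.rOut → φ.normed volume (x - t) = 0 := fun t ht =>
    image_eq_zero_of_notMem_tsupport (hout t ht)
  have hψ : ∀ t, fderiv ℝ (fun t => φ.normed volume (x - t)) t v =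
      -(fderiv ℝ (φ.normed volume) (x - t) v) := by
    intro t
    have := (hd (x - t)).hasFDerivAt.comp t ((hasFDerivAt_id t).const_sub x)
    have e : fderiv ℝ (fun t => φ.normed volume (x - t)) t = _ := this.fderiv
    rw [e]
    simp
  have key := hw (fun t => φ.normed volume (x - t))
    ((φ.contDiff_normed (n := ⊤)).comp (contDiff_const.sub contDiff_id))
    (HasCompactSupport.intro (isCompact_closedBall x φ.rOut) hz)
    ((closure_minimal (fun t ht => by
      by_contra h
      exact ht (hz t h)) isClosed_closedBall).trans (hx.trans hs)) v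
  rw [int_ind hΩ hT hs f (fun t ht => by
      rw [hψ, fderiv_of_notMem_tsupport ℝ (hout t fun h => ht (hx h))]; simp),
    int_ind hΩ hT hs (fun t => G t v) (fun t ht => hz t fun h => ht (hx h))] at key
  simp only [hψ, neg_smul, integral_neg, neg_inj] at key
  simp only [precompL_apply, lsmul_apply, smul_apply]
  rw [key]
  congr 1
  ext1 t
  by_cases ht : t ∈ T <;> simp [ht]

/-- the bump functions -/
noncomputable def bump (n : ℕ) {d : ℝ} (hd : 0 < d) (k : ℕ) : ContDiffBump (0 : E n) :=
  ⟨d / ((k : ℝ) + 1) / 2, d / ((k : ℝ) + 1), by positivity, half_lt_self (by positivity)⟩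

lemma bump_tendsto (n : ℕ) {d : ℝ} (hd : 0 < d) :
    Tendsto (fun k => (bump n hd k).rOut) atTop (𝓝 0) := by
  have := (tendsto_one_div_add_atTop_nhds_zero_nat (𝕜 := ℝ)).const_mul d
  simpa [bump, div_eq_mul_inv] using this

lemma bump_le (n : ℕ) {d : ℝ} (hd : 0 < d) (k : ℕ) : (bump n hd k).rOut ≤ d :=
  div_le_self hd.le (by linarith [Nat.cast_nonneg (α := ℝ) k])

lemma bump_ratio (n : ℕ) {d : ℝ} (hd : 0 < d) (k : ℕ) :
    (bump n hd k).rOut ≤ 2 * (bump n hd k).rIn := by
  simp only [bump]; linarith

end MollP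

open MollP in
theorem moll : S_Moll := by
  intro n hn Ω f G K h S hS hc
  obtain ⟨d, hd, hT⟩ := hc.exists_cthickening_subset_open h.op hS
  set T := cthickening d S with hTdef
  have hTc : IsCompact T := hc.cthickening
  have hTm : MeasurableSet T := hTc.measurableSet
  have hST : S ⊆ T := self_subset_cthickening S
  have hball : ∀ k, ∀ x ∈ S, closedBall x (bump n hd k).rOut ⊆ T := fun k x hx =>
    (closedBall_subset_closedBall (bump_le n hd k)).trans (closedBall_subset_cthickening hx d)
  have hfT := h.cont.mono hT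
  have hf : Integrable (T.indicator f) :=
    (integrable_indicator_iff hTm).2 (hfT.integrableOn_compact hTc)
  have hG : Integrable (T.indicator G) := by
    have : IsFiniteMeasure (volume.restrict T) := isFiniteMeasure_restrict.2 hTc.measure_lt_top.ne
    have hI : IntegrableOn G T volume := (h.memLp T hT hTc).integrable (by exact_mod_cast hn)
    exact (integrable_indicator_iff (ε' := E n →L[ℝ] E n) (f := G) (μ := volume) hTm).2 hI
  have hH : Integrable (fun x => ‖T.indicator G x‖ ^ n) := by
    have := (integrable_indicator_iff hTm).2 (h.integrableOn_pow hn hT hTc)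
    refine this.congr (Eventually.of_forall fun x => ?_)
    have h0 : n ≠ 0 := by omega
    by_cases hx : x ∈ T <;> simp [hx, h0]
  set g : ℕ → E n → E n := fun k =>
    (bump n hd k).normed volume ⋆[lsmul ℝ ℝ, volume] T.indicator f with hg
  have hg1 : ∀ k, ContDiff ℝ 1 (g k) := fun k =>
    (bump n hd k).hasCompactSupport_normed.contDiff_convolution_left (n := 1) _
      (bump n hd k).contDiff_normed hf.locallyIntegrable
  have hu : TendstoUniformlyOn g f atTop S := by
    rw [Metric.tendstoUniformlyOn_iff]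
    intro ε hε
    obtain ⟨δ, hδ, hδ'⟩ := Metric.uniformContinuousOn_iff_le.1
      (hTc.uniformContinuousOn_of_continuous hfT) (ε / 2) (half_pos hε)
    filter_upwards [(bump_tendsto n hd).eventually (ge_mem_nhds hδ)] with k hk x hx
    have := (bump n hd k).dist_normed_convolution_le (μ := volume) (x₀ := x) (ε := ε / 2)
      hf.aestronglyMeasurable (fun t ht => by
        have ht' : t ∈ T := hball k x hx (ball_subset_closedBall ht)
        rw [indicator_of_mem ht', indicator_of_mem (hST hx)]
        exact hδ' t ht' x (hST hx) ((le_of_lt ht).trans hk))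
    rw [indicator_of_mem (hST hx), dist_comm] at this
    exact this.trans_lt (half_lt_self hε)
  refine ⟨g, hg1, hu, fun Φ hΦ hgr => ?_⟩
  have hD : ∀ k, ∀ x ∈ S, fderiv ℝ (g k) x =
      ((bump n hd k).normed volume ⋆[lsmul ℝ ℝ, volume] T.indicator G) x := fun k x hx =>
    deriv_eq h.op.measurableSet hTm hT h.weak hf hG _ (hball k x hx)
  set H : E n → ℝ := fun x => ‖T.indicator G x‖ ^ n with hHdef
  set hh : ℕ → E n → ℝ := fun k => (bump n hd k).normed volume ⋆[lsmul ℝ ℝ, volume] H with hhdef
  have hhi : ∀ k, Integrable (hh k) := fun k =>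
    (bump n hd k).integrable_normed.integrable_convolution _ hH
  have hJ : ∀ k x, ‖((bump n hd k).normed volume ⋆[lsmul ℝ ℝ, volume] T.indicator G) x‖ ^ n ≤
      hh k x := by
    intro k x
    have hcs := (bump n hd k).hasCompactSupport_normed (μ := volume)
    have i1 := (hcs.convolutionExists_left (lsmul ℝ ℝ) (bump n hd k).continuous_normed
      hG.locallyIntegrable x).integrable
    have i2 := (hcs.convolutionExists_left (lsmul ℝ ℝ) (bump n hd k).continuous_normed
      hH.locallyIntegrable x).integrable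
    exact jensen n (bump n hd k).nonneg_normed (bump n hd k).integrable_normed
      (bump n hd k).integral_normed i1 i2
  have hsch := scheffe hhi hH (fun k x => (pow_nonneg (norm_nonneg _) n).trans (hJ k x))
    (fun x => pow_nonneg (norm_nonneg _) n)
    (ContDiffBump.ae_convolution_tendsto_right_of_locallyIntegrable (bump_tendsto n hd)
      (Eventually.of_forall (bump_ratio n hd)) hH.locallyIntegrable)
    (fun k => by
      rw [hhdef, integral_convolution _ (bump n hd k).integrable_normed hH,
        (bump n hd k).integral_normed]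
      simp)
  have hGl := ContDiffBump.ae_convolution_tendsto_right_of_locallyIntegrable (μ := volume)
    (bump_tendsto n hd) (Eventually.of_forall (bump_ratio n hd)) hG.locallyIntegrable
  obtain ⟨M, hM⟩ := hc.exists_bound_of_continuousOn (h.cont.mono hS)
  obtain ⟨C, hC⟩ := hgr (M + 1)
  have hC' : ∀ x ∈ S, ∀ y : E n, ‖y‖ ≤ M + 1 → ∀ (A : E n →L[ℝ] E n) (b : ℝ), ‖A‖ ^ n ≤ b →
      |Φ (x, y, A)| ≤ |C| * (1 + b) := fun x hx y hy A b hb =>
    (hC x hx y hy A).trans (mul_le_mul (le_abs_self C) (by linarith) (by positivity) (abs_nonneg C))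
  have hSf : volume S ≠ ⊤ := hc.measure_lt_top.ne
  refine gdct (h := fun k x => |C| * (1 + hh k x)) (H := fun x => |C| * (1 + H x)) (fun k => ?_)
    (fun k => ((integrableOn_const hSf).add (hhi k).integrableOn).const_mul _)
    (((integrableOn_const hSf).add hH.integrableOn).const_mul _) ?_ ?_ ?_ ?_
  · exact (hΦ.comp (continuous_id.prodMk ((hg1 k).continuous.prodMk
      ((hg1 k).continuous_fderiv one_ne_zero)))).continuousOn.integrableOn_compact hc
  · filter_upwards [Metric.tendstoUniformlyOn_iff.1 hu 1 one_pos] with k hk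
    filter_upwards [ae_restrict_mem hc.measurableSet] with x hx
    refine hC' x hx _ ?_ _ _ (by rw [hD k x hx]; exact hJ k x)
    have h1 := hk x hx
    have h2 := hM x hx
    have h3 := norm_le_norm_add_norm_sub' (g k x) (f x)
    rw [dist_comm, dist_eq_norm] at h1
    linarith
  · filter_upwards [ae_restrict_mem hc.measurableSet] with x hx
    refine hC' x hx _ (by linarith [hM x hx]) _ _ (le_of_eq ?_)
    simp only [hHdef, indicator_of_mem (hST hx)]
  · filter_upwards [ae_restrict_mem hc.measurableSet, ae_restrict_of_ae hGl] with x hx hx'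
    rw [indicator_of_mem (hST hx)] at hx'
    refine (hΦ.tendsto _).comp (tendsto_const_nhds.prodMk_nhds
      ((hu.tendsto_at hx).prodMk_nhds ?_))
    exact hx'.congr fun k => (hD k x hx).symm
  · have h1 := hsch.const_mul |C|
    rw [mul_zero] at h1
    refine squeeze_zero (fun k => integral_nonneg fun x => abs_nonneg _) (fun k => ?_) h1
    have e : ∀ x, |(|C| * (1 + hh k x)) - |C| * (1 + H x)| = |C| * |hh k x - H x| := fun x => by
      rw [← mul_sub, abs_mul, abs_abs, add_sub_add_left_eq_sub]
    simp only [e]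
    rw [integral_const_mul]
    exact mul_le_mul_of_nonneg_left (setIntegral_le_integral ((hhi k).sub hH).abs
      (Eventually.of_forall fun x => abs_nonneg _)) (abs_nonneg C)

end Pool.Agent.P.MP_05ee19_an
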