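import Pool.Agent.P.MP_05ee19_an.Basic
import Pool.Agent.Lib.helper5.NullLag

/-!
The null Lagrangian inequality.
-/

open MeasureTheory Set Metric Filter Topology

namespace Pool.Agent.P.MP_05ee19_an

namespace NullP

variable {n : ℕ}

/-- basis vector -/
noncomputable abbrev ev (i : Fin n) : E n := EuclideanSpace.single i (1 : ℝ)

/-- matrix of an operator -/
noncomputable def mat (A : E n →L[ℝ] E n) : Matrix (Fin n) (Fin n) ℝ :=
  Matrix.of fun k j => A (ev j) k

lemma det_mat (A : E n →L[ℝ] E n) : (mat A).det = A.det := by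
  rw [ContinuousLinearMap.det, ← LinearMap.det_toMatrix (EuclideanSpace.basisFun (Fin n) ℝ).toBasis]
  congr 1

/-- determinant with one row replaced -/
noncomputable def dR (A : E n →L[ℝ] E n) (i : Fin n) (l : E n →L[ℝ] ℝ) : ℝ :=
  ((mat A).updateRow i fun j => l (ev j)).det

/-- projection killing the coordinate `i` -/
noncomputable def pr (i : Fin n) : E n →L[ℝ] E n :=
  ContinuousLinearMap.id ℝ (E n) - (EuclideanSpace.proj i : E n →L[ℝ] ℝ).smulRight (ev i)

lemma det_row (A : E n →L[ℝ] E n) (i : Fin n) (l : E n →L[ℝ] ℝ) :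
    ((pr i).comp A + l.smulRight (ev i)).det = dR A i l := by
  rw [← det_mat, dR]
  congr 1
  ext k j
  by_cases h : k = i
  · subst h; simp [mat, pr]
  · simp [mat, pr, h]

lemma sum_ev (v : E n) : ∑ k, v k • ev k = v := by
  simpa using (EuclideanSpace.basisFun (Fin n) ℝ).sum_repr v

lemma dR_lin (A : E n →L[ℝ] E n) (i : Fin n) (a b : ℝ) (φ l : E n →L[ℝ] ℝ) :
    dR A i (a • φ.comp A + b • l) = a * φ (ev i) * A.det + b * dR A i l := by
  have e : (fun j => (a • φ.comp A + b • l) (ev j)) =
      (∑ k, (a * φ (ev k)) • mat A k) + b • fun j => l (ev j) := by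
    funext j
    have : φ (A (ev j)) = ∑ k, A (ev j) k * φ (ev k) := by
      conv_lhs => rw [← sum_ev (A (ev j))]
      simp [map_sum]
    simp only [add_apply, smul_apply,
      ContinuousLinearMap.comp_apply, smul_eq_mul, Pi.add_apply, Finset.sum_apply, Pi.smul_apply,
      mat, Matrix.of_apply, this, Finset.mul_sum]
    congr 1
    exact Finset.sum_congr rfl fun k _ => by ring
  unfold dR
  rw [e, Matrix.det_updateRow_add, Matrix.det_updateRow_smul, Matrix.det_updateRow_sum, det_mat,
    smul_eq_mul]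

lemma dR_zero (A : E n →L[ℝ] E n) (i : Fin n) : dR A i 0 = 0 := by
  simpa using dR_lin A i 0 0 0 0

lemma abs_dR_le (A : E n →L[ℝ] E n) (i : Fin n) (l : E n →L[ℝ] ℝ) :
    |dR A i l| ≤ n.factorial * (‖l‖ * ‖A‖ ^ (n - 1)) := by
  have hev : ∀ j : Fin n, ‖ev j‖ = 1 := fun j => by simp
  unfold dR
  rw [Matrix.det_apply']
  refine (Finset.abs_sum_le_sum_abs _ _).trans ?_
  refine (Finset.sum_le_card_nsmul _ _ (‖l‖ * ‖A‖ ^ (n - 1)) fun σ _ => ?_).trans (le_of_eq ?_)
  · have h1 : |((Equiv.Perm.sign σ : ℤ) : ℝ)| = 1 := by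
      rcases Int.units_eq_one_or (Equiv.Perm.sign σ) with h | h <;> simp [h]
    rw [abs_mul, h1, one_mul, Finset.abs_prod]
    calc _ ≤ ∏ j, (fun k => if k = i then ‖l‖ else ‖A‖) (σ j) := by
          refine Finset.prod_le_prod (fun _ _ => abs_nonneg _) fun j _ => ?_
          by_cases h : σ j = i
          · rw [h, Matrix.updateRow_self]
            simpa [hev] using l.le_opNorm (ev j)
          · rw [Matrix.updateRow_ne h]
            simp only [h, if_false, mat, Matrix.of_apply]
            refine (PiLp.norm_apply_le (A (ev j)) (σ j)).trans ?_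
            simpa [hev] using A.le_opNorm (ev j)
      _ = ∏ k, (if k = i then ‖l‖ else ‖A‖) :=
          Equiv.prod_comp σ fun k => if k = i then ‖l‖ else ‖A‖
      _ = _ := by
          rw [← Finset.mul_prod_erase _ _ (Finset.mem_univ i), if_pos rfl,
            Finset.prod_congr rfl (g := fun _ => ‖A‖) fun k hk => if_neg (Finset.ne_of_mem_erase hk)]
          simp
  · simp [Fintype.card_perm]

lemma basis_case {g : E n → E n} {η w : E n → ℝ} (hg : ContDiff ℝ 1 g)
    (hη : ContDiff ℝ 1 η) (hc : HasCompactSupport η) (hw : ContDiff ℝ 1 w) (i : Fin n) :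
    Integrable (fun x => η x * fderiv ℝ w (g x) (ev i) * (fderiv ℝ g x).det) ∧
    |∫ x, η x * fderiv ℝ w (g x) (ev i) * (fderiv ℝ g x).det| ≤
      n.factorial * ∫ x, |w (g x)| * ‖fderiv ℝ η x‖ * ‖fderiv ℝ g x‖ ^ (n - 1) := by
  have : Nonempty (Fin n) := ⟨i⟩
  have : Nontrivial (E n) := inferInstance
  have cg := hg.continuous
  have cdg := hg.continuous_fderiv (by norm_num)
  have cdw := hw.continuous_fderiv (by norm_num)
  have cdη := hη.continuous_fderiv (by norm_num)
  obtain ⟨R, hR0, hR⟩ := hc.isCompact.isBounded.subset_ball_lt 0 (0 : E n)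
  let ζ : ContDiffBump (0 : E n) := ⟨R, R + 1, hR0, by linarith⟩
  have hζ : ContDiff ℝ 1 ζ := ζ.contDiff
  set H : E n → E n := fun x => pr i (ζ x • g x) + (η x * w (g x)) • ev i with hH
  have hH1 : ContDiff ℝ 1 H :=
    ((pr i).contDiff.comp (hζ.smul hg)).add ((hη.mul (hw.comp hg)).smul contDiff_const)
  have hH2 : HasCompactSupport H := by
    refine HasCompactSupport.add ?_ ?_
    · exact (ζ.hasCompactSupport.smul_right (f' := g)).comp_left (g := pr i) (map_zero _)
    · exact (hc.mul_right (f' := fun x => w (g x))).smul_right (f' := fun _ => ev i)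
  have key : ∀ x, (fderiv ℝ H x).det = η x * fderiv ℝ w (g x) (ev i) * (fderiv ℝ g x).det +
      w (g x) * dR (fderiv ℝ g x) i (fderiv ℝ η x) := by
    intro x
    have d1 := (hg.differentiable (by norm_num) x).hasFDerivAt
    have d2 := (hw.differentiable (by norm_num) (g x)).hasFDerivAt
    have d3 := (hη.differentiable (by norm_num) x).hasFDerivAt
    have d4 := ((hζ.smul hg).differentiable (by norm_num) x).hasFDerivAt
    have d5 : HasFDerivAt H ((pr i).comp (fderiv ℝ (fun x => ζ x • g x) x) +
        (η x • (fderiv ℝ w (g x)).comp (fderiv ℝ g x) + w (g x) • fderiv ℝ η x).smulRight (ev i))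
        x := ((pr i).hasFDerivAt.comp x d4).add ((d3.mul (d2.comp x d1)).smul_const (ev i))
    rw [d5.fderiv, det_row]
    by_cases hx : x ∈ tsupport η
    · have : (fun x => ζ x • g x) =ᶠ[𝓝 x] g := by
        filter_upwards [ζ.eventuallyEq_one_of_mem_ball (hR hx)] with y hy
        rw [hy]; simp
      rw [this.fderiv_eq, dR_lin]
    · have h1 : η x = 0 := image_eq_zero_of_notMem_tsupport hx
      have h2 : fderiv ℝ η x = 0 := fderiv_of_notMem_tsupport ℝ hx
      simp [h1, h2, dR_zero]
  have i1 : Integrable (fun x => η x * fderiv ℝ w (g x) (ev i) * (fderiv ℝ g x).det) := by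
    refine Continuous.integrable_of_hasCompactSupport ?_ (hc.mul_right.mul_right)
    exact (hη.continuous.mul ((cdw.comp cg).clm_apply continuous_const)).mul
      (ContinuousLinearMap.continuous_det.comp cdg)
  have i2 : Integrable (fun x => (fderiv ℝ H x).det) := by
    refine Continuous.integrable_of_hasCompactSupport
      (ContinuousLinearMap.continuous_det.comp (hH1.continuous_fderiv (by norm_num))) ?_
    refine (hH2.fderiv ℝ).comp_left (g := ContinuousLinearMap.det) ?_
    simp [ContinuousLinearMap.det]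
  have i3 : Integrable (fun x => |w (g x)| * ‖fderiv ℝ η x‖ * ‖fderiv ℝ g x‖ ^ (n - 1)) := by
    refine Continuous.integrable_of_hasCompactSupport ?_ ((hc.fderiv ℝ).norm.mul_left.mul_right)
    exact ((hw.continuous.comp cg).abs.mul cdη.norm).mul (cdg.norm.pow _)
  refine ⟨i1, ?_⟩
  have h0 := Pool.Agent.Lib.helper5.integral_det_fderiv_eq_zero (μ := volume) hH1 hH2
  have h1 : ∫ x, η x * fderiv ℝ w (g x) (ev i) * (fderiv ℝ g x).det =
      ∫ x, (η x * fderiv ℝ w (g x) (ev i) * (fderiv ℝ g x).det - (fderiv ℝ H x).det) := by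
    rw [integral_sub i1 i2, h0, sub_zero]
  rw [h1, ← integral_const_mul, ← Real.norm_eq_abs]
  refine norm_integral_le_of_norm_le (i3.const_mul _) (Eventually.of_forall fun x => ?_)
  rw [key, sub_add_cancel_left, norm_neg, Real.norm_eq_abs, abs_mul]
  refine (mul_le_mul_of_nonneg_left (abs_dR_le _ _ _) (abs_nonneg _)).trans (le_of_eq ?_)
  ring

end NullP

open NullP in
theorem nullC1 : S_NullC1 := by
  intro n hn
  refine ⟨n * n.factorial, by positivity, fun g η w v hg hη hc hw => ?_⟩
  have h := fun i => basis_case hg hη hc hw i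
  have e : ∀ x, η x * fderiv ℝ w (g x) v * (fderiv ℝ g x).det =
      ∑ i, v i * (η x * fderiv ℝ w (g x) (ev i) * (fderiv ℝ g x).det) := by
    intro x
    conv_lhs => rw [← sum_ev v]
    simp only [map_sum, map_smul, smul_eq_mul, Finset.mul_sum, Finset.sum_mul]
    exact Finset.sum_congr rfl fun k _ => by ring
  simp_rw [e]
  rw [integral_finsetSum _ fun i _ => (h i).1.const_mul _]
  refine (Finset.abs_sum_le_sum_abs _ _).trans ?_
  refine (Finset.sum_le_card_nsmul _ _ (‖v‖ * (n.factorial *
    ∫ x, |w (g x)| * ‖fderiv ℝ η x‖ * ‖fderiv ℝ g x‖ ^ (n - 1))) fun i _ => ?_).trans (le_of_eq ?_)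
  · rw [integral_const_mul, abs_mul]
    exact mul_le_mul (PiLp.norm_apply_le v i) (h i).2 (abs_nonneg _) (norm_nonneg _)
  · simp only [Finset.card_univ, Fintype.card_fin, nsmul_eq_mul]; ring

theorem null (h1 : S_Moll) (h2 : S_NullC1) : S_Null := by
  intro n hn
  obtain ⟨C, hC, h2⟩ := h2 n hn
  refine ⟨C, hC, fun Ω f G K hq S hS hSc η w v hη hηS hw => ?_⟩
  obtain ⟨g, hg, -, hlim⟩ := h1 n hn Ω f G K hq S hS hSc
  have hc : HasCompactSupport η := hSc.of_isClosed_subset (isClosed_tsupport η) hηS
  have cdw := hw.continuous_fderiv (by norm_num)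
  have cdη := hη.continuous_fderiv (by norm_num)
  have t1 := hlim (fun p => η p.1 * fderiv ℝ w p.2.1 v * p.2.2.det)
    (((hη.continuous.comp continuous_fst).mul
      ((cdw.comp continuous_snd.fst).clm_apply continuous_const)).mul
      (ContinuousLinearMap.continuous_det.comp continuous_snd.snd)) (fun M => by
      obtain ⟨C1, hC1⟩ := hSc.exists_bound_of_continuousOn hη.continuous.continuousOn
      obtain ⟨C2, hC2⟩ := (isCompact_closedBall (0 : E n) M).exists_bound_of_continuousOn
        (cdw.clm_apply (continuous_const (y := v))).continuousOn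
      refine ⟨C1 * C2 * n.factorial, fun x hx y hy A => ?_⟩
      have a1 := hC1 x hx
      have a2 := hC2 y (by simpa using hy)
      have a3 : |A.det| ≤ n.factorial * (1 + ‖A‖ ^ n) :=
        (abs_det_le A).trans (mul_le_mul_of_nonneg_left (by linarith) (by positivity))
      have b1 := (norm_nonneg _).trans a1
      have b2 := (norm_nonneg _).trans a2
      simp only [abs_mul]
      rw [mul_assoc (C1 * C2)]
      exact mul_le_mul (mul_le_mul a1 a2 (abs_nonneg _) b1) a3 (abs_nonneg _) (by positivity))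
  have t2 := hlim (fun p => |w p.2.1| * ‖fderiv ℝ η p.1‖ * ‖p.2.2‖ ^ (n - 1))
    ((((hw.continuous.comp continuous_snd.fst).abs).mul (cdη.comp continuous_fst).norm).mul
      (continuous_snd.snd.norm.pow _)) (fun M => by
      obtain ⟨C1, hC1⟩ := hSc.exists_bound_of_continuousOn cdη.continuousOn
      obtain ⟨C2, hC2⟩ := (isCompact_closedBall (0 : E n) M).exists_bound_of_continuousOn
        hw.continuous.continuousOn
      refine ⟨C2 * C1, fun x hx y hy A => ?_⟩
      have a1 := hC1 x hx
      have a2 := hC2 y (by simpa using hy)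
      have a3 : ‖A‖ ^ (n - 1) ≤ 1 + ‖A‖ ^ n := by
        have p1 : 0 ≤ ‖A‖ ^ n := by positivity
        rcases le_total ‖A‖ 1 with h | h
        · linarith [pow_le_one₀ (n := n - 1) (norm_nonneg A) h]
        · linarith [pow_le_pow_right₀ h (Nat.sub_le n 1)]
      have b1 := (norm_nonneg _).trans a1
      have b2 := (norm_nonneg _).trans a2
      simp only
      rw [abs_of_nonneg (by positivity)]
      exact mul_le_mul (mul_le_mul a2 a1 (norm_nonneg _) b2) a3 (by positivity) (by positivity))
  refine le_of_tendsto_of_tendsto' t1.abs (t2.const_mul (C * ‖v‖)) fun k => ?_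
  have := h2 (g k) η w v (hg k) hη hc hw
  simp only
  rw [setIntegral_eq_integral_of_forall_compl_eq_zero,
    setIntegral_eq_integral_of_forall_compl_eq_zero]
  · exact this
  · intro x hx
    rw [fderiv_of_notMem_tsupport ℝ fun h => hx (hηS h)]; simp
  · intro x hx
    rw [image_eq_zero_of_notMem_tsupport fun h => hx (hηS h)]; simp

end Pool.Agent.P.MP_05ee19_an
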