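import Pool.Agent.P.MP_05ee19_an.Basic

/-!
Invariance of the coloured Nagata dimension for two pseudo-metrics compared through a gauge.
-/

open Set

namespace Pool.Agent.P.MP_05ee19_an

namespace QSP

variable {Z : Type} {d₀ δ : Z → Z → ℝ} {A : Set Z} {r₁ C : ℝ} {L : Z → ℝ → ℝ}

lemma monoR (h0 : PM d₀) (G : Gauge d₀ δ A r₁ C L) {x : Z} (hx : x ∈ A) {r r' : ℝ} (hr : 0 < r)
    (h : r ≤ r') (h' : r' ≤ r₁) : L x r ≤ L x r' :=
  G.mono x hx x hx r r' hr (by rw [h0.refl, zero_add]; exact h) h'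

lemma iter (h0 : PM d₀) (G : Gauge d₀ δ A r₁ C L) {x : Z} (hx : x ∈ A) {r' : ℝ} (h' : r' ≤ r₁)
    (m : ℕ) : ∀ r, 0 < r → r ≤ r₁ → r ≤ 2 ^ m * r' → L x r ≤ C ^ m * L x r' := by
  induction m with
  | zero =>
    intro r hr _ h
    rw [pow_zero, one_mul] at *
    exact monoR h0 G hx hr h h'
  | succ m ih =>
    intro r hr h1 h
    have h2 := G.dbl x hx (r / 2) (half_pos hr) (by linarith)
    have h3 := ih (r / 2) (half_pos hr) (by linarith) (by rw [pow_succ] at h; linarith)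
    have hC : 0 ≤ C := zero_le_one.trans G.C1
    rw [show 2 * (r / 2) = r by ring] at h2
    calc L x r ≤ C * L x (r / 2) := h2
      _ ≤ C * (C ^ m * L x r') := mul_le_mul_of_nonneg_left h3 hC
      _ = _ := by ring

lemma fwd (hvs : S_VS) (h0 : PM d₀) (h1 : PM δ) (G : Gauge d₀ δ A r₁ C L) {d : ℕ}
    (h : Col d₀ A d) : Col δ A d := by
  obtain ⟨ε, c', hε, hc', hv⟩ := hvs Z d₀ h0 A d h 1 le_rfl
  obtain ⟨m, hm⟩ := pow_unbounded_of_one_lt (2 / ε) (one_lt_two (α := ℝ))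
  obtain ⟨m', hm'⟩ := pow_unbounded_of_one_lt (2 * c' + 1) (one_lt_two (α := ℝ))
  have hC : 0 < C := one_pos.trans_le G.C1
  refine ⟨(C ^ m' + 2) * C ^ (m + 1), by positivity, fun s hs => ?_⟩
  set σ := C ^ (m + 1) * s with hσ
  have hσ0 : 0 < σ := by positivity
  have hCm : 0 < C ^ m' := by positivity
  have eσ : (C ^ m' + 2) * C ^ (m + 1) * s = C ^ m' * σ + 2 * σ := by rw [hσ]; ring
  by_cases hb : ∃ x₀ ∈ A, L x₀ r₁ ≤ σ
  · obtain ⟨x₀, hx₀, hb⟩ := hb
    refine ⟨fun _ => 0, good_of_bdd _ _ fun x hx y hy => ?_⟩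
    have a1 := G.up x₀ hx₀ x hx r₁ G.rpos le_rfl (G.bdd x₀ hx₀ x hx)
    have a2 := G.up x₀ hx₀ y hy r₁ G.rpos le_rfl (G.bdd x₀ hx₀ y hy)
    have a3 := h1.tri x x₀ y
    rw [h1.symm x x₀] at a3
    rw [eσ]
    nlinarith
  push Not at hb
  let S : Z → Set ℝ := fun x => {r | 0 < r ∧ r ≤ r₁ ∧ L x r ≤ σ}
  have hne : ∀ x ∈ A, (S x).Nonempty := by
    intro x hx
    have hL := G.pos x hx r₁ G.rpos le_rfl
    obtain ⟨e, he, he1, hd⟩ := G.dec (σ / L x r₁) (div_pos hσ0 hL)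
    refine ⟨e * r₁, mul_pos he G.rpos, mul_le_of_le_one_left G.rpos.le he1, ?_⟩
    have := hd x hx r₁ G.rpos le_rfl
    rwa [div_mul_cancel₀ _ hL.ne'] at this
  have hbd : ∀ x, BddAbove (S x) := fun x => ⟨r₁, fun r hr => hr.2.1⟩
  let ρ : Z → ℝ := fun x => sSup (S x)
  have ρpos : ∀ x ∈ A, 0 < ρ x := fun x hx => by
    obtain ⟨r, hr⟩ := hne x hx
    exact hr.1.trans_le (le_csSup (hbd x) hr)
  have ρle : ∀ x ∈ A, ρ x ≤ r₁ := fun x hx => csSup_le (hne x hx) fun r hr => hr.2.1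
  have ρlip : ∀ x ∈ A, ∀ y ∈ A, ρ y ≤ 1 * (ρ x + d₀ x y) := by
    intro x hx y hy
    rw [one_mul]
    refine csSup_le (hne y hy) fun r hr => ?_
    have := ρpos x hx
    rcases le_or_gt r (d₀ x y) with h2 | h2
    · linarith
    · have h3 : r - d₀ x y ∈ S x := ⟨by linarith, by linarith [hr.2.1, h0.nonneg x y],
        (G.mono x hx y hy _ r (by linarith) (by linarith) hr.2.1).trans hr.2.2⟩
      have h4 : r - d₀ x y ≤ ρ x := le_csSup (hbd x) h3
      linarith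
  have big : ∀ x ∈ A, σ < L x (min (2 * ρ x) r₁) := by
    intro x hx
    have := ρpos x hx
    rcases le_total (2 * ρ x) r₁ with h2 | h2
    · rw [min_eq_left h2]
      by_contra h3
      have h4 : 2 * ρ x ≤ ρ x := le_csSup (hbd x) ⟨by linarith, h2, not_lt.1 h3⟩
      linarith
    · rw [min_eq_right h2]
      exact hb x hx
  have small : ∀ x ∈ A, L x (ρ x / 2) ≤ σ := by
    intro x hx
    have := ρpos x hx
    obtain ⟨r, hr, h2⟩ := exists_lt_of_lt_csSup (hne x hx) (show ρ x / 2 < sSup (S x) from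
      half_lt_self this)
    exact (monoR h0 G hx (half_pos this) h2.le hr.2.1).trans hr.2.2
  obtain ⟨χ, hχ⟩ := hv ρ ρpos ρlip
  refine ⟨χ, fun x hx y hxy => ?_⟩
  have hy := (chain_mem hx hxy).1
  have h2 : d₀ x y ≤ c' * ρ x := by
    refine hχ x hx y (rtg_mono (fun a b hab => ⟨hab.1, hab.2.1, hab.2.2.1, ?_⟩) hxy)
    by_contra h3
    have ha := hab.1
    have hρ := ρpos a ha
    have h4 : ε * ρ a < d₀ a b := not_le.1 h3
    have h5 : 0 < d₀ a b := (mul_pos hε hρ).trans h4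
    have h6 := G.low a ha b hab.2.1 h5
    have h7 : 2 < 2 ^ m * ε := by rwa [div_lt_iff₀ hε] at hm
    have h8 := iter h0 G ha (G.bdd a ha b hab.2.1) m (min (2 * ρ a) r₁)
      (lt_min (by linarith) G.rpos) (min_le_right _ _) ((min_le_left _ _).trans (by
        have : (2 : ℝ) ^ m * (ε * ρ a) ≤ 2 ^ m * d₀ a b := by gcongr
        nlinarith))
    have h9 : δ a b ≤ s := hab.2.2.2
    have h10 : C ^ m * L a (d₀ a b) ≤ C ^ m * (C * s) := by
      gcongr
      exact h6.trans (by gcongr)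
    have h11 := big a ha
    have : C ^ m * (C * s) = σ := by rw [hσ]; ring
    linarith
  have hρ := ρpos x hx
  have h3 := ρle x hx
  have h4 : max (d₀ x y) (ρ x / 2) ≤ r₁ := max_le (G.bdd x hx y hy) (by linarith)
  have h5 : 0 < max (d₀ x y) (ρ x / 2) := lt_max_of_lt_right (half_pos hρ)
  have h6 := G.up x hx y hy _ h5 h4 (le_max_left _ _)
  have h7 := iter h0 G hx (r' := ρ x / 2) (by linarith) m' _ h5 h4
    (max_le (by nlinarith) (by nlinarith))
  have h8 : C ^ m' * L x (ρ x / 2) ≤ C ^ m' * σ := by gcongr; exact small x hx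
  show δ x y ≤ (C ^ m' + 2) * C ^ (m + 1) * s
  rw [eσ]
  linarith

lemma bwd (hvs : S_VS) (h0 : PM d₀) (h1 : PM δ) (G : Gauge d₀ δ A r₁ C L) {d : ℕ}
    (h : Col δ A d) : Col d₀ A d := by
  obtain ⟨ε, c', hε, hc', hv⟩ := hvs Z δ h1 A d h C G.C1
  have hC : 0 < C := one_pos.trans_le G.C1
  obtain ⟨e₁, he₁, he₁', hd₁⟩ := G.dec ε hε
  obtain ⟨e₂, he₂, he₂', hd₂⟩ := G.dec (1 / (2 * C * c')) (by positivity)
  refine ⟨1 / (e₁ * e₂) + 2 / e₁, by positivity, fun s hs => ?_⟩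
  obtain ⟨r, rfl⟩ : ∃ r, s = e₁ * r := ⟨s / e₁, by field_simp⟩
  have hr : 0 < r := (mul_pos_iff_of_pos_left he₁).1 hs
  have e : (1 / (e₁ * e₂) + 2 / e₁) * (e₁ * r) = r / e₂ + 2 * r := by field_simp
  have hre : 0 < r / e₂ := by positivity
  rcases le_or_gt (2 * r) r₁ with hb | hb
  swap
  · refine ⟨fun _ => 0, good_of_bdd _ _ fun x hx y hy => ?_⟩
    have := G.bdd x hx y hy
    rw [e]
    linarith
  have hr1 : r ≤ r₁ := by linarith
  obtain ⟨χ, hχ⟩ := hv (fun x => L x r) (fun x hx => G.pos x hx r hr hr1) (by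
    intro x hx y hy
    have a0 := h1.nonneg x y
    have a1 := G.pos x hx r hr hr1
    rcases le_or_gt (d₀ y x) r with h2 | h2
    · have a2 := G.mono y hy x hx r (2 * r) hr (by linarith) hb
      have a3 := G.dbl x hx r hr hb
      nlinarith
    · have a2 := monoR h0 G hy hr h2.le (G.bdd y hy x hx)
      have a3 := G.low y hy x hx (hr.trans h2)
      rw [h1.symm y x] at a3
      nlinarith)
  refine ⟨χ, fun x hx y hxy => ?_⟩
  have hy := (chain_mem hx hxy).1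
  have h2 : δ x y ≤ c' * L x r :=
    hχ x hx y (rtg_mono (fun a b hab => ⟨hab.1, hab.2.1, hab.2.2.1,
      (G.up a hab.1 b hab.2.1 _ hs ((mul_le_of_le_one_left hr.le he₁').trans hr1) hab.2.2.2).trans
        (hd₁ a hab.1 r hr hr1)⟩) hxy)
  have h3 : d₀ x y ≤ r / e₂ := by
    by_contra h4
    have h5 : r / e₂ < d₀ x y := not_le.1 h4
    have h6 : 0 < d₀ x y := hre.trans h5
    have h7 := G.bdd x hx y hy
    rw [div_lt_iff₀ he₂, mul_comm] at h5
    have a1 := monoR h0 G hx hr h5.le ((mul_le_of_le_one_left h6.le he₂').trans h7)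
    have a2 := hd₂ x hx _ h6 h7
    have a3 := G.low x hx y hy h6
    have a4 := G.pos x hx r hr hr1
    have a5 : 1 / (2 * C * c') * L x (d₀ x y) ≤ 1 / (2 * C * c') * (C * (c' * L x r)) := by
      gcongr
      exact a3.trans (by gcongr)
    have a6 : 1 / (2 * C * c') * (C * (c' * L x r)) = L x r / 2 := by field_simp
    linarith
  show d₀ x y ≤ (1 / (e₁ * e₂) + 2 / e₁) * (e₁ * r)
  rw [e]
  linarith

end QSP

theorem qs (h : S_VS) : S_QS := fun _ _ _ h0 h1 _ _ _ _ G _ =>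
  ⟨QSP.fwd h h0 h1 G, QSP.bwd h h0 h1 G⟩

end Pool.Agent.P.MP_05ee19_an
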