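import Pool.Agent.P.MP_05ee19_an.Basic

/-!
Union lemmas and the variable-scale colouring lemma.
-/

open Set

namespace Pool.Agent.P.MP_05ee19_an

namespace VSP

lemma multi_aux {Z ι : Type} {δ : Z → Z → ℝ} (hδ : PM δ) (Y : ℕ → Set Z) (χ : ℕ → Z → ι)
    (t : ℕ → ℝ) (c s : ℝ) (hc : 0 ≤ c) (hs : 0 < s) (hst : ∀ p, s ≤ t p)
    (ht : ∀ p, (c + 4) * t p ≤ t (p + 1)) (M : ℕ)
    (hY : ∀ p < M, Good δ (Y p) (χ p) (fun _ => t p) (fun _ => c * t p)) :
    ∃ χ' : Z → ι, Good δ {x | ∃ p < M, x ∈ Y p} χ' (fun _ => s) (fun _ => t M - 2 * s) := by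
  classical
  induction M with
  | zero => exact ⟨χ 0, fun x hx => by obtain ⟨p, hp, -⟩ := hx; omega⟩
  | succ M ih =>
    obtain ⟨χ₀, h₀⟩ := ih (fun p hp => hY p (by omega))
    refine ⟨fun x => if x ∈ Y M then χ M x else χ₀ x, fun x hx y hxy => ?_⟩
    set R := Step δ {x | ∃ p < M + 1, x ∈ Y p} (fun x => if x ∈ Y M then χ M x else χ₀ x)
      (fun _ => s) with hR
    have hold : ∀ a, a ∈ {x | ∃ p < M + 1, x ∈ Y p} → a ∉ Y M → a ∈ {x | ∃ p < M, x ∈ Y p} := by
      rintro a ⟨p, hp, ha⟩ hn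
      refine ⟨p, ?_, ha⟩
      rcases Nat.lt_succ_iff_lt_or_eq.1 hp with h | rfl
      · exact h
      · exact absurd ha hn
    have hrun : ∀ a b, a ∈ {x | ∃ p < M + 1, x ∈ Y p} → a ∉ Y M →
        Relation.ReflTransGen (Run R (fun z => z ∈ Y M)) a b → δ a b ≤ t M - 2 * s := by
      intro a b ha hn hab
      refine h₀ a (hold a ha hn) b (rtg_mono ?_ hab)
      rintro u v ⟨⟨hu, hv, e, hd⟩, nu, nv⟩
      simp only [if_neg nu, if_neg nv] at e
      exact ⟨hold u hu nu, hold v hv nv, e, hd⟩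
    have hcol : ∀ a b, Relation.ReflTransGen (Run R (fun z => z ∈ Y M)) a b →
        (if a ∈ Y M then χ M a else χ₀ a) = (if b ∈ Y M then χ M b else χ₀ b) := by
      intro a b hab
      induction hab with
      | refl => rfl
      | tail _ hbc ih => exact ih.trans hbc.1.2.2.1
    have h1 := hst M
    have h2 := ht M
    have h3 : 0 ≤ c * t M := mul_nonneg hc (by linarith)
    show δ x y ≤ t (M + 1) - 2 * s
    rcases chain_split (fun z => z ∈ Y M) hxy with ⟨nx, -, hr⟩ | ⟨a, b, pa, pb, ha, hab, hb⟩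
    · have := hrun x y hx nx hr
      linarith
    · have e1 : δ x a ≤ t M := by
        rcases ha with rfl | ⟨v, nx, -, hr, hva⟩
        · rw [hδ.refl]; linarith
        · have := hrun x v hx nx hr
          have h4 : δ v a ≤ s := hva.2.2.2
          have := hδ.tri x v a
          linarith
      have e2 : δ a b ≤ c * t M := by
        refine hY M (Nat.lt_succ_self M) a pa b (rtg_mono ?_ hab)
        rintro u v ⟨pu, pv, h | ⟨u', v', nu, nv, g1, g2, g3⟩⟩
        · have e := h.2.2.1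
          simp only [if_pos pu, if_pos pv] at e
          exact ⟨pu, pv, e, h.2.2.2.trans h1⟩
        · have e := (g1.2.2.1.trans (hcol _ _ g2)).trans g3.2.2.1
          simp only [if_pos pu, if_pos pv] at e
          refine ⟨pu, pv, e, ?_⟩
          have := hrun u' v' g1.2.1 nu g2
          have h4 : δ u u' ≤ s := g1.2.2.2
          have h5 : δ v' v ≤ s := g3.2.2.2
          have := hδ.tri u u' v
          have := hδ.tri u' v' v
          show δ u v ≤ t M
          linarith
      have e3 : δ b y ≤ t M := by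
        rcases hb with rfl | ⟨u, nu, -, hbu, hr⟩
        · rw [hδ.refl]; linarith
        · have := hrun u y hbu.2.1 nu hr
          have h4 : δ b u ≤ s := hbu.2.2.2
          have := hδ.tri b u y
          linarith
      have := hδ.tri x a y
      have := hδ.tri a b y
      linarith

/-- the combinatorial core of the variable-scale lemma -/
lemma core {Z ι : Type} {δ : Z → Z → ℝ} (hδ : PM δ) {X : Set Z} (u : ℤ → ℝ) (c l : ℝ)
    (hc : 0 < c) (hl : c + 2 ≤ l) (hu0 : ∀ k, 0 < u k) (hu1 : ∀ k, u (k + 1) = l * u k)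
    (ψ : ℤ → Z → ι) (hψ : ∀ k, Good δ X (ψ k) (fun _ => u k) (fun _ => c * u k)) (j : Z → ℤ)
    (sep : ∀ a ∈ X, ∀ b ∈ X, δ a b ≤ u (j a + 1) → j b ≤ j a + 1)
    (sep2 : ∀ a ∈ X, ∀ b ∈ X, δ a b ≤ u (j a - 1) → j a ≤ j b + 1) :
    Good δ X (fun x => if Even (j x) then ψ (j x) x else ψ (j x - 2) x) (fun x => u (j x - 2))
      (fun x => (c + 1 + c * l + (c + 1)) * u (j x)) := by
  have hm : Monotone u := by
    refine monotone_int_of_le_succ (fun k => ?_)
    rw [hu1]
    nlinarith [hu0 k]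
  intro x hx y hxy
  set R := Step δ X (fun x => if Even (j x) then ψ (j x) x else ψ (j x - 2) x)
    (fun x => u (j x - 2)) with hR
  have hstep : ∀ a b, R a b → j b ≤ j a + 1 ∧ j a ≤ j b + 1 := fun a b h =>
    ⟨sep a h.1 b h.2.1 (h.2.2.2.trans (hm (by omega))),
      sep2 a h.1 b h.2.1 (h.2.2.2.trans (hm (by omega)))⟩
  have hrun0 : ∀ a b, Relation.ReflTransGen (Run R (fun z => Even (j z))) a b → j b = j a ∧
      Relation.ReflTransGen (Step δ X (ψ (j a - 2)) (fun _ => u (j a - 2))) a b := by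
    intro a b hab
    induction hab with
    | refl => exact ⟨rfl, .refl⟩
    | @tail v w _ hvw ih =>
      obtain ⟨h, nv, nw⟩ := hvw
      have h1 := hstep v w h
      have e : j w = j v := by
        rw [Int.not_even_iff_odd] at nv nw
        obtain ⟨p, hp⟩ := nv
        obtain ⟨q, hq⟩ := nw
        omega
      have e2 := h.2.2.1
      have e3 := h.2.2.2
      simp only [if_neg nv, if_neg nw] at e2 e3
      rw [e, ih.1] at e2
      rw [ih.1] at e3
      exact ⟨e.trans ih.1, ih.2.tail ⟨h.1, h.2.1, e2, e3⟩⟩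
  have hrun : ∀ a ∈ X, ∀ b, Relation.ReflTransGen (Run R (fun z => Even (j z))) a b →
      j b = j a ∧ δ a b ≤ c * u (j a - 2) := fun a ha b hab =>
    ⟨(hrun0 a b hab).1, hψ _ a ha b (hrun0 a b hab).2⟩
  have hcol : ∀ a b, Relation.ReflTransGen (Run R (fun z => Even (j z))) a b →
      (if Even (j a) then ψ (j a) a else ψ (j a - 2) a) =
        (if Even (j b) then ψ (j b) b else ψ (j b - 2) b) := by
    intro a b hab
    induction hab with
    | refl => rfl
    | tail _ hbc ih => exact ih.trans hbc.1.2.2.1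
  have hup : ∀ k, (c + 2) * u (k - 1) ≤ u k := fun k => by
    have := hu1 (k - 1)
    rw [sub_add_cancel] at this
    rw [this]
    exact mul_le_mul_of_nonneg_right hl (hu0 _).le
  have hj1 : ∀ a b, Jump R (fun z => Even (j z)) a b → j b = j a ∧
      Step δ X (ψ (j a)) (fun _ => u (j a)) a b := by
    rintro a b ⟨pa, pb, h | ⟨v, w, nv, nw, g1, g2, g3⟩⟩
    · have h1 := hstep a b h
      have e : j b = j a := by
        obtain ⟨p, hp⟩ := pa
        obtain ⟨q, hq⟩ := pb
        omega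
      have e2 := h.2.2.1
      simp only [if_pos pa, if_pos pb] at e2
      rw [e] at e2
      exact ⟨e, h.1, h.2.1, e2, h.2.2.2.trans (hm (by omega))⟩
    · have s1 := hstep a v g1
      have s3 := hstep w b g3
      obtain ⟨e1, d2⟩ := hrun v g1.2.1 w g2
      have d1 : δ a v ≤ u (j a - 2) := g1.2.2.2
      have d3 : δ w b ≤ u (j w - 2) := g3.2.2.2
      rw [e1] at d3 s3
      have t1 := hδ.tri a v b
      have t2 := hδ.tri v w b
      have k1 : δ a b ≤ u (j a) := by
        have m1 : u (j a - 2) ≤ u (j a - 1) := hm (by omega)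
        have m2 : u (j v - 2) ≤ u (j a - 1) := hm (by omega)
        have := hup (j a)
        nlinarith
      have e : j b = j a := by
        have f1 := sep a g1.1 b g3.2.1 (k1.trans (hm (by omega)))
        have f2 : j a = j v + 1 → j a ≤ j b + 1 := fun h => by
          refine sep2 a g1.1 b g3.2.1 ?_
          have m1 : u (j a - 2) ≤ u (j a - 1 - 1) := hm (by omega)
          have m2 : u (j v - 2) ≤ u (j a - 1 - 1) := hm (by omega)
          have := hup (j a - 1)
          nlinarith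
        rw [Int.not_even_iff_odd] at nv
        obtain ⟨p, hp⟩ := pa
        obtain ⟨q, hq⟩ := pb
        obtain ⟨r, hr⟩ := nv
        omega
      have e2 := (g1.2.2.1.trans (hcol _ _ g2)).trans g3.2.2.1
      simp only [if_pos pa, if_pos pb] at e2
      rw [e] at e2
      exact ⟨e, g1.1, g3.2.1, e2, k1⟩
  have hj : ∀ a b, Relation.ReflTransGen (Jump R (fun z => Even (j z))) a b → j b = j a ∧
      Relation.ReflTransGen (Step δ X (ψ (j a)) (fun _ => u (j a))) a b := by
    intro a b hab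
    induction hab with
    | refl => exact ⟨rfl, .refl⟩
    | @tail v w _ hvw ih =>
      obtain ⟨e, h⟩ := hj1 v w hvw
      rw [ih.1] at h
      exact ⟨e.trans ih.1, ih.2.tail h⟩
  have p0 := hu0 (j x)
  have p1 : u (j x - 2) ≤ u (j x) := hm (by omega)
  have p2 : 0 ≤ c * l * u (j x) := mul_nonneg (mul_nonneg hc.le (by linarith)) p0.le
  show δ x y ≤ (c + 1 + c * l + (c + 1)) * u (j x)
  rcases chain_split (fun z => Even (j z)) hxy with ⟨-, -, hr⟩ | ⟨a, b, pa, pb, ha, hab, hb⟩
  · have := (hrun x hx y hr).2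
    nlinarith
  · have e1 : a ∈ X ∧ j a ≤ j x + 1 ∧ δ x a ≤ (c + 1) * u (j x) := by
      rcases ha with rfl | ⟨v, -, -, hr, hva⟩
      · refine ⟨hx, by omega, ?_⟩
        rw [hδ.refl]; positivity
      · obtain ⟨e, d⟩ := hrun x hx v hr
        have d2 : δ v a ≤ u (j v - 2) := hva.2.2.2
        have s := hstep v a hva
        rw [e] at d2 s
        have := hδ.tri x v a
        exact ⟨hva.2.1, s.1, by nlinarith⟩
    obtain ⟨e2, h2⟩ := hj a b hab
    have e3 : δ a b ≤ c * u (j a) := hψ _ a e1.1 b h2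
    have e4 : u (j a) ≤ l * u (j x) := by rw [← hu1]; exact hm e1.2.1
    have e5 : δ b y ≤ (c + 1) * u (j x) := by
      rcases hb with rfl | ⟨v, -, -, hbv, hr⟩
      · rw [hδ.refl]; positivity
      · have d := (hrun v hbv.2.1 y hr).2
        have d2 : δ b v ≤ u (j b - 2) := hbv.2.2.2
        have s := hstep b v hbv
        have := e1.2.1
        have m1 : u (j b - 2) ≤ u (j x) := hm (by omega)
        have m2 : u (j v - 2) ≤ u (j x) := hm (by omega)
        have := hδ.tri b v y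
        nlinarith
    have := hδ.tri x a y
    have := hδ.tri a b y
    have := e1.2.2
    nlinarith

end VSP

theorem multi : S_Multi := by
  intro Z ι δ hδ M Y χ t c s hc hs hst ht hY
  obtain ⟨χ', h⟩ := VSP.multi_aux hδ Y χ t c s hc hs hst ht M hY
  refine ⟨χ', h.mono subset_rfl (fun _ _ => le_rfl) (fun _ _ => ?_)⟩
  have := hst M
  nlinarith

theorem union (h : S_Multi) : S_Union := by
  intro Z δ hδ X Y d ⟨c₁, hc₁, h₁⟩ ⟨c₂, hc₂, h₂⟩
  choose! χ₁ hχ₁ using h₁
  choose! χ₂ hχ₂ using h₂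
  have hc : 0 < max c₁ c₂ := lt_max_of_lt_left hc₁
  refine ⟨(max c₁ c₂ + 2) * (max c₁ c₂ + 4) ^ 2, by positivity, fun s hs => ?_⟩
  obtain ⟨χ, hχ⟩ := h Z (Fin (d + 1)) δ hδ 2 (fun p => if p = 0 then X else Y)
    (fun p => if p = 0 then χ₁ ((max c₁ c₂ + 4) ^ p * s) else χ₂ ((max c₁ c₂ + 4) ^ p * s))
    (fun p => (max c₁ c₂ + 4) ^ p * s) (max c₁ c₂) s hc.le hs
    (fun p => le_mul_of_one_le_left hs.le (one_le_pow₀ (by linarith)))
    (fun p => le_of_eq (by ring)) (fun p _ => by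
      have hp : 0 < (max c₁ c₂ + 4) ^ p * s := by positivity
      split_ifs
      · exact (hχ₁ _ hp).mono subset_rfl (fun _ _ => le_rfl)
          (fun _ _ => mul_le_mul_of_nonneg_right (le_max_left _ _) hp.le)
      · exact (hχ₂ _ hp).mono subset_rfl (fun _ _ => le_rfl)
          (fun _ _ => mul_le_mul_of_nonneg_right (le_max_right _ _) hp.le))
  refine ⟨χ, hχ.mono ?_ (fun _ _ => le_rfl) (fun _ _ => le_of_eq (by ring))⟩
  rintro x (hx | hx)
  · exact ⟨0, by norm_num, by simpa using hx⟩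
  · exact ⟨1, by norm_num, by simpa using hx⟩

theorem vs : S_VS := by
  intro Z δ hδ X d ⟨c, hc, h⟩ C hC
  choose! χ hχ using h
  obtain ⟨l, hl1, hl2⟩ : ∃ l : ℝ, 2 * C ≤ l ∧ c + 2 ≤ l := ⟨max _ _, le_max_left _ _, le_max_right _ _⟩
  have l1 : 1 < l := by linarith
  have l0 : 0 < l := by linarith
  refine ⟨l ^ (-3 : ℤ), c + 1 + c * l + (c + 1), by positivity, by positivity, fun ρ hρ hlip => ?_⟩
  have hex : ∀ x ∈ X, ∃ k : ℤ, l ^ k ≤ ρ x ∧ ρ x < l ^ (k + 1) := fun x hx =>
    exists_mem_Ico_zpow (hρ x hx) l1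
  choose! j hj1 hj2 using hex
  have hu1 : ∀ k : ℤ, l ^ (k + 1) = l * l ^ k := fun k => by rw [zpow_add_one₀ l0.ne', mul_comm]
  have key : ∀ a ∈ X, ∀ b ∈ X, ∀ k : ℤ, j a + 1 ≤ k → δ a b ≤ l ^ k → j b ≤ k := by
    intro a ha b hb k hk hd
    have h1 : ρ a < l ^ k := (hj2 a ha).trans_le (zpow_le_zpow_right₀ l1.le hk)
    have h2 : 0 < l ^ k := by positivity
    have h3 : l ^ j b < l ^ (k + 1) := by
      rw [hu1]
      have := hj1 b hb
      have := hlip a ha b hb
      nlinarith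
    have := (zpow_lt_zpow_iff_right₀ l1).1 h3
    omega
  refine ⟨_, (VSP.core hδ (fun k => l ^ k) c l hc hl2 (fun k => by positivity) hu1
    (fun k => χ (l ^ k)) (fun k => hχ _ (by positivity)) j
    (fun a ha b hb hd => key a ha b hb _ le_rfl hd) (fun a ha b hb hd => ?_)).mono subset_rfl
    (fun x hx => ?_) (fun x hx => ?_)⟩
  · by_contra hn
    have := key b hb a ha (j a - 1) (by omega) (by rw [hδ.symm]; exact hd)
    omega
  · have e : l ^ (j x - 2) = l ^ (-3 : ℤ) * l ^ (j x + 1) := by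
      rw [← zpow_add₀ l0.ne']; congr 1; ring
    show l ^ (-3 : ℤ) * ρ x ≤ l ^ (j x - 2)
    rw [e]
    exact mul_le_mul_of_nonneg_left (hj2 x hx).le (by positivity)
  · exact mul_le_mul_of_nonneg_left (hj1 x hx) (by positivity)

end Pool.Agent.P.MP_05ee19_an
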