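import Pool.Agent.P.MP_05ee19_an.Loc
import Pool.Agent.P.MP_05ee19_an.Const
import Pool.Agent.P.MP_05ee19_an.Cover
import Pool.Agent.P.MP_05ee19_an.Deg
import Pool.Agent.P.MP_05ee19_an.Field
import Pool.Agent.P.MP_05ee19_an.Light
import Pool.Agent.P.MP_05ee19_an.Loew
import Pool.Agent.P.MP_05ee19_an.Master
import Pool.Agent.P.MP_05ee19_an.Moll
import Pool.Agent.P.MP_05ee19_an.Null
import Pool.Agent.P.MP_05ee19_an.QS
import Pool.Agent.P.MP_05ee19_an.VS
import Pool.Agent.P.MP_05ee19_an.Top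
import Pool.Agent.P.MP_05ee19_an.Geo

/-!
Quasiregular maps preserve the Nagata dimension of compactly contained sets.
-/

namespace Pool.Agent.P.MP_05ee19_an

theorem main (n : ℕ) (hn : 2 ≤ n) (Ω : Set (E n)) (hΩ : IsOpen Ω) (hc : IsConnected Ω)
    (f : E n → E n) (hf : IsQuasiregular Ω f) (hnc : ∃ x ∈ Ω, ∃ y ∈ Ω, f x ≠ f y)
    (A : Set (E n)) (hAc : IsCompact (closure A)) (hAΩ : closure A ⊆ Ω) :
    nagataDim A = nagataDim (f '' A) :=
  have hNull : S_Null := null moll nullC1
  have hLoew : S_Loew := loew moll loewC1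
  have hDeg : S_Deg := deg hNull const
  have hSurj : S_Surj := surj hDeg hLoew
  main_of (union multi) (qs vs) coverA (coverB multi) normal (lift hSurj)
    (master hDeg hLoew cap maxP) (pack hDeg hLoew maxP) geo (light hNull hLoew field)
    (openOn normal hSurj) n hn Ω hΩ hc f hf hnc A hAc hAΩ

end Pool.Agent.P.MP_05ee19_an
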