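import Pool.Agent.P.MP_05ee19_an.Defs

/-!
Internal notions and the statements of the packages for MP_05ee19_an.
-/

open MeasureTheory Set Metric Filter Topology

namespace Pool.Agent.P.MP_05ee19_an

/-! ### Metric part -/

/-- pseudo-metric given as a function -/
structure PM {Z : Type} (δ : Z → Z → ℝ) : Prop where
  refl : ∀ x, δ x x = 0
  symm : ∀ x y, δ x y = δ y x
  tri : ∀ x y z, δ x z ≤ δ x y + δ y z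

/-- a monochromatic step inside `X` of length at most `σ a` -/
def Step {Z ι : Type} (δ : Z → Z → ℝ) (X : Set Z) (χ : Z → ι) (σ : Z → ℝ) (a b : Z) : Prop :=
  a ∈ X ∧ b ∈ X ∧ χ a = χ b ∧ δ a b ≤ σ a

/-- monochromatic chains starting at `x` stay within `D x` -/
def Good {Z ι : Type} (δ : Z → Z → ℝ) (X : Set Z) (χ : Z → ι) (σ D : Z → ℝ) : Prop :=
  ∀ x ∈ X, ∀ y, Relation.ReflTransGen (Step δ X χ σ) x y → δ x y ≤ D x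

/-- coloured form of Nagata dimension at most `d` -/
def Col {Z : Type} (δ : Z → Z → ℝ) (X : Set Z) (d : ℕ) : Prop :=
  ∃ c : ℝ, 0 < c ∧ ∀ s : ℝ, 0 < s →
    ∃ χ : Z → Fin (d + 1), Good δ X χ (fun _ => s) (fun _ => c * s)

def S_Conv : Prop :=
  ∀ (Z : Type) [MetricSpace Z] (A : Set Z) (d : ℕ), NagataLE A d ↔ Col (fun x y : Z => dist x y) A d

def S_Multi : Prop :=
  ∀ (Z ι : Type) (δ : Z → Z → ℝ), PM δ → ∀ (M : ℕ) (Y : ℕ → Set Z) (χ : ℕ → Z → ι) (t : ℕ → ℝ)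
    (c s : ℝ), 0 ≤ c → 0 < s → (∀ p, s ≤ t p) → (∀ p, (c + 4) * t p ≤ t (p + 1)) →
    (∀ p < M, Good δ (Y p) (χ p) (fun _ => t p) (fun _ => c * t p)) →
    ∃ χ' : Z → ι, Good δ {x | ∃ p < M, x ∈ Y p} χ' (fun _ => s) (fun _ => (c + 2) * t M)

def S_Union : Prop :=
  ∀ (Z : Type) (δ : Z → Z → ℝ), PM δ → ∀ (X Y : Set Z) (d : ℕ),
    Col δ X d → Col δ Y d → Col δ (X ∪ Y) d

def S_VS : Prop :=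
  ∀ (Z : Type) (δ : Z → Z → ℝ), PM δ → ∀ (X : Set Z) (d : ℕ), Col δ X d → ∀ C : ℝ, 1 ≤ C →
    ∃ ε c' : ℝ, 0 < ε ∧ 0 < c' ∧ ∀ ρ : Z → ℝ, (∀ x ∈ X, 0 < ρ x) →
      (∀ x ∈ X, ∀ y ∈ X, ρ y ≤ C * (ρ x + δ x y)) →
      ∃ χ : Z → Fin (d + 1), Good δ X χ (fun x => ε * ρ x) (fun x => c' * ρ x)

/-- two pseudo-metrics `d₀`, `δ` on `A` compared through a gauge `L` -/
structure Gauge {Z : Type} (d₀ δ : Z → Z → ℝ) (A : Set Z) (r₁ C : ℝ) (L : Z → ℝ → ℝ) : Prop where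
  rpos : 0 < r₁
  C1 : 1 ≤ C
  bdd : ∀ x ∈ A, ∀ y ∈ A, d₀ x y ≤ r₁
  mono : ∀ x ∈ A, ∀ y ∈ A, ∀ r r', 0 < r → d₀ x y + r ≤ r' → r' ≤ r₁ → L x r ≤ L y r'
  pos : ∀ x ∈ A, ∀ r, 0 < r → r ≤ r₁ → 0 < L x r
  dbl : ∀ x ∈ A, ∀ r, 0 < r → 2 * r ≤ r₁ → L x (2 * r) ≤ C * L x r
  dec : ∀ θ : ℝ, 0 < θ → ∃ ε : ℝ, 0 < ε ∧ ε ≤ 1 ∧
    ∀ x ∈ A, ∀ r, 0 < r → r ≤ r₁ → L x (ε * r) ≤ θ * L x r
  up : ∀ x ∈ A, ∀ y ∈ A, ∀ r, 0 < r → r ≤ r₁ → d₀ x y ≤ r → δ x y ≤ L x r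
  low : ∀ x ∈ A, ∀ y ∈ A, 0 < d₀ x y → L x (d₀ x y) ≤ C * δ x y

def S_QS : Prop :=
  ∀ (Z : Type) (d₀ δ : Z → Z → ℝ), PM d₀ → PM δ → ∀ (A : Set Z) (r₁ C : ℝ) (L : Z → ℝ → ℝ),
    Gauge d₀ δ A r₁ C L → ∀ d : ℕ, Col d₀ A d ↔ Col δ A d

/-- a 1-Lipschitz map of bounded multiplicity with lifting -/
structure Branch {Z : Type} {n : ℕ} (δ : Z → Z → ℝ) (π : Z → E n) (A Z₀ : Set Z) (t₀ D₀ : ℝ)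
    (N : ℕ) : Prop where
  sub : A ⊆ Z₀
  tpos : 0 < t₀
  bdd : ∀ x ∈ A, ∀ y ∈ A, δ x y ≤ D₀
  lip : ∀ x ∈ Z₀, ∀ y ∈ Z₀, dist (π x) (π y) ≤ δ x y
  lift : ∀ x ∈ A, ∀ (y : E n) (t : ℝ), t ≤ t₀ → dist y (π x) < t →
    ∃ z ∈ Z₀, π z = y ∧ δ x z ≤ 2 * t
  mult : ∀ y : E n, (Z₀ ∩ π ⁻¹' {y}).encard ≤ N

def S_CoverA : Prop :=
  ∀ (Z : Type) (n : ℕ) (δ : Z → Z → ℝ), PM δ → ∀ (π : Z → E n) (A Z₀ : Set Z) (t₀ D₀ : ℝ) (N : ℕ),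
    Branch δ π A Z₀ t₀ D₀ N → ∀ d : ℕ, Col (fun x y : E n => dist x y) (π '' A) d → Col δ A d

def S_CoverB : Prop :=
  ∀ (Z : Type) (n : ℕ) (δ : Z → Z → ℝ), PM δ → ∀ (π : Z → E n) (A Z₀ : Set Z) (t₀ D₀ : ℝ) (N : ℕ),
    Branch δ π A Z₀ t₀ D₀ N → ∀ d : ℕ, Col δ A d → Col (fun x y : E n => dist x y) (π '' A) d

/-! ### Analytic part -/

/-- the data of a quasiregular map -/
structure QR (n : ℕ) (Ω : Set (E n)) (f : E n → E n) (G : E n → E n →L[ℝ] E n) (K : ℝ) :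
    Prop where
  op : IsOpen Ω
  cont : ContinuousOn f Ω
  weak : HasWeakFDerivOn Ω f G
  memLp : ∀ S ⊆ Ω, IsCompact S → MemLp G n (volume.restrict S)
  K1 : 1 ≤ K
  dil : ∀ᵐ x ∂(volume.restrict Ω), ‖G x‖ ^ n ≤ K * (G x).det

/-- growth of order `n` in the matrix variable -/
def Growth {n : ℕ} (S : Set (E n)) (Φ : E n × E n × (E n →L[ℝ] E n) → ℝ) : Prop :=
  ∀ M : ℝ, ∃ C : ℝ, ∀ x ∈ S, ∀ y : E n, ‖y‖ ≤ M → ∀ A : E n →L[ℝ] E n,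
    |Φ (x, y, A)| ≤ C * (1 + ‖A‖ ^ n)

def S_Moll : Prop :=
  ∀ n, 1 ≤ n → ∀ Ω f G K, QR n Ω f G K → ∀ S ⊆ Ω, IsCompact S →
    ∃ g : ℕ → E n → E n, (∀ k, ContDiff ℝ 1 (g k)) ∧ TendstoUniformlyOn g f atTop S ∧
      ∀ Φ : E n × E n × (E n →L[ℝ] E n) → ℝ, Continuous Φ → Growth S Φ →
        Tendsto (fun k => ∫ x in S, Φ (x, g k x, fderiv ℝ (g k) x)) atTop
          (𝓝 (∫ x in S, Φ (x, f x, G x)))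

def S_NullC1 : Prop :=
  ∀ n, 1 ≤ n → ∃ C : ℝ, 0 ≤ C ∧ ∀ (g : E n → E n) (η w : E n → ℝ) (v : E n),
    ContDiff ℝ 1 g → ContDiff ℝ 1 η → HasCompactSupport η → ContDiff ℝ 1 w →
    |∫ x, η x * fderiv ℝ w (g x) v * (fderiv ℝ g x).det| ≤
      C * ‖v‖ * ∫ x, |w (g x)| * ‖fderiv ℝ η x‖ * ‖fderiv ℝ g x‖ ^ (n - 1)

def S_Null : Prop :=
  ∀ n, 1 ≤ n → ∃ C : ℝ, 0 ≤ C ∧ ∀ Ω f G K, QR n Ω f G K → ∀ S ⊆ Ω, IsCompact S →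
    ∀ (η w : E n → ℝ) (v : E n), ContDiff ℝ 1 η → tsupport η ⊆ S → ContDiff ℝ 1 w →
    |∫ x in S, η x * fderiv ℝ w (f x) v * (G x).det| ≤
      C * ‖v‖ * ∫ x in S, |w (f x)| * ‖fderiv ℝ η x‖ * ‖G x‖ ^ (n - 1)

/-- the distances from some point to the points of `S` fill an interval of length `l` -/
def Thick {n : ℕ} (S : Set (E n)) (l : ℝ) : Prop :=
  ∃ (q : E n) (a : ℝ), ∀ t ∈ Icc a (a + l), ∃ z ∈ S, dist z q = t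

def S_LoewC1 : Prop :=
  ∀ n, 1 ≤ n → ∀ θ : ℝ, 0 < θ → ∃ C : ℝ, 0 ≤ C ∧ ∀ (u : E n → ℝ), ContDiff ℝ 1 u →
    ∀ (x : E n) (r : ℝ), 0 < r → ∀ S T : Set (E n), S ⊆ closedBall x r → T ⊆ closedBall x r →
    Thick S (θ * r) → Thick T (θ * r) → ∀ a M : ℝ, 0 ≤ M → (∀ z ∈ S, u z ≤ a) →
    (∀ z ∈ T, a + M ≤ u z) → M ^ n ≤ C * ∫ z in closedBall x (2 * r), ‖fderiv ℝ u z‖ ^ n

def S_Loew : Prop :=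
  ∀ n, 1 ≤ n → ∀ θ : ℝ, 0 < θ → ∃ C : ℝ, 0 ≤ C ∧ ∀ Ω f G K, QR n Ω f G K →
    ∀ (ψ : E n → ℝ), ContDiff ℝ 1 ψ →
    ∀ (x : E n) (r : ℝ), 0 < r → closedBall x (2 * r) ⊆ Ω →
    ∀ S T : Set (E n), S ⊆ closedBall x r → T ⊆ closedBall x r →
    Thick S (θ * r) → Thick T (θ * r) → ∀ a M : ℝ, 0 ≤ M → (∀ z ∈ S, ψ (f z) ≤ a) →
    (∀ z ∈ T, a + M ≤ ψ (f z)) →
    M ^ n ≤ C * ∫ z in closedBall x (2 * r), ‖fderiv ℝ ψ (f z)‖ ^ n * ‖G z‖ ^ n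

def S_Const : Prop :=
  ∀ n (μ : Measure (E n)) [IsFiniteMeasure μ] (y : E n) (R : ℝ),
    (∀ φ : E n → ℝ, ContDiff ℝ 1 φ → HasCompactSupport φ → tsupport φ ⊆ ball y R →
      ∀ v : E n, ∫ z, fderiv ℝ φ z v ∂μ = 0) →
    ∃ D : ℝ, 0 ≤ D ∧ ∀ φ : E n → ℝ, Continuous φ → HasCompactSupport φ →
      tsupport φ ⊆ ball y R → ∫ z, φ z ∂μ = D * ∫ z, φ z

def S_Cap : Prop :=
  ∀ n, 1 ≤ n → ∃ C : ℝ, 0 ≤ C ∧ ∀ (e : E n) (a : ℝ) (k : ℕ), 0 < a →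
    ∃ ψ : E n → ℝ, ContDiff ℝ 1 ψ ∧ (∀ y, ‖y - e‖ ≤ a → ψ y ≤ 0) ∧
      (∀ y, 2 ^ k * a ≤ ‖y - e‖ → (k : ℝ) ≤ ψ y) ∧
      tsupport (fderiv ℝ ψ) ⊆ closedBall e (2 ^ k * a) ∧
      ∫ y, ‖fderiv ℝ ψ y‖ ^ n ≤ C * k

/-- `f` is constant on no nondegenerate connected subset of `Ω` -/
def Light {n : ℕ} (Ω : Set (E n)) (f : E n → E n) : Prop :=
  ∀ C ⊆ Ω, IsPreconnected C → (∀ a ∈ C, ∀ b ∈ C, f a = f b) → C.Subsingleton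

/-- the vector field and the potential used for lightness -/
def S_Field : Prop :=
  ∀ n, 2 ≤ n → ∀ (b : E n) (M₀ : ℝ), ∃ c : ℝ, 0 < c ∧ ∀ m B : ℝ, 0 < m →
    ∃ (W : Fin n → E n → ℝ) (g ψ : E n → ℝ) (a : ℝ), (∀ i, ContDiff ℝ 1 (W i)) ∧ Continuous g ∧
      ContDiff ℝ 1 ψ ∧ (∀ y, 0 ≤ g y) ∧ (∀ i y, |W i y| ≤ g y ^ (n - 1)) ∧
      (∀ y, ‖fderiv ℝ ψ y‖ ≤ g y) ∧
      (∀ y, ‖y - b‖ ≤ M₀ →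
        c * g y ^ n ≤ ∑ i, fderiv ℝ (W i) y (EuclideanSpace.single i (1 : ℝ))) ∧
      (∀ y, m ≤ ‖y - b‖ → ψ y ≤ a) ∧ a + B ≤ ψ b

def S_Light : Prop :=
  ∀ n, 2 ≤ n → ∀ Ω f G K, QR n Ω f G K → IsPreconnected Ω → (∃ x ∈ Ω, ∃ y ∈ Ω, f x ≠ f y) →
    Light Ω f

/-- `U` is a relatively compact open set whose frontier is mapped outside `ball y R` -/
structure Adm {n : ℕ} (Ω : Set (E n)) (f : E n → E n) (U : Set (E n)) (y : E n) (R : ℝ) :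
    Prop where
  op : IsOpen U
  cpt : IsCompact (closure U)
  sub : closure U ⊆ Ω
  far : ∀ z ∈ frontier U, R ≤ dist (f z) y

def S_Normal : Prop :=
  ∀ n (Ω : Set (E n)) (f : E n → E n), IsOpen Ω → ContinuousOn f Ω → Light Ω f →
    ∀ x ∈ Ω, ∀ ρ : ℝ, 0 < ρ → ∃ (U : Set (E n)) (R : ℝ), 0 < R ∧ x ∈ U ∧ U ⊆ ball x ρ ∧
      Adm Ω f U (f x) R

def S_Deg : Prop :=
  ∀ n, 1 ≤ n → ∀ Ω f G K, QR n Ω f G K → ∀ U y R, Adm Ω f U y R →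
    ∃ D : ℝ, 0 ≤ D ∧ ∀ φ : E n → ℝ, Continuous φ → HasCompactSupport φ →
      tsupport φ ⊆ ball y R → ∫ x in U, φ (f x) * (G x).det = D * ∫ z, φ z

def S_Surj : Prop :=
  ∀ n, 1 ≤ n → ∀ Ω f G K, QR n Ω f G K → Light Ω f → ∀ U y R, Adm Ω f U y R →
    ∀ x ∈ U, f x ∈ ball y R → ball y R ⊆ f '' U

/-- `f` is an open map on `Ω` -/
def OpenOn {n : ℕ} (Ω : Set (E n)) (f : E n → E n) : Prop :=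
  ∀ x ∈ Ω, ∀ ρ : ℝ, 0 < ρ → ∃ R : ℝ, 0 < R ∧ ball (f x) R ⊆ f '' (Ω ∩ ball x ρ)

def S_MaxP : Prop :=
  ∀ n (Ω : Set (E n)) (f : E n → E n), ContinuousOn f Ω → OpenOn Ω f →
    ∀ (h : E n → ℝ) (t : ℝ), Continuous h →
    (∀ y, t < h y → ∀ R : ℝ, 0 < R → ∃ y' ∈ ball y R, h y < h y') →
    ∀ (x : E n) (r : ℝ), 0 < r → closedBall x r ⊆ Ω → ∀ w ∈ closedBall x (r / 2),
      t < h (f w) → Thick {z ∈ closedBall x r | t ≤ h (f z)} (1 / 4 * r)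

def S_Lift : Prop :=
  ∀ n, 1 ≤ n → ∀ Ω f G K, QR n Ω f G K → Light Ω f → ∀ U y₀ R, Adm Ω f U y₀ R →
    ∀ x ∈ U, ∀ t : ℝ, ball (f x) t ⊆ ball y₀ R → ∀ y ∈ ball (f x) t,
      ∃ C ⊆ U, IsPreconnected C ∧ x ∈ C ∧ (∀ z ∈ C, f z ∈ ball (f x) t) ∧ ∃ z ∈ C, f z = y

/-- the conclusion of the master estimate on `W = U ∩ f ⁻¹' ball y₀ (R / 8)` -/
def MasterC {n : ℕ} (f : E n → E n) (U : Set (E n)) (y₀ : E n) (R C₁ : ℝ) : Prop :=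
  ∀ (x : E n) (r : ℝ), 0 < r → closedBall x (2 * r) ⊆ U ∩ f ⁻¹' ball y₀ (R / 8) →
    ∀ e ∈ ball y₀ (R / 8), ∀ a : ℝ, 0 < a → ∀ S ⊆ closedBall x r, Thick S (1 / 4 * r) →
    (∀ z ∈ S, ‖f z - e‖ ≤ a) → ∀ w ∈ closedBall x (r / 2), ‖f w - e‖ ≤ C₁ * a

/-- the conclusion of the packing estimate -/
def PackC {n : ℕ} (f : E n → E n) (U : Set (E n)) (y₀ : E n) (R C₂ : ℝ) : Prop :=
  ∀ (ι : Type) (I : Finset ι) (c w : ι → E n) (ρ : ι → ℝ), ∀ y ∈ ball y₀ (R / 8), ∀ s : ℝ,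
    0 < s → s ≤ R / 4 → (∀ i ∈ I, 0 < ρ i) → (∀ i ∈ I, closedBall (c i) (2 * ρ i) ⊆ U) →
    (∀ i ∈ I, ∀ z ∈ closedBall (c i) (2 * ρ i), ‖f z - y‖ ≤ s) →
    (∀ i ∈ I, w i ∈ closedBall (c i) (ρ i / 2)) →
    (∀ i ∈ I, ∀ j ∈ I, i ≠ j →
      Disjoint (closedBall (c i) (2 * ρ i)) (closedBall (c j) (2 * ρ j))) →
    ∑ i ∈ I, ‖f (w i) - f (c i)‖ ^ n ≤ C₂ * s ^ n

def S_Master : Prop :=
  ∀ n, 2 ≤ n → ∀ Ω f G K, QR n Ω f G K → OpenOn Ω f → ∀ U y₀ R, Adm Ω f U y₀ R →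
    ∃ C₁ : ℝ, 1 ≤ C₁ ∧ MasterC f U y₀ R C₁

def S_Pack : Prop :=
  ∀ n, 1 ≤ n → ∀ Ω f G K, QR n Ω f G K → OpenOn Ω f → ∀ U y₀ R, Adm Ω f U y₀ R →
    ∃ C₂ : ℝ, 0 ≤ C₂ ∧ PackC f U y₀ R C₂

/-- oscillation of `f` on a closed ball -/
noncomputable def osc {n : ℕ} (f : E n → E n) (x : E n) (r : ℝ) : ℝ :=
  diam (f '' closedBall x r)

/-- geometric properties of `f` on the open set `W` -/
structure Geo {n : ℕ} (Ω : Set (E n)) (f : E n → E n) (W : Set (E n)) (C : ℝ) (N : ℕ) :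
    Prop where
  C1 : 1 ≤ C
  dbl : ∀ x r, 0 < r → closedBall x (8 * r) ⊆ W → osc f x (2 * r) ≤ C * osc f x r
  low : ∀ x y, x ≠ y → closedBall x (4 * dist x y) ⊆ W → ∀ S ⊆ Ω, IsPreconnected S → x ∈ S →
    y ∈ S → ∀ a : ℝ, (∀ p ∈ S, ∀ q ∈ S, dist (f p) (f q) ≤ a) → osc f x (dist x y) ≤ C * a
  dec : ∀ θ : ℝ, 0 < θ → ∃ ε : ℝ, 0 < ε ∧ ε ≤ 1 ∧
    ∀ x r, 0 < r → closedBall x (10 * r) ⊆ W → osc f x (ε * r) ≤ θ * osc f x r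
  mult : ∀ y, (W ∩ f ⁻¹' {y}).encard ≤ N

def S_Geo : Prop :=
  ∀ n, 1 ≤ n → ∀ (Ω : Set (E n)) (f : E n → E n), IsOpen Ω → ContinuousOn f Ω → Light Ω f →
    ∀ U y₀ R, Adm Ω f U y₀ R → ∀ C₁ C₂ : ℝ, 1 ≤ C₁ → 0 ≤ C₂ → MasterC f U y₀ R C₁ →
    PackC f U y₀ R C₂ → ∃ (C : ℝ) (N : ℕ), Geo Ω f (U ∩ f ⁻¹' ball y₀ (R / 8)) C N

end Pool.Agent.P.MP_05ee19_an
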