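import Pool.Agent.P.MP_05ee19_an.Basic

/-!
Topological part for MP_05ee19_an: normal neighbourhoods, the maximum principle for open maps,
lifting, and openness.
-/

open MeasureTheory Set Metric Filter Topology

namespace Pool.Agent.P.MP_05ee19_an

namespace TopP

/-- a connected component of a set is relatively closed in it -/
lemma mem_comp_of_closure {X : Type*} [TopologicalSpace X] {O : Set X} {w z : X} (hw : w ∈ O)
    (hz : z ∈ O) (hc : z ∈ closure (connectedComponentIn O w)) :
    z ∈ connectedComponentIn O w := by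
  have h1 : IsPreconnected (insert z (connectedComponentIn O w)) :=
    isPreconnected_connectedComponentIn.subset_closure (subset_insert _ _)
      (insert_subset hc subset_closure)
  have h2 : insert z (connectedComponentIn O w) ⊆ O :=
    insert_subset hz (connectedComponentIn_subset _ _)
  exact h1.subset_connectedComponentIn (mem_insert_of_mem _ (mem_connectedComponentIn hw)) h2
    (mem_insert _ _)

/-- splitting a compact set in which the component of `x` is a point -/
lemma exists_split {X : Type*} [TopologicalSpace X] [T2Space X] {Z S : Set X} (hZ : IsCompact Z)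
    (hS : IsClosed S) {x : X} (hx : x ∈ Z) (hxS : x ∉ S)
    (hc : ∀ C ⊆ Z, IsPreconnected C → C.Subsingleton) :
    ∃ V₁ V₂ : Set X, IsOpen V₁ ∧ IsOpen V₂ ∧ Disjoint V₁ V₂ ∧ x ∈ V₁ ∧
      ∀ z ∈ Z, (z ∈ V₁ ∧ z ∉ S) ∨ z ∈ V₂ := by
  have : CompactSpace Z := isCompact_iff_compactSpace.mp hZ
  set x' : Z := ⟨x, hx⟩ with hx'
  have hcomp : ∀ z ∈ connectedComponent x', z = x' := by
    intro z hz
    have h1 : IsPreconnected (Subtype.val '' connectedComponent x') :=
      isPreconnected_connectedComponent.image _ continuous_subtype_val.continuousOn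
    have h2 := hc _ (by rintro _ ⟨u, -, rfl⟩; exact u.2) h1
    exact Subtype.ext (h2 ⟨z, hz, rfl⟩ ⟨x', mem_connectedComponent, rfl⟩)
  have hS' : IsCompact (Subtype.val ⁻¹' S : Set Z) :=
    (hS.preimage continuous_subtype_val).isCompact
  have hdis : Disjoint (Subtype.val ⁻¹' S : Set Z)
      (⋂ s : {s : Set Z // IsClopen s ∧ x' ∈ s}, (s : Set Z)) := by
    rw [← connectedComponent_eq_iInter_isClopen, Set.disjoint_left]
    intro z hz hz'
    rw [hcomp z hz'] at hz
    exact hxS hz
  obtain ⟨I, hI⟩ := hS'.elim_finite_subfamily_closed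
    (fun s : {s : Set Z // IsClopen s ∧ x' ∈ s} => (s : Set Z)) (fun s => s.2.1.isClosed)
    (Set.disjoint_iff_inter_eq_empty.mp hdis)
  set T : Set Z := ⋂ s ∈ I, (s : Set Z) with hT
  have hTc : IsClopen T := isClopen_biInter_finset (fun s _ => s.2.1)
  have hxT : x' ∈ T := mem_iInter₂.mpr (fun s _ => s.2.2)
  have hA : IsCompact (Subtype.val '' T) :=
    hTc.isClosed.isCompact.image continuous_subtype_val
  have hB : IsCompact (Subtype.val '' Tᶜ) :=
    hTc.compl.isClosed.isCompact.image continuous_subtype_val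
  have hAB : Disjoint (Subtype.val '' T) (Subtype.val '' Tᶜ) :=
    (Set.disjoint_image_iff Subtype.val_injective).mpr disjoint_compl_right
  obtain ⟨V₁, V₂, h1, h2, h3, h4, h5⟩ := SeparatedNhds.of_isCompact_isCompact hA hB hAB
  refine ⟨V₁, V₂, h1, h2, h5, h3 ⟨x', hxT, rfl⟩, fun z hz => ?_⟩
  by_cases hzT : (⟨z, hz⟩ : Z) ∈ T
  · refine Or.inl ⟨h3 ⟨_, hzT, rfl⟩, fun hzS => ?_⟩
    have : (⟨z, hz⟩ : Z) ∈ (Subtype.val ⁻¹' S : Set Z) ∩ T := ⟨hzS, hzT⟩
    rw [hI] at this
    exact this
  · exact Or.inr (h4 ⟨_, hzT, rfl⟩)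

end TopP

open TopP

theorem normal : S_Normal := by
  intro n Ω f hΩ hf hL x hx ρ hρ
  obtain ⟨ε, hε, hεΩ⟩ := Metric.isOpen_iff.mp hΩ x hx
  set ρ' := min (ε / 2) ρ with hρ'
  have hρ'0 : 0 < ρ' := lt_min (half_pos hε) hρ
  have hB : closedBall x ρ' ⊆ Ω :=
    (closedBall_subset_ball ((min_le_left _ _).trans_lt (half_lt_self hε))).trans hεΩ
  have hfB : ContinuousOn f (closedBall x ρ') := hf.mono hB
  have hZ : IsCompact (closedBall x ρ' ∩ f ⁻¹' {f x}) :=
    (isCompact_closedBall x ρ').of_isClosed_subset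
      (hfB.preimage_isClosed_of_isClosed isClosed_closedBall isClosed_singleton) inter_subset_left
  obtain ⟨V₁, V₂, h1, h2, h3, h4, h5⟩ := exists_split hZ (S := sphere x ρ') isClosed_sphere
    (x := x) ⟨mem_closedBall_self hρ'0.le, rfl⟩
    (by rw [mem_sphere, dist_self]; exact hρ'0.ne)
    (fun C hC hp => hL C (fun z hz => hB (hC hz).1) hp (fun a ha b hb => by
      have e1 : f a = f x := (hC ha).2
      have e2 : f b = f x := (hC hb).2
      rw [e1, e2]))
  set U := V₁ ∩ ball x ρ' with hU
  have hUo : IsOpen U := h1.inter isOpen_ball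
  have hcl : closure U ⊆ closedBall x ρ' :=
    closure_minimal (inter_subset_right.trans ball_subset_closedBall) isClosed_closedBall
  have hcpt : IsCompact (closure U) :=
    (isCompact_closedBall x ρ').of_isClosed_subset isClosed_closure hcl
  have hfr : IsCompact (frontier U) :=
    hcpt.of_isClosed_subset isClosed_frontier frontier_subset_closure
  have hpos : ∀ z ∈ frontier U, 0 < dist (f z) (f x) := by
    intro z hz
    rw [dist_pos]
    intro e
    rw [hUo.frontier_eq] at hz
    rcases h5 z ⟨hcl hz.1, e⟩ with ⟨hz1, hz2⟩ | hz2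
    · refine hz.2 ⟨hz1, ?_⟩
      have := hcl hz.1
      rw [mem_closedBall] at this
      rw [mem_sphere] at hz2
      exact lt_of_le_of_ne this hz2
    · obtain ⟨u, hu1, hu2⟩ := mem_closure_iff.mp hz.1 V₂ h2 hz2
      exact Set.disjoint_left.mp h3 hu2.1 hu1
  have hcont : ContinuousOn (fun z => dist (f z) (f x)) (frontier U) :=
    (continuous_id.dist continuous_const).comp_continuousOn
      (hfB.mono (frontier_subset_closure.trans hcl))
  obtain ⟨R, hR, hR'⟩ := hfr.exists_forall_le' hcont hpos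
  exact ⟨U, R, hR, ⟨h4, mem_ball_self hρ'0⟩,
    inter_subset_right.trans (ball_subset_ball (min_le_right _ _)),
    ⟨hUo, hcpt, hcl.trans hB, hR'⟩⟩

theorem maxP : S_MaxP := by
  intro n Ω f hf hop h t hh hmax x r hr hB w hw htw
  set O := ball x r ∩ f ⁻¹' {y | t < h y} with hO
  have hfb : ContinuousOn f (ball x r) := hf.mono (ball_subset_closedBall.trans hB)
  have hOo : IsOpen O :=
    hfb.isOpen_inter_preimage isOpen_ball (isOpen_lt continuous_const hh)
  have hwO : w ∈ O := ⟨closedBall_subset_ball (half_lt_self hr) hw, htw⟩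
  set V := connectedComponentIn O w with hV
  have hVo : IsOpen V := hOo.connectedComponentIn
  have hwV : w ∈ V := mem_connectedComponentIn hwO
  have hVO : V ⊆ O := connectedComponentIn_subset _ _
  have hex : ∃ v ∈ V, r / 2 + r / 4 ≤ dist v x := by
    by_contra hne
    push Not at hne
    have hcl : closure V ⊆ closedBall x (r / 2 + r / 4) :=
      closure_minimal (fun v hv => (hne v hv).le) isClosed_closedBall
    have hcl' : closure V ⊆ ball x r := hcl.trans (closedBall_subset_ball (by linarith))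
    have hcpt : IsCompact (closure V) :=
      (isCompact_closedBall _ _).of_isClosed_subset isClosed_closure hcl
    obtain ⟨z, hz, hzmax⟩ := hcpt.exists_isMaxOn ⟨w, subset_closure hwV⟩
      (hh.comp_continuousOn (hfb.mono hcl'))
    have htz : t < h (f z) := htw.trans_le (hzmax (subset_closure hwV))
    have hzV : z ∈ V := mem_comp_of_closure hwO ⟨hcl' hz, htz⟩ hz
    obtain ⟨ρ, hρ, hρV⟩ := Metric.isOpen_iff.mp hVo z hzV
    obtain ⟨R, hR, hRs⟩ := hop z (hB (ball_subset_closedBall (hcl' hz))) ρ hρ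
    obtain ⟨y', hy', hlt⟩ := hmax (f z) htz R hR
    obtain ⟨z', hz', rfl⟩ := hRs hy'
    have : h (f z') ≤ h (f z) := hzmax (subset_closure (hρV hz'.2))
    exact absurd hlt (not_lt.mpr this)
  obtain ⟨v, hv, hv'⟩ := hex
  have hVp : IsPreconnected V := isPreconnected_connectedComponentIn
  have hth : Thick (V ∩ closedBall x (r / 2 + r / 4)) (r / 4) :=
    thick_of_preconnected hVp hwV hv (mem_closedBall.mp hw) hv'
  have hsub : V ∩ closedBall x (r / 2 + r / 4) ⊆ {z ∈ closedBall x r | t ≤ h (f z)} := by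
    intro z hz
    have h1 : z ∈ ball x r := (hVO hz.1).1
    have h2 : t < h (f z) := (hVO hz.1).2
    exact ⟨ball_subset_closedBall h1, h2.le⟩
  have hle : 1 / 4 * r ≤ r / 4 := le_of_eq (by ring)
  exact Thick.mono hth hsub hle

theorem lift (h : S_Surj) : S_Lift := by
  intro n hn Ω f G K hq hL U y₀ R hU x hx t ht y hy
  have ht0 : 0 < t := pos_of_mem_ball hy
  set O := U ∩ f ⁻¹' ball (f x) t with hO
  have hUΩ : U ⊆ Ω := subset_closure.trans hU.sub
  have hfU : ContinuousOn f U := hq.cont.mono hUΩ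
  have hOo : IsOpen O := hfU.isOpen_inter_preimage hU.op isOpen_ball
  have hxb : f x ∈ ball (f x) t := mem_ball_self ht0
  have hxO : x ∈ O := ⟨hx, hxb⟩
  set V := connectedComponentIn O x with hV
  have hVo : IsOpen V := hOo.connectedComponentIn
  have hxV : x ∈ V := mem_connectedComponentIn hxO
  have hVO : V ⊆ O := connectedComponentIn_subset _ _
  have hcl : closure V ⊆ closure U := closure_mono (hVO.trans inter_subset_left)
  have hcU : IsCompact (closure U) := hU.cpt
  have hcV : IsCompact (closure V) := IsCompact.of_isClosed_subset hcU isClosed_closure hcl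
  have hsV : closure V ⊆ Ω := hcl.trans hU.sub
  have hfar : ∀ z ∈ frontier V, t ≤ dist (f z) (f x) := by
    intro z hz
    rw [hVo.frontier_eq] at hz
    by_contra hlt
    have hzb : f z ∈ ball (f x) t := mem_ball.mpr (not_le.mp hlt)
    by_cases hzU : z ∈ U
    · exact hz.2 (mem_comp_of_closure hxO ⟨hzU, hzb⟩ hz.1)
    · have h1 := hU.far z (by rw [hU.op.frontier_eq]; exact ⟨hcl hz.1, hzU⟩)
      have h2 : dist (f z) y₀ < R := mem_ball.mp (ht hzb)
      exact absurd h2 (not_lt.mpr h1)
  have hA : Adm Ω f V (f x) t := Adm.mk hVo hcV hsV hfar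
  obtain ⟨z, hz, e⟩ := h n hn Ω f G K hq hL V (f x) t hA x hxV (mem_ball_self ht0) hy
  exact ⟨V, hVO.trans inter_subset_left, isPreconnected_connectedComponentIn, hxV,
    fun u hu => (hVO hu).2, z, hz, e⟩

theorem openOn (h1 : S_Normal) (h2 : S_Surj) :
    ∀ n, 1 ≤ n → ∀ Ω f G K, QR n Ω f G K → Light Ω f → OpenOn Ω f := by
  intro n hn Ω f G K hq hL x hx ρ hρ
  obtain ⟨U, R, hR, hxU, hUb, hA⟩ := h1 n Ω f hq.op hq.cont hL x hx ρ hρ
  refine ⟨R, hR, (h2 n hn Ω f G K hq hL U (f x) R hA x hxU (mem_ball_self hR)).trans ?_⟩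
  exact image_mono (subset_inter (subset_closure.trans hA.sub) hUb)

end Pool.Agent.P.MP_05ee19_an
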